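import Pool.Agent.Mg.F251804.G50215f
import Mathlib

section

namespace Pool.Agent.MP_251804_lc
open Finset

lemma exD (a b : ℕ) : ∃ i, a / 2 ^ i = b / 2 ^ i :=
  ⟨a + b, by
    rw [Nat.div_eq_of_lt, Nat.div_eq_of_lt]
    · exact lt_of_le_of_lt (by omega) (Nat.lt_two_pow_self (n := a + b))
    · exact lt_of_le_of_lt (by omega) (Nat.lt_two_pow_self (n := a + b))⟩

def D (a b : ℕ) : ℕ := Nat.find (exD a b)

lemma D_le {a b i : ℕ} : D a b ≤ i ↔ a / 2 ^ i = b / 2 ^ i := by
  constructor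
  · intro h
    obtain ⟨q, rfl⟩ := Nat.exists_eq_add_of_le h
    have := Nat.find_spec (exD a b)
    rw [pow_add, ← Nat.div_div_eq_div_mul, ← Nat.div_div_eq_div_mul]
    exact congrArg (· / 2 ^ q) this
  · intro h; exact Nat.find_min' _ h

lemma D_pos {a b : ℕ} (h : a ≠ b) : 0 < D a b := by
  by_contra h0
  have : D a b ≤ 0 := by omega
  rw [D_le] at this
  simp at this
  exact h this

lemma D_le_of_lt {a b m : ℕ} (ha : a < 2 ^ m) (hb : b < 2 ^ m) : D a b ≤ m := by
  rw [D_le, Nat.div_eq_of_lt ha, Nat.div_eq_of_lt hb]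

lemma D_max {a b c : ℕ} (h1 : a < b) (h2 : b < c) : D a c = max (D a b) (D b c) := by
  apply eq_of_forall_ge_iff
  intro i
  rw [max_le_iff, D_le, D_le, D_le]
  have := Nat.div_le_div_right (c := 2 ^ i) h1.le
  have := Nat.div_le_div_right (c := 2 ^ i) h2.le
  omega

lemma D_ne {a b c : ℕ} (h1 : a < b) (h2 : b < c) : D a b ≠ D b c := by
  intro h
  have p1 := D_pos h1.ne
  obtain ⟨i, hi⟩ : ∃ i, D a b = i + 1 := ⟨D a b - 1, by omega⟩
  have e1 : a / 2 ^ (i + 1) = b / 2 ^ (i + 1) := D_le.1 hi.le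
  have e2 : b / 2 ^ (i + 1) = c / 2 ^ (i + 1) := D_le.1 (by omega)
  have n1 : a / 2 ^ i ≠ b / 2 ^ i := fun e => by have := D_le.2 e; omega
  have n2 : b / 2 ^ i ≠ c / 2 ^ i := fun e => by have := D_le.2 e; omega
  have := Nat.div_le_div_right (c := 2 ^ i) h1.le
  have := Nat.div_le_div_right (c := 2 ^ i) h2.le
  rw [pow_succ, ← Nat.div_div_eq_div_mul, ← Nat.div_div_eq_div_mul] at e1 e2
  omega

section
variable {r : ℕ} {x : ℕ → ℕ}

lemma D_up (hx : Inc r x) {p q : ℕ} (hq : q + 1 < r)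
    (hup : ∀ j, p ≤ j → j < q → D (x j) (x (j + 1)) < D (x (j + 1)) (x (j + 2))) :
    ∀ b, b ≤ q → ∀ a, p ≤ a → a ≤ b → D (x a) (x (b + 1)) = D (x b) (x (b + 1)) := by
  intro b
  induction b with
  | zero => intro _ a _ h; obtain rfl : a = 0 := by omega
            rfl
  | succ b ih =>
    intro hb a ha hab
    rcases eq_or_lt_of_le hab with h | h
    · rw [h]
    · rw [D_max (b := x (b + 1)) (hx _ _ h (by omega)) (hx _ _ (by omega) (by omega)),
        ih (by omega) a ha (by omega)]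
      exact max_eq_right (hup b (by omega) (by omega)).le

lemma D_up_lt {p q : ℕ}
    (hup : ∀ j, p ≤ j → j < q → D (x j) (x (j + 1)) < D (x (j + 1)) (x (j + 2))) :
    ∀ b, b ≤ q → ∀ a, p ≤ a → a < b → D (x a) (x (a + 1)) < D (x b) (x (b + 1)) := by
  intro b
  induction b with
  | zero => intro _ a _ h; omega
  | succ b ih =>
    intro hb a ha hab
    rcases eq_or_lt_of_le (Nat.lt_succ_iff.1 hab) with h | h
    · subst h; exact hup a ha (by omega)
    · exact (ih (by omega) a ha h).trans (hup b (by omega) (by omega))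

lemma D_down_lt {p q : ℕ}
    (hdn : ∀ j, p ≤ j → j < q → D (x (j + 1)) (x (j + 2)) < D (x j) (x (j + 1))) :
    ∀ b, b ≤ q → ∀ a, p ≤ a → a < b → D (x b) (x (b + 1)) < D (x a) (x (a + 1)) := by
  intro b
  induction b with
  | zero => intro _ a _ h; omega
  | succ b ih =>
    intro hb a ha hab
    rcases eq_or_lt_of_le (Nat.lt_succ_iff.1 hab) with h | h
    · subst h; exact hdn a ha (by omega)
    · exact (hdn b (by omega) (by omega)).trans (ih (by omega) a ha h)

lemma D_down (hx : Inc r x) {p q : ℕ} (hq : q + 1 < r)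
    (hdn : ∀ j, p ≤ j → j < q → D (x (j + 1)) (x (j + 2)) < D (x j) (x (j + 1))) :
    ∀ b, b ≤ q → ∀ a, p ≤ a → a ≤ b → D (x a) (x (b + 1)) = D (x a) (x (a + 1)) := by
  intro b
  induction b with
  | zero => intro _ a _ h; obtain rfl : a = 0 := by omega
            rfl
  | succ b ih =>
    intro hb a ha hab
    rcases eq_or_lt_of_le hab with h | h
    · rw [h]
    · rw [D_max (b := x (b + 1)) (hx _ _ h (by omega)) (hx _ _ (by omega) (by omega)),
        ih (by omega) a ha (by omega)]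
      exact max_eq_left (D_down_lt hdn (b + 1) hb a ha h).le

end

lemma injOn_of_ne {t : ℕ} {y : ℕ → ℕ} (h : ∀ i j, i < j → j < t → y i ≠ y j) :
    Set.InjOn y (range t : Finset ℕ) := by
  intro i hi j hj hij
  simp only [coe_range, Set.mem_Iio] at hi hj
  rcases lt_trichotomy i j with h1 | h1 | h1
  · exact absurd hij (h i j h1 hj)
  · exact h1
  · exact absurd hij.symm (h j i h1 hi)

/-- Stepping up from graphs to triples, doubling the colours. -/
lemma Good.step3 {m k t : ℕ} (h : Good m k 2 t) : Good (2 ^ m) (2 * k) 3 (t + 1) := by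
  obtain ⟨c, hc, h⟩ := h.seq2
  refine good3_of (fun a b d => 2 * c (D a b - 1) (D b d - 1) + if D a b < D b d then 1 else 0)
    ?_ ?_
  · intro a b d
    have := hc (D a b - 1) (D b d - 1)
    split_ifs <;> omega
  intro x hx hb v hv
  beta_reduce at hv
  have hpos : ∀ i < t, 0 < D (x i) (x (i + 1)) := fun i hi =>
    D_pos (hx i (i + 1) (by omega) (by omega)).ne
  have hbd : ∀ i < t, D (x i) (x (i + 1)) - 1 < m := fun i hi => by
    have := D_le_of_lt (hb i (by omega)) (hb (i + 1) (by omega))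
    have := hpos i hi
    omega
  rcases Nat.eq_zero_or_pos t with ht | ht
  · subst ht
    exact h x (by simp) (by simp) 0 (by simp)
  rcases Nat.mod_two_eq_zero_or_one v with hv2 | hv2
  · have hdn : ∀ j, 0 ≤ j → j < t - 1 → D (x (j + 1)) (x (j + 2)) < D (x j) (x (j + 1)) := by
      intro j _ hj
      have h1 := hv j (j + 1) (j + 2) (by omega) (by omega) (by omega)
      have h2 := D_ne (hx j (j + 1) (by omega) (by omega)) (hx (j + 1) (j + 2) (by omega) (by omega))
      split_ifs at h1 <;> omega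
    refine h (fun i => D (x i) (x (i + 1)) - 1) (injOn_of_ne fun i j h1 h2 => ?_) hbd (v / 2) ?_
    · have := D_down_lt hdn j (by omega) i (by omega) h1
      have := hpos j h2
      omega
    · intro i j h1 h2
      obtain ⟨j, rfl⟩ : ∃ j', j = j' + 1 := ⟨j - 1, by omega⟩
      have h3 := hv i (j + 1) (j + 1 + 1) h1 (by omega) (by omega)
      rw [D_down hx (by omega) hdn j (by omega) i (by omega) (by omega)] at h3
      split_ifs at h3 <;> omega
  · have hup : ∀ j, 0 ≤ j → j < t - 1 → D (x j) (x (j + 1)) < D (x (j + 1)) (x (j + 2)) := by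
      intro j _ hj
      have h1 := hv j (j + 1) (j + 2) (by omega) (by omega) (by omega)
      split_ifs at h1 <;> omega
    refine h (fun i => D (x i) (x (i + 1)) - 1) (injOn_of_ne fun i j h1 h2 => ?_) hbd (v / 2) ?_
    · have := D_up_lt hup j (by omega) i (by omega) h1
      have := hpos i (by omega)
      omega
    · intro i j h1 h2
      have h3 := hv i (i + 1) (j + 1) (by omega) (by omega) (by omega)
      rw [D_up hx (by omega) hup j (by omega) (i + 1) (by omega) (by omega)] at h3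
      split_ifs at h3 <;> omega

lemma up_closed {u : ℕ → Prop} {a b : ℕ} (h : ∀ j, a ≤ j → j < b → u j → u (j + 1)) (ha : u a) :
    ∀ j, a ≤ j → j ≤ b → u j := by
  intro j hj
  induction j, hj using Nat.le_induction with
  | base => intro _; exact ha
  | succ j hj ih => intro hb; exact h j hj (by omega) (ih (by omega))

lemma down_closed {u : ℕ → Prop} {b : ℕ} (h : ∀ j, j < b → u (j + 1) → u j) (hb : u b) :
    ∀ j, j ≤ b → u j := by
  intro j hj
  induction hj using Nat.decreasingInduction with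
  | self => exact hb
  | of_succ j hj ih => exact h j hj ih

/-- Stepping up from triples to quadruples with two colours. -/
lemma Good.step4 {m t : ℕ} (h : Good m 2 3 t) : Good (2 ^ m) 2 4 (2 * t + 2) := by
  obtain ⟨c, hc, h⟩ := h.seq3
  refine good4_of (fun a b d e =>
    if D a b < D b d then (if D b d < D d e then c (D a b - 1) (D b d - 1) (D d e - 1) else 1)
    else (if D b d < D d e then 0 else c (D a b - 1) (D b d - 1) (D d e - 1))) ?_ ?_
  · intro a b d e
    have := hc (D a b - 1) (D b d - 1) (D d e - 1)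
    split_ifs <;> omega
  intro x hx hb v hv
  beta_reduce at hv
  have hpos : ∀ i < 2 * t + 1, 0 < D (x i) (x (i + 1)) := fun i hi =>
    D_pos (hx i (i + 1) (by omega) (by omega)).ne
  have hbd : ∀ i < 2 * t + 1, D (x i) (x (i + 1)) - 1 < m := fun i hi => by
    have := D_le_of_lt (hb i (by omega)) (hb (i + 1) (by omega))
    have := hpos i hi
    omega
  have hne : ∀ j < 2 * t, D (x j) (x (j + 1)) ≠ D (x (j + 1)) (x (j + 2)) := fun j hj =>
    D_ne (hx j (j + 1) (by omega) (by omega)) (hx (j + 1) (j + 2) (by omega) (by omega))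
  have caseUp : ∀ p, p ≤ t →
      (∀ j, p ≤ j → j < p + t → D (x j) (x (j + 1)) < D (x (j + 1)) (x (j + 2))) → False := by
    intro p hp hup
    refine h (fun i => D (x (p + i)) (x (p + i + 1)) - 1) (injOn_of_ne fun i j h1 h2 => ?_)
      (fun i hi => hbd _ (by omega)) v ?_
    · have := D_up_lt hup (p + j) (by omega) (p + i) (by omega) (by omega)
      have := hpos (p + i) (by omega)
      omega
    · intro i j s h1 h2 h3
      have h4 := hv (p + i) (p + i + 1) (p + j + 1) (p + s + 1) (by omega) (by omega) (by omega)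
        (by omega)
      rw [D_up hx (by omega) hup (p + j) (by omega) (p + i + 1) (by omega) (by omega),
        D_up hx (by omega) hup (p + s) (by omega) (p + j + 1) (by omega) (by omega),
        if_pos (D_up_lt hup (p + j) (by omega) (p + i) (by omega) (by omega)),
        if_pos (D_up_lt hup (p + s) (by omega) (p + j) (by omega) (by omega))] at h4
      exact h4
  have caseDown : ∀ p, p ≤ t →
      (∀ j, p ≤ j → j < p + t → D (x (j + 1)) (x (j + 2)) < D (x j) (x (j + 1))) → False := by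
    intro p hp hdn
    refine h (fun i => D (x (p + i)) (x (p + i + 1)) - 1) (injOn_of_ne fun i j h1 h2 => ?_)
      (fun i hi => hbd _ (by omega)) v ?_
    · have := D_down_lt hdn (p + j) (by omega) (p + i) (by omega) (by omega)
      have := hpos (p + j) (by omega)
      omega
    · intro i j s h1 h2 h3
      obtain ⟨j, rfl⟩ : ∃ j', j = j' + 1 := ⟨j - 1, by omega⟩
      obtain ⟨s, rfl⟩ : ∃ s', s = s' + 1 := ⟨s - 1, by omega⟩
      have h4 := hv (p + i) (p + j + 1) (p + s + 1) (p + s + 1 + 1) (by omega) (by omega)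
        (by omega) (by omega)
      rw [D_down hx (by omega) hdn (p + j) (by omega) (p + i) (by omega) (by omega),
        D_down hx (by omega) hdn (p + s) (by omega) (p + j + 1) (by omega) (by omega),
        if_neg (D_down_lt hdn (p + j + 1) (by omega) (p + i) (by omega) (by omega)).not_gt,
        if_neg (D_down_lt hdn (p + s + 1) (by omega) (p + j + 1) (by omega) (by omega)).not_gt]
        at h4
      exact h4
  rcases Nat.eq_zero_or_pos t with ht | ht
  · subst ht
    exact caseUp 0 le_rfl (by omega)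
  by_cases hv1 : v = 1
  · -- no local minimum
    have hstep : ∀ j, j + 1 < 2 * t → ¬ D (x j) (x (j + 1)) < D (x (j + 1)) (x (j + 2)) →
        ¬ D (x (j + 1)) (x (j + 2)) < D (x (j + 2)) (x (j + 3)) := by
      intro j hj h1 h2
      have := hv j (j + 1) (j + 2) (j + 3) (by omega) (by omega) (by omega) (by omega)
      rw [if_neg h1, if_pos h2] at this
      omega
    by_cases hm : D (x t) (x (t + 1)) < D (x (t + 1)) (x (t + 2))
    · refine caseUp 0 (by omega) (fun j _ hj => ?_)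
      exact down_closed (u := fun j => D (x j) (x (j + 1)) < D (x (j + 1)) (x (j + 2))) (b := t)
        (fun j hj h1 => by
          by_contra h2
          exact hstep j (by omega) h2 h1) hm j (by omega)
    · refine caseDown t le_rfl (fun j h1 hj => ?_)
      have := up_closed (u := fun j => ¬ D (x j) (x (j + 1)) < D (x (j + 1)) (x (j + 2)))
        (a := t) (b := 2 * t - 1) (fun j _ hj h1 => hstep j (by omega) h1) hm j h1 (by omega)
      have := hne j (by omega)
      omega
  · have hstep : ∀ j, j + 1 < 2 * t → D (x j) (x (j + 1)) < D (x (j + 1)) (x (j + 2)) →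
        D (x (j + 1)) (x (j + 2)) < D (x (j + 2)) (x (j + 3)) := by
      intro j hj h1
      by_contra h2
      have := hv j (j + 1) (j + 2) (j + 3) (by omega) (by omega) (by omega) (by omega)
      rw [if_pos h1, if_neg h2] at this
      omega
    by_cases hm : D (x t) (x (t + 1)) < D (x (t + 1)) (x (t + 2))
    · refine caseUp t le_rfl (fun j h1 hj => ?_)
      exact up_closed (u := fun j => D (x j) (x (j + 1)) < D (x (j + 1)) (x (j + 2)))
        (a := t) (b := 2 * t - 1) (fun j _ hj h1 => hstep j (by omega) h1) hm j h1 (by omega)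
    · refine caseDown 0 (by omega) (fun j _ hj => ?_)
      have := down_closed (u := fun j => ¬ D (x j) (x (j + 1)) < D (x (j + 1)) (x (j + 2)))
        (b := t) (fun j hj h1 h2 => h1 (hstep j (by omega) h2)) hm j (by omega)
      have := hne j (by omega)
      omega

end Pool.Agent.MP_251804_lc

end

section

namespace Pool.Agent.MP_251804_lc
open Finset

def sh (q : ℕ) (x : ℕ → ℕ) : ℕ → ℕ := fun i => x (q + i)

/-- Proper colourings of shift graphs. -/
def SC (N s K : ℕ) : Prop :=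
  ∃ c : (ℕ → ℕ) → ℕ, Loc s c ∧ (∀ f, c f < K) ∧
    ∀ x, Inc (s + 1) x → (∀ i < s + 1, x i < N) → c x ≠ c (sh 1 x)

lemma Inc.sh {r q r' : ℕ} {x : ℕ → ℕ} (h : Inc r x) (hr : q + r' ≤ r) : Inc r' (sh q x) :=
  fun i j hij hj => h _ _ (by omega) (by omega)

lemma Inc.le {r r' : ℕ} {x : ℕ → ℕ} (h : Inc r x) (hr : r' ≤ r) : Inc r' x :=
  fun i j hij hj => h _ _ hij (by omega)

lemma sh_sh (a b : ℕ) (x : ℕ → ℕ) : sh a (sh b x) = sh (b + a) x := by
  funext i; simp [sh, add_assoc]

lemma sc_one {N : ℕ} (hN : 0 < N) : SC N 1 N := by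
  refine ⟨fun f => if f 0 < N then f 0 else 0, ?_, ?_, ?_⟩
  · intro f g h; simp only [h 0 (by omega)]
  · intro f; beta_reduce; split_ifs <;> omega
  · intro x hx hb
    have h0 := hb 0 (by omega)
    have h1 := hb 1 (by omega)
    have := hx 0 1 (by omega) (by omega)
    simp only [sh, add_zero, h0, h1, if_true]
    omega

lemma SC.mono {N s s' K K' : ℕ} (h : SC N s K) (hs : s ≤ s') (hK : K ≤ K') : SC N s' K' := by
  obtain ⟨c, h1, h2, h3⟩ := h
  exact ⟨c, fun f g h => h1 f g (fun i hi => h i (by omega)), fun f => (h2 f).trans_le hK,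
    fun x hx hb => h3 x (hx.le (by omega)) (fun i hi => hb i (by omega))⟩

lemma ex_bit {u v b : ℕ} (hu : u < 2 ^ b) (hv : v < 2 ^ b) (h : u ≠ v) :
    ∃ i < b, u.testBit i ≠ v.testBit i := by
  by_contra hn
  push Not at hn
  apply h
  apply Nat.eq_of_testBit_eq
  intro i
  rcases lt_or_ge i b with hi | hi
  · exact hn i hi
  · have : 2 ^ b ≤ 2 ^ i := Nat.pow_le_pow_right (by norm_num) hi
    rw [Nat.testBit_lt_two_pow (by omega), Nat.testBit_lt_two_pow (by omega)]

lemma SC.step {N s K b : ℕ} (h : SC N s K) (hK : K ≤ 2 ^ b) (hb : 0 < b) :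
    SC N (s + 1) (2 * b) := by
  classical
  obtain ⟨c, h1, h2, h3⟩ := h
  let g : ℕ → ℕ → ℕ := fun u v => if h : ∃ i < b, u.testBit i ≠ v.testBit i then
    2 * h.choose + (if u.testBit h.choose then 1 else 0) else 0
  have hg : ∀ u v, g u v < 2 * b := by
    intro u v
    simp only [g]
    split_ifs with h
    · have := h.choose_spec.1; omega
    · have := h.choose_spec.1; omega
    · omega
  have hg2 : ∀ u v w, u < 2 ^ b → v < 2 ^ b → w < 2 ^ b → u ≠ v → v ≠ w → g u v ≠ g v w := by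
    intro u v w hu hv hw huv hvw
    have e1 := ex_bit hu hv huv
    have e2 := ex_bit hv hw hvw
    simp only [g, dif_pos e1, dif_pos e2]
    intro e
    have q := e1.choose_spec.2
    have : e1.choose = e2.choose := by split_ifs at e <;> omega
    rw [this] at e q
    revert e q
    cases u.testBit e2.choose <;> cases v.testBit e2.choose <;> simp
  refine ⟨fun f => g (c f) (c (sh 1 f)), ?_, fun f => hg _ _, ?_⟩
  · intro f f' h
    simp only
    rw [h1 f f' (fun i hi => h i (by omega)), h1 (sh 1 f) (sh 1 f') (fun i hi => h _ (by omega))]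
  · intro x hx hb
    exact hg2 _ _ _ ((h2 _).trans_le hK) ((h2 _).trans_le hK) ((h2 _).trans_le hK)
      (h3 x (hx.le (by omega)) (fun i hi => hb i (by omega)))
      (h3 (sh 1 x) (hx.sh (by omega)) (fun i hi => hb _ (by omega)))

lemma SC.good {N l K : ℕ} (h : SC N l K) : Good N K l (l + 1) := by
  obtain ⟨c, h1, h2, h3⟩ := h
  refine good_of_seq c h1 h2 (fun x hx hb hm => h3 x hx hb ?_)
  exact hm id (fun i => 1 + i) (fun a b h _ => h) (fun a b h _ => by simpa using h)
    (fun i hi => by simp; omega) (fun i hi => by omega)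

def Pk (f : ℕ → ℕ) (j : ℕ) : Prop := f (j + 1) < f (j + 2) ∧ f (j + 3) < f (j + 2)

lemma exP (K : ℕ) (f : ℕ → ℕ) : ∃ j, Pk f j ∨ 2 * K ≤ j := ⟨2 * K, Or.inr le_rfl⟩

open Classical in
noncomputable def dd (K : ℕ) (f : ℕ → ℕ) : ℕ := Nat.find (exP K f)

open Classical in
noncomputable def st (K : ℕ) (f : ℕ → ℕ) : ℕ :=
  if dd K f % 2 = 1 then 1 else if f 0 < f 1 ∧ f 2 < f 1 then 2 else 0

lemma st_loc (K : ℕ) : Loc (2 * K + 3) (st K) := by
  classical
  intro f g h
  have : dd K f = dd K g := by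
    unfold dd
    apply Nat.find_congr' 
    intro j
    rcases lt_or_ge j (2 * K) with hj | hj
    · simp only [Pk, h (j + 1) (by omega), h (j + 2) (by omega), h (j + 3) (by omega)]
    · simp [hj]
  simp only [st, this, h 0 (by omega), h 1 (by omega), h 2 (by omega)]

lemma exists_peak {K : ℕ} {f : ℕ → ℕ} (hK : ∀ i, f i < K)
    (hne : ∀ i < 2 * K + 2, f i ≠ f (i + 1)) : ∃ j < 2 * K, Pk f j := by
  by_contra hn
  push Not at hn
  have hstep : ∀ j < 2 * K, f (j + 1) < f (j + 2) → f (j + 2) < f (j + 3) := by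
    intro j hj h
    have h1 := hn j hj
    have h2 := hne (j + 2) (by omega)
    simp only [Pk, not_and, not_lt] at h1
    have := h1 h
    have e : j + 2 + 1 = j + 3 := rfl
    rw [e] at h2
    omega
  by_cases hm : f (K + 1) < f (K + 2)
  · have : ∀ q ≤ K, q + 1 ≤ f (K + q + 2) ∧ f (K + q + 1) < f (K + q + 2) := by
      intro q
      induction q with
      | zero => intro _; simp only [add_zero]; omega
      | succ q ih =>
        intro hq
        obtain ⟨a, b⟩ := ih (by omega)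
        have := hstep (K + q) (by omega) b
        have e1 : K + (q + 1) + 2 = K + q + 3 := by omega
        have e2 : K + (q + 1) + 1 = K + q + 2 := by omega
        rw [e1, e2]
        omega
    have h1 := (this K le_rfl).1
    have := hK (K + K + 2)
    omega
  · have : ∀ q ≤ K, q + 1 ≤ f (K - q + 1) ∧ f (K - q + 2) < f (K - q + 1) := by
      intro q
      induction q with
      | zero =>
        intro _
        have := hne (K + 1) (by omega)
        have e : K + 1 + 1 = K + 2 := rfl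
        rw [e] at this
        simp only [Nat.sub_zero]; omega
      | succ q ih =>
        intro hq
        obtain ⟨a, b⟩ := ih (by omega)
        have h1 := hstep (K - (q + 1)) (by omega)
        have h2 := hne (K - (q + 1) + 1) (by omega)
        have e1 : K - (q + 1) + 2 = K - q + 1 := by omega
        have e2 : K - (q + 1) + 3 = K - q + 2 := by omega
        have e3 : K - (q + 1) + 1 + 1 = K - q + 1 := by omega
        rw [e1, e2] at h1
        rw [e3] at h2
        rw [e1]
        omega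
    have h1 := (this K le_rfl).1
    have := hK (K - K + 1)
    omega

def Arc (u v : ℕ) : Prop := (u = 0 ∧ v = 1) ∨ (u = 0 ∧ v = 2) ∨ (u = 2 ∧ v = 1) ∨ (u = 1 ∧ v = 0)

lemma Pk_sh (f : ℕ → ℕ) (j : ℕ) : Pk (sh 1 f) j ↔ Pk f (j + 1) := by
  have e1 : 1 + (j + 1) = j + 1 + 1 := by omega
  have e2 : 1 + (j + 2) = j + 1 + 2 := by omega
  have e3 : 1 + (j + 3) = j + 1 + 3 := by omega
  simp only [Pk, sh, e1, e2, e3]

lemma st_arc {K : ℕ} {f : ℕ → ℕ} (hK : ∀ i, f i < K)
    (hne : ∀ i < 2 * K + 2, f i ≠ f (i + 1)) : Arc (st K f) (st K (sh 1 f)) := by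
  classical
  obtain ⟨j, hj, hP⟩ := exists_peak hK hne
  have hle : dd K f ≤ j := Nat.find_min' _ (Or.inl hP)
  have hspec : Pk f (dd K f) := by
    rcases Nat.find_spec (exP K f) with h | h
    · exact h
    · exfalso; change 2 * K ≤ dd K f at h; omega
  have hE : (sh 1 f 0 < sh 1 f 1 ∧ sh 1 f 2 < sh 1 f 1) ↔ Pk f 0 := by simp [sh, Pk]
  rcases Nat.eq_zero_or_pos (dd K f) with h0 | h0
  · rw [h0] at hspec
    have h1 : ¬ (f 0 < f 1 ∧ f 2 < f 1) := by
      have := hspec.1; simp only [zero_add] at this; omega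
    have a : st K f = 0 := by simp only [st, h0, h1]; simp
    have b : st K (sh 1 f) = 1 ∨ st K (sh 1 f) = 2 := by
      simp only [st, hE, hspec, if_true]
      split_ifs <;> simp
    unfold Arc
    omega
  · have hn0 : ¬ Pk f 0 := fun h => by
      have : dd K f ≤ 0 := Nat.find_min' _ (Or.inl h)
      omega
    have hd : dd K (sh 1 f) = dd K f - 1 := by
      unfold dd
      rw [Nat.find_eq_iff]
      refine ⟨Or.inl ?_, fun n hn => ?_⟩
      · rw [Pk_sh]
        have : Nat.find (exP K f) - 1 + 1 = dd K f := by change dd K f - 1 + 1 = _; omega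
        rwa [this]
      · rw [Pk_sh]
        change n < dd K f - 1 at hn
        rintro (h | h)
        · have : dd K f ≤ n + 1 := Nat.find_min' _ (Or.inl h)
          omega
        · omega
    unfold Arc
    simp only [st, hE, hn0, hd, if_false]
    split_ifs <;> omega

def tb (u w : ℕ) : ℕ :=
  if u = 0 then (if w = 1 then 1 else 0) else if u = 1 then (if w = 1 then 0 else 1)
  else (if w = 0 then 0 else 1)

lemma tb_lt (u w : ℕ) : tb u w < 2 := by unfold tb; split_ifs <;> omega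

lemma tb_arc {u u' w w' : ℕ} (h1 : Arc u u') (h2 : Arc w w') (e1 : tb u w = tb u w')
    (e2 : tb u w' = tb u' w') : False := by
  rcases h1 with ⟨rfl, rfl⟩ | ⟨rfl, rfl⟩ | ⟨rfl, rfl⟩ | ⟨rfl, rfl⟩ <;>
  rcases h2 with ⟨rfl, rfl⟩ | ⟨rfl, rfl⟩ | ⟨rfl, rfl⟩ | ⟨rfl, rfl⟩ <;>
  simp [tb] at e1 e2

/-- Two colours suffice once the uniformity is large. -/
lemma SC.good_two {N s K l : ℕ} (h : SC N s K) (hl : 2 * (s + 2 * K + 2) ≤ l) :
    Good N 2 l (l + 1) := by
  obtain ⟨c, h1, h2, h3⟩ := h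
  set q := s + 2 * K + 2 with hq
  let u : (ℕ → ℕ) → ℕ := fun x => st K (fun j => c (sh j x))
  have uloc : Loc q u := by
    intro f g h
    apply st_loc K
    intro i hi
    exact h1 _ _ (fun j hj => h _ (by omega))
  have uarc : ∀ x, Inc (q + 1) x → (∀ i < q + 1, x i < N) → Arc (u x) (u (sh 1 x)) := by
    intro x hx hb
    have := st_arc (K := K) (f := fun j => c (sh j x)) (fun i => h2 _) (fun i hi => by
      have := h3 (sh i x) (hx.sh (by omega)) (fun j hj => hb _ (by omega))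
      rwa [sh_sh] at this)
    have e : sh 1 (fun j => c (sh j x)) = fun j => c (sh j (sh 1 x)) := by
      funext j; simp only [sh_sh]; rfl
    rw [e] at this
    exact this
  refine good_of_seq (fun x => tb (u x) (u (sh q x))) ?_ (fun f => tb_lt _ _) ?_
  · intro f g h
    simp only
    rw [uloc f g (fun i hi => h i (by omega)),
      uloc (sh q f) (sh q g) (fun i hi => h _ (by omega))]
  intro x hx hb hm
  let e : ℕ → ℕ := fun i => if i < q then i else i + 1
  have he : Inc l e := by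
    intro i j hij _
    simp only [e]; split_ifs <;> omega
  have heb : ∀ i < l, e i < l + 1 := by
    intro i hi
    simp only [e]; split_ifs <;> omega
  have m1 := hm id e (fun a b h _ => h) he (fun i hi => by simp; omega) heb
  have m2 := hm e (fun i => 1 + i) he (fun a b h _ => by simpa using h) heb
    (fun i hi => by omega)
  have a1 : u (x ∘ e) = u x := uloc _ _ (fun i hi => by simp [e, hi])
  have a2 : sh q (x ∘ e) = sh 1 (sh q x) := by
    funext i
    simp only [sh, e, Function.comp_apply]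
    rw [if_neg (by omega)]
    congr 1; omega
  have a3 : (x ∘ fun i => 1 + i) = sh 1 x := rfl
  have a4 : sh q (sh 1 x) = sh 1 (sh q x) := by rw [sh_sh, sh_sh, add_comm]
  simp only [Function.comp_id] at m1
  rw [a1, a2] at m1 m2
  rw [a3, a4] at m2
  exact tb_arc (uarc x (hx.le (by omega)) (fun i hi => hb i (by omega)))
    (uarc (sh q x) (hx.sh (by omega)) (fun i hi => hb _ (by omega))) m1 m2

end Pool.Agent.MP_251804_lc

end

section

namespace Pool.Agent.MP_251804_lc
open Finset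

lemma bound4 {Y z t k l r : ℕ} (h : ¬ Good (2 ^ 2 ^ Y) k l r) (hk : 2 ≤ k) (hl : 4 ≤ l)
    (hr : l < r) (hz : 2 * (Y + 1) ≤ 2 ^ z) (hz0 : 0 < z) (ht : 3 ≤ t) (hY : Y * t ≤ t.choose 3) :
    k < 2 * z ∧ l < 8 * z + 12 ∧ r < 2 * t + l := by
  have s1 : SC (2 ^ 2 ^ Y) 1 (2 ^ 2 ^ Y) := sc_one (by positivity)
  have s2 := s1.step le_rfl (by positivity)
  have s3 := s2.step (b := Y + 1) (by rw [pow_succ]; omega) (by omega)
  have s4 := s3.step hz hz0
  refine ⟨?_, ?_, ?_⟩
  · by_contra hc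
    exact h ((s4.mono hl le_rfl).good.mono le_rfl (by omega) hr)
  · by_contra hc
    exact h ((s4.good_two (l := l) (by omega)).mono le_rfl hk hr)
  · by_contra hc
    obtain ⟨q, rfl⟩ := Nat.exists_eq_add_of_le hl
    exact h (((good_pow ht hY).step4.lift_add q).mono le_rfl hk (by omega))

lemma bound3 {Y k r : ℕ} (h : ¬ Good (2 ^ 2 ^ Y) k 3 r) (hk : 4 ≤ k) (hr : 3 < r) :
    k * r < 35 * Y := by
  obtain ⟨t, rfl⟩ : ∃ t, r = t + 1 := ⟨r - 1, by omega⟩
  have g := (good_multi (a := k / 4) (t := t) (by omega) (by omega)).step3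
  have h1 : k / 4 * ((t - 1) / 2) < Y := by
    by_contra hc
    exact h (g.mono (Nat.pow_le_pow_right (by norm_num)
      (Nat.pow_le_pow_right (by norm_num) (by omega))) (by omega) le_rfl)
  have h2 : k ≤ 7 * (k / 4) := by omega
  have h3 : t + 1 ≤ 5 * ((t - 1) / 2) := by omega
  calc k * (t + 1) ≤ (7 * (k / 4)) * (5 * ((t - 1) / 2)) := Nat.mul_le_mul h2 h3
    _ = 35 * (k / 4 * ((t - 1) / 2)) := by ring
    _ < 35 * Y := by omega

lemma bound2 {x k r : ℕ} (h : ¬ Good (2 ^ x) k 2 r) (hk : 2 ≤ k) (hr : 2 < r) :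
    k * r < 12 * x := by
  have g := good_multi (a := k / 2) (t := r) (by omega) (by omega)
  have h1 : k / 2 * ((r - 1) / 2) < x := by
    by_contra hc
    exact h (g.mono (Nat.pow_le_pow_right (by norm_num) (by omega)) (by omega) le_rfl)
  have h2 : k ≤ 3 * (k / 2) := by omega
  have h3 : r ≤ 4 * ((r - 1) / 2) := by omega
  calc k * r ≤ (3 * (k / 2)) * (4 * ((r - 1) / 2)) := Nat.mul_le_mul h2 h3
    _ = 12 * (k / 2 * ((r - 1) / 2)) := by ring
    _ < 12 * x := by omega

lemma count_fiber (W : Finset ℕ) (g r : ℕ → ℕ) (B : ℕ → ℝ)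
    (hB : ∀ i ∈ W, 1 ≤ r i ∧ (r i : ℝ) ≤ B (g i))
    (inj : ∀ i ∈ W, ∀ i' ∈ W, g i = g i' → r i = r i' → i = i') :
    (W.card : ℝ) ≤ ∑ a ∈ W.image g, B a := by
  rw [card_eq_sum_card_image g W]
  push_cast
  refine sum_le_sum (fun a ha => ?_)
  obtain ⟨i₀, hi₀, rfl⟩ := mem_image.1 ha
  have h0 : 0 ≤ B (g i₀) := le_trans (by positivity) (hB i₀ hi₀).2
  refine le_trans ?_ (Nat.floor_le h0)
  have : (W.filter fun i => g i = g i₀).card ≤ (Icc 1 ⌊B (g i₀)⌋₊).card := by
    refine card_le_card_of_injOn r ?_ ?_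
    · intro i hi
      simp only [coe_filter, Set.mem_ofPred_eq] at hi
      have := hB i hi.1
      simp only [coe_Icc, Set.mem_Icc]
      exact ⟨this.1, Nat.le_floor (hi.2 ▸ this.2)⟩
    · intro i hi i' hi' e
      simp only [coe_filter, Set.mem_ofPred_eq] at hi hi'
      exact inj i hi.1 i' hi'.1 (hi.2.trans hi'.2.symm) e
  rw [Nat.card_Icc] at this
  exact_mod_cast this

lemma count_geom (W : Finset ℕ) (r : ℕ → ℕ) (u : ℕ → ℝ) (q M : ℝ) (hq0 : 0 < q) (hq1 : q < 1)
    (hM : 0 < M) (hr : ∀ i ∈ W, 1 ≤ r i) (hu : ∀ i ∈ W, 1 / M ≤ u i)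
    (hru : ∀ i ∈ W, r i * u i ≤ 1)
    (hdec : ∀ i ∈ W, ∀ i' ∈ W, i < i' → r i = r i' → u i' ≤ q * u i) :
    (W.card : ℝ) ≤ M / (1 - q) := by
  have hex : ∀ i, ∃ b : ℕ, i ∈ W → q ^ (b + 1) < r i * u i ∧ r i * u i ≤ q ^ b := by
    intro i
    by_cases hi : i ∈ W
    · have h1 : (0 : ℝ) < r i := by exact_mod_cast hr i hi
      have h2 : 0 < u i := lt_of_lt_of_le (by positivity) (hu i hi)
      obtain ⟨b, hb⟩ := exists_nat_pow_near_of_lt_one (mul_pos h1 h2) (hru i hi) hq0 hq1
      exact ⟨b, fun _ => hb⟩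
    · exact ⟨0, fun h => absurd h hi⟩
  choose g hg using hex
  have key : ∀ i ∈ W, ∀ i' ∈ W, i < i' → g i = g i' → r i = r i' → False := by
    intro i hi i' hi' hlt e1 e2
    have h1 := hdec i hi i' hi' hlt e2
    have h2 := (hg i hi).2
    have h3 := (hg i' hi').1
    rw [← e1, ← e2, pow_succ] at h3
    have h4 : (0 : ℝ) ≤ r i := by positivity
    nlinarith [mul_le_mul_of_nonneg_left h1 h4, mul_le_mul_of_nonneg_left h2 hq0.le]
  refine (count_fiber W g r (fun b => M * q ^ b) (fun i hi => ⟨hr i hi, ?_⟩) ?_).trans ?_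
  · have h1 := (hg i hi).2
    have h2 := hu i hi
    rw [div_le_iff₀ hM] at h2
    have h4 : (0 : ℝ) ≤ r i := by positivity
    nlinarith [mul_le_mul_of_nonneg_left h2 h4, mul_le_mul_of_nonneg_left h1 hM.le]
  · intro i hi i' hi' e1 e2
    rcases lt_trichotomy i i' with h | h | h
    · exact (key i hi i' hi' h e1 e2).elim
    · exact h
    · exact (key i' hi' i hi h e1.symm e2.symm).elim
  · rw [← mul_sum, div_eq_mul_inv, ← tsum_geometric_of_lt_one hq0.le hq1]
    exact mul_le_mul_of_nonneg_left ((summable_geometric_of_lt_one hq0.le hq1).sum_le_tsum _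
      (fun _ _ => by positivity)) hM.le

/-- The facts available at scale `i`. -/
def Data (ε : ℝ) (lam i k l r : ℕ) : Prop :=
  (∀ y : ℕ, (1 - ε) * 2 ^ (lam * i) ≤ y → ¬ Good (2 ^ y) k l r) ∧
  Good (2 ^ 2 ^ (lam * (i - 1))) k l r ∧ l < r ∧
  (l = 2 → ∀ j, 2 ^ (lam * i) < i * j → Good (2 ^ 2 ^ (lam * i)) (k + j) 2 r)

lemma Data.not_good {ε : ℝ} {lam i k l r y : ℕ} (h : Data ε lam i k l r) (hε : 0 < ε)
    (hy : lam * i ≤ y) : ¬ Good (2 ^ 2 ^ y) k l r := by
  refine h.1 _ ?_
  have h1 : (2 : ℝ) ^ (lam * i) ≤ 2 ^ y := pow_le_pow_right₀ (by norm_num) hy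
  have h2 : (0 : ℝ) < 2 ^ (lam * i) := by positivity
  push_cast
  nlinarith

lemma Data.inj {ε : ℝ} {lam i i' k l r : ℕ} (h : Data ε lam i k l r) (h' : Data ε lam i' k l r)
    (hε : 0 < ε) : i = i' := by
  rcases lt_trichotomy i i' with h1 | h1 | h1
  · exact (h.not_good hε (Nat.mul_le_mul_left _ (by omega)) h'.2.1).elim
  · exact h1
  · exact (h'.not_good hε (Nat.mul_le_mul_left _ (by omega)) h.2.1).elim

lemma count4 {ε : ℝ} (hε : 0 < ε) {lam Y z t : ℕ} (W : Finset ℕ) (k l r : ℕ → ℕ)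
    (hW : ∀ i ∈ W, lam * i ≤ Y ∧ Data ε lam i (k i) (l i) (r i) ∧ 2 ≤ k i ∧ 4 ≤ l i)
    (hz : 2 * (Y + 1) ≤ 2 ^ z) (hz0 : 0 < z) (ht : 3 ≤ t) (hY : Y * t ≤ t.choose 3) :
    W.card ≤ 2 * z * ((8 * z + 12) * (2 * t + 8 * z + 12)) := by
  have : W.card ≤ (range (2 * z) ×ˢ (range (8 * z + 12) ×ˢ range (2 * t + 8 * z + 12))).card := by
    refine card_le_card_of_injOn (fun i => (k i, l i, r i)) ?_ ?_
    · intro i hi
      obtain ⟨h1, h2, h3, h4⟩ := hW i hi
      have := bound4 (h2.not_good hε h1) h3 h4 h2.2.2.1 hz hz0 ht hY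
      simp only [coe_product, coe_range, Set.mem_prod, Set.mem_Iio]
      omega
    · intro i hi i' hi' e
      simp only [Prod.mk.injEq] at e
      have h1 := (hW i hi).2.1
      have h2 := (hW i' hi').2.1
      rw [← e.1, ← e.2.1, ← e.2.2] at h2
      exact h1.inj h2 hε
  simpa using this

lemma count3 {ε c : ℝ} (hε : 0 < ε) (hc : c < 1 / 4) {lam Y : ℕ} (K : Set ℕ)
    (hK : ∀ F : Finset ℕ, (F : Set ℕ) ⊆ K → ∑ a ∈ F, 1 / (a : ℝ) ≤ c)
    (W : Finset ℕ) (k r : ℕ → ℕ)
    (hW : ∀ i ∈ W, lam * i ≤ Y ∧ Data ε lam i (k i) 3 (r i) ∧ 2 ≤ k i ∧ k i ∈ K) :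
    (W.card : ℝ) ≤ 35 * Y * c := by
  refine (count_fiber W k r (fun a => 35 * Y * (1 / a)) (fun i hi => ?_) ?_).trans ?_
  · obtain ⟨h1, h2, h3, h4⟩ := hW i hi
    have h5 := hK {k i} (by simpa using h4)
    rw [sum_singleton] at h5
    have hk0 : (0 : ℝ) < k i := by exact_mod_cast (by omega : 0 < k i)
    have h6 : 4 ≤ k i := by
      have : 1 / (k i : ℝ) < 1 / 4 := h5.trans_lt hc
      rw [div_lt_div_iff₀ hk0 (by norm_num)] at this
      have : (4 : ℝ) < k i := by linarith
      exact_mod_cast this.le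
    have h7 := bound3 (h2.not_good hε h1) h6 h2.2.2.1
    refine ⟨by have := h2.2.2.1; omega, ?_⟩
    rw [mul_one_div, le_div_iff₀ hk0]
    have : ((k i * r i : ℕ) : ℝ) ≤ ((35 * Y : ℕ) : ℝ) := by exact_mod_cast h7.le
    push_cast at this
    linarith
  · intro i hi i' hi' e1 e2
    have h1 := (hW i hi).2.1
    have h2 := (hW i' hi').2.1
    rw [← e1, ← e2] at h2
    exact h1.inj h2 hε
  · rw [← mul_sum]
    refine mul_le_mul_of_nonneg_left (hK _ ?_) (by positivity)
    intro a ha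
    obtain ⟨i, hi, rfl⟩ := mem_image.1 (mem_coe.1 ha)
    exact (hW i hi).2.2.2

lemma count2 {ε : ℝ} (hε : 0 < ε) (hε2 : ε < 1 / 2) {lam I : ℕ} (hlam : 4 / ε ≤ 2 ^ lam)
    (hI : 0 < I) (W : Finset ℕ) (k r : ℕ → ℕ)
    (hW : ∀ i ∈ W, I ≤ i ∧ Data ε lam i (k i) 2 (r i) ∧ 2 ≤ k i ∧
      100 / ε * 2 ^ (lam * i) / I ≤ k i) :
    (W.card : ℝ) ≤ I / 4 := by
  have hIR : (0 : ℝ) < I := by exact_mod_cast hI
  have hlam0 : 0 < lam := by
    rcases Nat.eq_zero_or_pos lam with h | h
    · rw [h, pow_zero, div_le_iff₀ hε] at hlam; linarith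
    · exact h
  have := count_geom W r (fun i => k i / (12 * 2 ^ (lam * i))) (1 - ε / 2) (12 * ε * I / 100)
    (by linarith) (by linarith) (by positivity) (fun i hi => ?_) (fun i hi => ?_)
    (fun i hi => ?_) (fun i hi i' hi' hlt e => ?_)
  · refine this.trans ?_
    rw [div_le_iff₀ (by linarith)]
    nlinarith [mul_pos hε hIR]
  · have := (hW i hi).2.1.2.2.1; omega
  · obtain ⟨h1, h2, h3, h4⟩ := hW i hi
    rw [le_div_iff₀ (by positivity)]
    refine le_trans (le_of_eq ?_) h4
    field_simp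
  · obtain ⟨h1, h2, h3, h4⟩ := hW i hi
    have h5 := bound2 (h2.not_good hε le_rfl) h3 h2.2.2.1
    have : ((k i * r i : ℕ) : ℝ) ≤ ((12 * 2 ^ (lam * i) : ℕ) : ℝ) := by exact_mod_cast h5.le
    push_cast at this
    rw [← mul_div_assoc, div_le_one (by positivity)]
    linarith
  · obtain ⟨h1, h2, h3, h4⟩ := hW i hi
    obtain ⟨h1', h2', h3', h4'⟩ := hW i' hi'
    rw [← e] at h2'
    set x : ℕ := 2 ^ (lam * i) with hx
    set x' : ℕ := 2 ^ (lam * i') with hx'
    have hxR : (2 : ℝ) ^ (lam * i) = x := by rw [hx]; push_cast; rfl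
    have hxR' : (2 : ℝ) ^ (lam * i') = x' := by rw [hx']; push_cast; rfl
    have hi0 : 0 < i := by omega
    have hix : i ≤ x := by
      have : i ≤ lam * i := Nat.le_mul_of_pos_left _ hlam0
      exact this.trans (Nat.lt_two_pow_self).le
    have hj := h2.2.2.2 rfl (x / i + 1) (by
      have := Nat.div_add_mod x i
      have := Nat.mod_lt x hi0
      rw [mul_add]; omega)
    set a := k i + (x / i + 1) with ha
    have ha0 : 0 < a := Nat.add_pos_right _ (Nat.succ_pos _)
    have hx0 : (0 : ℝ) < x := by rw [← hxR]; positivity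
    have hx0' : (0 : ℝ) < x' := by rw [← hxR']; positivity
    have hxx : 4 / ε * x ≤ x' := by
      rw [← hxR, ← hxR']
      have : lam + lam * i ≤ lam * i' := by nlinarith
      calc 4 / ε * 2 ^ (lam * i) ≤ 2 ^ lam * 2 ^ (lam * i) := by gcongr
        _ = 2 ^ (lam + lam * i) := by rw [pow_add]
        _ ≤ _ := pow_le_pow_right₀ (by norm_num) this
    have haR : (a : ℝ) ≤ (1 + ε / 4) * k i := by
      have e1 : ((x / i : ℕ) : ℝ) ≤ x / I := by
        refine Nat.cast_div_le.trans ?_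
        have : (I : ℝ) ≤ i := by exact_mod_cast h1
        gcongr
      have e2 : (1 : ℝ) ≤ x / I := by
        rw [le_div_iff₀ hIR, one_mul]; exact_mod_cast h1.trans hix
      rw [hxR, mul_div_assoc, div_mul_eq_mul_div, div_le_iff₀ hε] at h4
      rw [ha]; push_cast
      nlinarith
    have ht : ((k i' / a : ℕ) : ℝ) * x < (1 - ε) * x' := by
      rcases Nat.eq_zero_or_pos (k i' / a) with h0 | h0
      · rw [h0]; simp only [Nat.cast_zero, zero_mul]; exact mul_pos (by linarith) hx0'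
      obtain ⟨t, ht⟩ : ∃ t, k i' / a = t + 1 := ⟨k i' / a - 1, by omega⟩
      by_contra hc
      push Not at hc
      have g := hj.pow t
      rw [← pow_mul] at g
      refine h2'.1 (x * (t + 1)) ?_ (g.mono le_rfl ?_ le_rfl)
      · rw [hxR']; rw [ht] at hc; push_cast at hc ⊢; linarith
      · rw [← ht]; exact Nat.mul_div_le _ _
    have hk' : (k i' : ℝ) ≤ a * ((k i' / a : ℕ) + 1) := by
      have := Nat.div_add_mod (k i') a
      have := Nat.mod_lt (k i') ha0
      have : k i' ≤ a * (k i' / a + 1) := by rw [mul_add]; omega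
      exact_mod_cast this
    simp only [hxR, hxR']
    rw [← mul_div_assoc, div_le_div_iff₀ (by positivity) (by positivity)]
    have hx4 : (x : ℝ) ≤ ε / 4 * x' := by
      rw [div_mul_eq_mul_div, div_le_iff₀ hε] at hxx; linarith
    have hk0 : (0 : ℝ) ≤ k i := by positivity
    have haR0 : (0 : ℝ) ≤ a := by positivity
    have s1 : (k i' : ℝ) * x ≤ a * ((1 - 3 * ε / 4) * x') := by
      calc (k i' : ℝ) * x ≤ a * ((k i' / a : ℕ) + 1) * x := by gcongr
        _ = a * ((k i' / a : ℕ) * x + x) := by ring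
        _ ≤ _ := by gcongr; linarith
    have s2 : (a : ℝ) * ((1 - 3 * ε / 4) * x') ≤ (1 + ε / 4) * k i * ((1 - 3 * ε / 4) * x') :=
      mul_le_mul_of_nonneg_right haR (mul_nonneg (by linarith) hx0'.le)
    have s3 : (1 + ε / 4) * (1 - 3 * ε / 4) ≤ 1 - ε / 2 := by nlinarith
    have s4 := mul_le_mul_of_nonneg_right s3 (mul_nonneg hk0 hx0'.le)
    nlinarith

end Pool.Agent.MP_251804_lc

end

section

namespace Pool.Agent.MP_251804_lc
open Finset

lemma sum_cube_succ {d : ℕ} (F : (Fin (d + 1) → Bool) → ℝ) :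
    ∑ x, F x = ∑ y : Fin d → Bool, F (Fin.cons false y) + ∑ y : Fin d → Bool, F (Fin.cons true y) := by
  rw [← (Fin.consEquiv (fun _ : Fin (d + 1) => Bool)).sum_comp, Fintype.sum_prod_type,
    Fintype.sum_bool, add_comm]
  rfl

lemma ham_cons {d : ℕ} (a b : Bool) (x y : Fin d → Bool) :
    hammingDist (Fin.cons a x : Fin (d + 1) → Bool) (Fin.cons b y) =
      hammingDist x y + if a = b then 0 else 1 := by
  simp only [hammingDist, card_eq_sum_ones, sum_filter, Fin.sum_univ_succ, Fin.cons_zero,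
    Fin.cons_succ]
  by_cases h : a = b <;> simp [h, add_comm]

lemma poincare (d : ℕ) : ∀ f : (Fin d → Bool) → ℝ,
    (∀ x y, f x - f y ≤ hammingDist x y) →
      2 ^ d * ∑ x, f x ^ 2 - (∑ x, f x) ^ 2 ≤ d * 4 ^ d / 4 := by
  induction d with
  | zero => intro f _; simp
  | succ d ih =>
    intro f hf
    have h0 := ih (fun y => f (Fin.cons false y)) (fun x y => by
      have := hf (Fin.cons false x) (Fin.cons false y)
      rw [ham_cons] at this; simpa using this)
    have h1 := ih (fun y => f (Fin.cons true y)) (fun x y => by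
      have := hf (Fin.cons true x) (Fin.cons true y)
      rw [ham_cons] at this; simpa using this)
    rw [sum_cube_succ (fun x => f x ^ 2), sum_cube_succ f]
    have hd1 : ∑ y : Fin d → Bool, f (Fin.cons false y) - ∑ y : Fin d → Bool, f (Fin.cons true y)
        ≤ 2 ^ d := by
      rw [← sum_sub_distrib]
      refine (sum_le_card_nsmul _ _ 1 (fun y _ => ?_)).trans (by simp)
      have := hf (Fin.cons false y) (Fin.cons true y)
      rw [ham_cons] at this; simpa using this
    have hd2 : ∑ y : Fin d → Bool, f (Fin.cons true y) - ∑ y : Fin d → Bool, f (Fin.cons false y)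
        ≤ 2 ^ d := by
      rw [← sum_sub_distrib]
      refine (sum_le_card_nsmul _ _ 1 (fun y _ => ?_)).trans (by simp)
      have := hf (Fin.cons true y) (Fin.cons false y)
      rw [ham_cons] at this; simpa using this
    generalize ∑ y : Fin d → Bool, f (Fin.cons false y) = S0 at *
    generalize ∑ y : Fin d → Bool, f (Fin.cons true y) = S1 at *
    generalize ∑ y : Fin d → Bool, f (Fin.cons false y) ^ 2 = Q0 at *
    generalize ∑ y : Fin d → Bool, f (Fin.cons true y) ^ 2 = Q1 at *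
    have h4 : (4 : ℝ) ^ d = 2 ^ d * 2 ^ d := by rw [← mul_pow]; norm_num
    have hsq : (S0 - S1) ^ 2 ≤ 2 ^ d * 2 ^ d := by
      rw [← sq]; exact sq_le_sq' (by linarith) hd1
    push_cast
    rw [pow_succ (2 : ℝ) d, pow_succ (4 : ℝ) d, h4]
    rw [h4] at h0 h1
    nlinarith

lemma ham_not {d : ℕ} (x y : Fin d → Bool) :
    hammingDist (fun i => !x i) y + hammingDist x y = d := by
  simp only [hammingDist]
  have : (univ.filter fun i => (!x i) ≠ y i) = univ.filter fun i => ¬ (x i ≠ y i) := by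
    ext i; cases x i <;> cases y i <;> simp
  rw [this, add_comm, card_filter_add_card_filter_not]
  simp

lemma ham_tri {d : ℕ} (x y z : Fin d → Bool) :
    hammingDist x y + hammingDist y z + hammingDist x z ≤ 2 * d := by
  simp only [hammingDist, card_eq_sum_ones, sum_filter, ← sum_add_distrib]
  refine (sum_le_card_nsmul _ _ 2 (fun i _ => ?_)).trans (by simp [mul_comm])
  cases x i <;> cases y i <;> cases z i <;> simp

lemma indep_small {d : ℕ} (A : Finset (Fin d → Bool))
    (hA : ∀ x ∈ A, ∀ y ∈ A, 3 * hammingDist x y ≤ 2 * d) : A.card * d ≤ 9 * 2 ^ d := by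
  classical
  rcases A.eq_empty_or_nonempty with rfl | hne
  · simp
  rcases Nat.eq_zero_or_pos d with rfl | hd
  · simp
  let f : (Fin d → Bool) → ℝ := fun x => ((A.inf' hne fun a => hammingDist x a : ℕ) : ℝ)
  have hlip : ∀ x y, f x - f y ≤ hammingDist x y := by
    intro x y
    obtain ⟨a, ha, e⟩ := exists_mem_eq_inf' hne (fun a => hammingDist y a)
    have h1 : (A.inf' hne fun a => hammingDist x a) ≤ hammingDist x a := inf'_le _ ha
    have h2 := hammingDist_triangle x y a
    simp only [f, e]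
    have : ((A.inf' hne fun a => hammingDist x a : ℕ) : ℝ) ≤ hammingDist x y + hammingDist y a := by
      exact_mod_cast h1.trans h2
    linarith
  have hP := poincare d f hlip
  have hA0 : ∀ x ∈ A, f x = 0 := by
    intro x hx
    have h1 : (A.inf' hne fun a => hammingDist x a) ≤ hammingDist x x := inf'_le _ hx
    simp only [hammingDist_self, nonpos_iff_eq_zero] at h1
    simp only [f, h1, Nat.cast_zero]
  have hB : ∀ x ∈ A, (d : ℝ) / 3 ≤ f (fun i => !x i) := by
    intro x hx
    obtain ⟨a, ha, e⟩ := exists_mem_eq_inf' hne (fun a => hammingDist (fun i => !x i) a)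
    simp only [f, e]
    have h1 := ham_not x a
    have h2 := hA x hx a ha
    have : d ≤ 3 * hammingDist (fun i => !x i) a := by omega
    have : (d : ℝ) ≤ 3 * hammingDist (fun i => !x i) a := by exact_mod_cast this
    linarith
  set S := ∑ x, f x with hS
  set μ : ℝ := S / 2 ^ d with hμ
  have h2d : (0 : ℝ) < 2 ^ d := by positivity
  have hvar : ∑ x, (f x - μ) ^ 2 ≤ d * 2 ^ d / 4 := by
    have e : ∑ x, (f x - μ) ^ 2 = ∑ x, f x ^ 2 - 2 * μ * S + 2 ^ d * μ ^ 2 := by
      simp only [sub_sq, sum_add_distrib, sum_sub_distrib, sum_const, card_univ, Fintype.card_pi,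
        Fintype.card_bool, prod_const, Fintype.card_fin, nsmul_eq_mul, hS, mul_sum]
      push_cast
      congr 2
      exact sum_congr rfl (fun x _ => by ring)
    have hSμ : S = μ * 2 ^ d := by rw [hμ]; field_simp
    have h4 : (4 : ℝ) ^ d = 2 ^ d * 2 ^ d := by rw [← mul_pow]; norm_num
    rw [e]
    rw [h4, hSμ] at hP
    rw [hSμ]
    have : 2 ^ d * (∑ x, f x ^ 2 - 2 * μ * (μ * 2 ^ d) + 2 ^ d * μ ^ 2) ≤
        2 ^ d * (d * 2 ^ d / 4) := by nlinarith
    exact le_of_mul_le_mul_left this h2d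
  have hdR : (0 : ℝ) < d := by exact_mod_cast hd
  have hlow : (A.card : ℝ) * (d / 6) ^ 2 ≤ ∑ x, (f x - μ) ^ 2 := by
    rcases le_total ((d : ℝ) / 6) μ with h | h
    · refine le_trans ?_ (sum_le_sum_of_subset_of_nonneg (subset_univ A) (fun _ _ _ => sq_nonneg _))
      rw [← nsmul_eq_mul]
      refine card_nsmul_le_sum _ _ _ (fun x hx => ?_)
      rw [hA0 x hx]
      nlinarith
    · have hinj : Function.Injective (fun (x : Fin d → Bool) i => !x i) := by
        intro x y h; funext i; simpa using congrFun h i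
      refine le_trans ?_ (sum_le_sum_of_subset_of_nonneg
        (subset_univ (A.image (fun x i => !x i))) (fun _ _ _ => sq_nonneg _))
      rw [← nsmul_eq_mul, ← card_image_of_injective A hinj]
      refine card_nsmul_le_sum _ _ _ (fun y hy => ?_)
      obtain ⟨x, hx, rfl⟩ := mem_image.1 hy
      have := hB x hx
      nlinarith
  have : (A.card : ℝ) * d ≤ 9 * 2 ^ d := by
    have h := hlow.trans hvar
    have : d * ((A.card : ℝ) * d) ≤ d * (9 * 2 ^ d) := by nlinarith
    exact le_of_mul_le_mul_left this hdR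
  exact_mod_cast this

lemma count_maps {V : Type} [Fintype V] [DecidableEq V] (Ind : Finset V → Prop)
    [DecidablePred Ind] {n s : ℕ} (ρ : ℝ) (hρ : 0 ≤ ρ)
    (hInd : ∀ A, Ind A → (A.card : ℝ) ≤ ρ * Fintype.card V) (hs : Fintype.card V ≤ s)
    (S : Finset (Fin n)) (hS : S.card = s) :
    ((univ.filter fun φ : Fin n → V => Ind (S.image φ)).card : ℝ) ≤
      (2 * ρ) ^ s * (Fintype.card V : ℝ) ^ n := by
  have hsub : (univ.filter fun φ : Fin n → V => Ind (S.image φ)) ⊆
      (univ.filter Ind).biUnion fun A => Fintype.piFinset fun i => if i ∈ S then A else univ := by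
    intro φ hφ
    refine mem_biUnion.2 ⟨S.image φ, by simpa using hφ, Fintype.mem_piFinset.2 fun i => ?_⟩
    split_ifs with h
    · exact mem_image_of_mem _ h
    · exact mem_univ _
  have hsn : s ≤ n := by simpa [hS] using card_le_univ S
  have h1 : ∀ A ∈ univ.filter Ind,
      ((Fintype.piFinset fun i : Fin n => if i ∈ S then A else univ).card : ℝ) ≤
        ρ ^ s * (Fintype.card V : ℝ) ^ n := by
    intro A hA
    have hA' := hInd A (by simpa using hA)
    rw [Fintype.card_piFinset]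
    simp only [apply_ite card, card_univ]
    rw [prod_ite, prod_const, prod_const, filter_mem_eq_inter, univ_inter, hS]
    have : (univ.filter fun i => i ∉ S).card = n - s := by
      rw [filter_not, filter_mem_eq_inter, univ_inter, card_univ_sdiff, Fintype.card_fin, hS]
    rw [this]
    obtain ⟨q, rfl⟩ := Nat.exists_eq_add_of_le hsn
    rw [Nat.add_sub_cancel_left, pow_add, ← mul_assoc, ← mul_pow]
    push_cast
    gcongr
  have h2 : ((univ.filter Ind).card : ℝ) ≤ 2 ^ s := by
    have := card_le_univ (univ.filter Ind)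
    rw [Fintype.card_finset] at this
    exact_mod_cast this.trans (Nat.pow_le_pow_right (by norm_num) hs)
  calc _ ≤ ((∑ A ∈ univ.filter Ind,
        (Fintype.piFinset fun i : Fin n => if i ∈ S then A else univ).card : ℕ) : ℝ) := by
        exact_mod_cast (card_le_card hsub).trans card_biUnion_le
    _ ≤ (univ.filter Ind).card • (ρ ^ s * (Fintype.card V : ℝ) ^ n) := by
        push_cast; exact sum_le_card_nsmul _ _ _ h1
    _ ≤ _ := by
        rw [nsmul_eq_mul, mul_pow, mul_assoc]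
        gcongr

lemma cover_step {V : Type} [Fintype V] [DecidableEq V] [Nonempty V] (Ind : Finset V → Prop)
    [DecidablePred Ind] {n : ℕ} (β : ℝ) (F : Finset (Finset (Fin n)))
    (h : ∀ S ∈ F, ((univ.filter fun φ : Fin n → V => Ind (S.image φ)).card : ℝ) ≤
      β * (Fintype.card V : ℝ) ^ n) :
    ∃ φ : Fin n → V, ((F.filter fun S => Ind (S.image φ)).card : ℝ) ≤ F.card * β := by
  have : ∑ φ : Fin n → V, ((F.filter fun S => Ind (S.image φ)).card : ℝ) ≤
      ∑ _φ : Fin n → V, F.card * β := by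
    have e : ∑ φ : Fin n → V, ((F.filter fun S => Ind (S.image φ)).card : ℝ) =
        ∑ S ∈ F, ((univ.filter fun φ : Fin n → V => Ind (S.image φ)).card : ℝ) := by
      simp only [card_eq_sum_ones, sum_filter]
      push_cast
      exact sum_comm
    rw [e]
    refine (sum_le_card_nsmul _ _ _ h).trans (le_of_eq ?_)
    simp
    ring
  obtain ⟨φ, -, hφ⟩ := exists_le_of_sum_le univ_nonempty this
  exact ⟨φ, hφ⟩

lemma cover_iter {V : Type} [Fintype V] [DecidableEq V] [Nonempty V] (Ind : Finset V → Prop)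
    [DecidablePred Ind] {n : ℕ} (β : ℝ) (hβ : 0 ≤ β) (F : Finset (Finset (Fin n)))
    (h : ∀ S ∈ F, ((univ.filter fun φ : Fin n → V => Ind (S.image φ)).card : ℝ) ≤
      β * (Fintype.card V : ℝ) ^ n) (j : ℕ) :
    ∃ Φ : ℕ → Fin n → V,
      ((F.filter fun S => ∀ t < j, Ind (S.image (Φ t))).card : ℝ) ≤ F.card * β ^ j := by
  induction j with
  | zero => exact ⟨fun _ _ => Classical.arbitrary V, by simp⟩
  | succ j ih =>
    obtain ⟨Φ, hΦ⟩ := ih
    obtain ⟨φ, hφ⟩ := cover_step Ind β (F.filter fun S => ∀ t < j, Ind (S.image (Φ t)))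
      (fun S hS => h S (mem_filter.1 hS).1)
    refine ⟨fun t => if t < j then Φ t else φ, le_trans (le_of_eq ?_) (hφ.trans ?_)⟩
    · rw [filter_filter]
      congr 2
      ext S
      simp only [mem_filter, and_congr_right_iff]
      intro _
      constructor
      · intro H
        refine ⟨fun t ht => ?_, ?_⟩
        · simpa [ht] using H t (by omega)
        · simpa using H j (by omega)
      · rintro ⟨H1, H2⟩ t ht
        split_ifs with h'
        · exact H1 t h'
        · exact H2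
    · rw [pow_succ, ← mul_assoc]
      gcongr

lemma exists_cover {n w d j i : ℕ} (hd : 18 * 2 ^ i ≤ d) (hb : 2 ^ d ≤ w + 1)
    (hj : n < 2 ^ (i * j)) : ∃ H : ℕ → ℕ → ℕ → Prop, (∀ t a b, H t a b → H t b a) ∧
      (∀ t a b c, H t a b → H t b c → H t a c → False) ∧
      ∀ S : Finset ℕ, S ⊆ range n → S.card = w + 1 →
        ∃ a ∈ S, ∃ b ∈ S, a ≠ b ∧ ∃ t < j, H t a b := by
  classical
  let Ind : Finset (Fin d → Bool) → Prop := fun A => ∀ x ∈ A, ∀ y ∈ A, 3 * hammingDist x y ≤ 2 * d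
  have hd0 : 0 < d := lt_of_lt_of_le (by positivity) hd
  have hdR : (0 : ℝ) < d := by exact_mod_cast hd0
  have hcard : Fintype.card (Fin d → Bool) = 2 ^ d := by simp
  obtain ⟨Φ, hΦ⟩ := cover_iter Ind (n := n) ((2 * (9 / d : ℝ)) ^ (w + 1)) (by positivity)
    (powersetCard (w + 1) univ) (fun S hS => count_maps Ind (9 / d : ℝ) (by positivity)
      (fun A hA => by
        have := indep_small A hA
        have h2 : (A.card : ℝ) * d ≤ 9 * 2 ^ d := by exact_mod_cast this
        rw [hcard, div_mul_eq_mul_div, le_div_iff₀ hdR]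
        exact_mod_cast h2) (hcard ▸ hb) S (mem_powersetCard.1 hS).2) j
  have hlt : ((powersetCard (w + 1) (univ : Finset (Fin n))).card : ℝ) *
      ((2 * (9 / d : ℝ)) ^ (w + 1)) ^ j < 1 := by
    rw [card_powersetCard, card_univ, Fintype.card_fin]
    have h1 : ((n.choose (w + 1) : ℕ) : ℝ) ≤ (n : ℝ) ^ (w + 1) := by
      exact_mod_cast Nat.choose_le_pow n (w + 1)
    have h2 : 2 * (9 / d : ℝ) ≤ 1 / 2 ^ i := by
      have : (18 * 2 ^ i : ℝ) ≤ d := by exact_mod_cast hd
      rw [← mul_div_assoc, div_le_div_iff₀ hdR (by positivity)]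
      linarith
    have h3 : (n : ℝ) * (1 / 2 ^ i) ^ j < 1 := by
      have : (n : ℝ) < 2 ^ (i * j) := by exact_mod_cast hj
      rw [one_div, inv_pow, ← pow_mul, ← div_eq_mul_inv, div_lt_one (by positivity)]
      exact this
    calc _ ≤ (n : ℝ) ^ (w + 1) * ((1 / 2 ^ i) ^ (w + 1)) ^ j := by gcongr
      _ = ((n : ℝ) * (1 / 2 ^ i) ^ j) ^ (w + 1) := by
        rw [mul_pow, ← pow_mul, ← pow_mul, mul_comm j]
      _ < 1 := pow_lt_one₀ (by positivity) h3 (by omega)
  have hemp := card_eq_zero.1 (Nat.lt_one_iff.1 (Nat.cast_lt_one.1 (hΦ.trans_lt hlt) ▸ one_pos))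
  replace hemp := (@filter_eq_empty_iff _ _ (_) _).1 hemp
  let ψ : ℕ → ℕ → Fin d → Bool := fun t a => if h : a < n then Φ t ⟨a, h⟩ else fun _ => false
  refine ⟨fun t a b => 2 * d < 3 * hammingDist (ψ t a) (ψ t b), ?_, ?_, ?_⟩
  · intro t a b h; rwa [hammingDist_comm]
  · intro t a b c h1 h2 h3
    have := ham_tri (ψ t a) (ψ t b) (ψ t c)
    omega
  · intro S hS hc
    have hlt' : ∀ m ∈ S, m < n := fun m hm => mem_range.1 (hS hm)
    have h1 := hemp (x := S.attachFin hlt')
      (mem_powersetCard.2 ⟨subset_univ _, by rw [card_attachFin, hc]⟩)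
    simp only [Ind, not_forall, not_le] at h1
    obtain ⟨t, ht, x, hx, y, hy, hxy⟩ := h1
    obtain ⟨a, ha, rfl⟩ := mem_image.1 hx
    obtain ⟨b, hb', rfl⟩ := mem_image.1 hy
    rw [mem_attachFin] at ha hb'
    refine ⟨a, ha, b, hb', ?_, t, ht, ?_⟩
    · intro e
      rw [Fin.ext e, hammingDist_self] at hxy
      omega
    · simpa [ψ] using hxy

end Pool.Agent.MP_251804_lc

end

section

namespace Pool.Agent.MP_251804_lc
open Finset Filter

lemma two_pow_rpow (x : ℕ) (e : ℝ) : ((2 ^ x : ℕ) : ℝ) ^ e = (2 : ℝ) ^ ((x : ℝ) * e) := by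
  push_cast
  rw [Real.rpow_mul (by norm_num), Real.rpow_natCast]

lemma data_of {ε : ℝ} (hε : 0 < ε) (hε2 : ε < 1 / 2) {lam i k l r : ℕ} (hlam : 4 / ε ≤ 2 ^ lam)
    (hlam4 : 4 ≤ lam) (hi : 3 ≤ i) (n : ℕ) (hn : n = 2 ^ 2 ^ (lam * i))
    (hl : (l : ℝ) ≤ (n : ℝ) ^ ε) (h1 : ¬ Good ⌊(n : ℝ) ^ (1 - ε)⌋₊ k l r)
    (h2 : CertAt n ⌊(n : ℝ) ^ ε⌋₊ k l r) : Data ε lam i k l r := by
  have hwn : ⌊(n : ℝ) ^ ε⌋₊ ≤ n := by
    apply Nat.floor_le_of_le
    have : (1 : ℝ) ≤ n := by rw [hn]; exact_mod_cast Nat.one_le_two_pow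
    calc (n : ℝ) ^ ε ≤ (n : ℝ) ^ (1 : ℝ) := Real.rpow_le_rpow_of_exponent_le this (by linarith)
      _ = n := Real.rpow_one _
  have hw : 2 ^ 2 ^ (lam * (i - 1)) ≤ ⌊(n : ℝ) ^ ε⌋₊ := by
    apply Nat.le_floor
    rw [hn, two_pow_rpow, ← Real.rpow_one ((2 ^ 2 ^ (lam * (i - 1)) : ℕ) : ℝ), two_pow_rpow]
    apply Real.rpow_le_rpow_of_exponent_le (by norm_num)
    have e : lam * i = lam * (i - 1) + lam := by
      obtain ⟨j, rfl⟩ : ∃ j, i = j + 1 := ⟨i - 1, by omega⟩
      simp [mul_add]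
    rw [e]
    push_cast
    rw [pow_add, mul_assoc]
    rw [div_le_iff₀ hε] at hlam
    gcongr
    linarith
  have hw0 : 0 < ⌊(n : ℝ) ^ ε⌋₊ := lt_of_lt_of_le (by positivity) hw
  have hg := h2.good hwn hw0
  have hlr := hg.lt_of_le (Nat.le_floor hl)
  refine ⟨fun y hy hc => h1 (hc.mono ?_ le_rfl le_rfl), hg.mono hw le_rfl le_rfl, hlr, ?_⟩
  · apply Nat.floor_le_of_le
    rw [hn, two_pow_rpow, ← Real.rpow_one ((2 ^ y : ℕ) : ℝ), two_pow_rpow]
    apply Real.rpow_le_rpow_of_exponent_le (by norm_num)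
    push_cast
    linarith
  · rintro rfl j hj
    obtain ⟨H, a1, a2, a3⟩ := exists_cover (n := n) (w := ⌊(n : ℝ) ^ ε⌋₊)
      (d := 2 ^ (lam * (i - 1))) (j := j) (i := i) (by
        have : 5 + i ≤ lam * (i - 1) := by
          have : 4 * (i - 1) ≤ lam * (i - 1) := Nat.mul_le_mul_right _ hlam4
          omega
        calc 18 * 2 ^ i ≤ 2 ^ (5 + i) := by rw [pow_add]; omega
          _ ≤ _ := Nat.pow_le_pow_right (by norm_num) this) (by omega)
      (by rw [hn]; exact Nat.pow_lt_pow_right (by norm_num) hj)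
    rw [← hn]
    exact h2.good_cover (by omega) H a1 a2 a3

lemma choose_three_ge {Y T : ℕ} (h : 6 * Y ≤ T * T) : Y * (T + 2) ≤ (T + 2).choose 3 := by
  have h1 := Nat.descFactorial_eq_factorial_mul_choose (T + 2) 3
  simp only [Nat.descFactorial, Nat.factorial] at h1
  simp only [Nat.add_sub_cancel, Nat.sub_zero, mul_one, Nat.add_one_sub_one] at h1
  have : T + 2 - 1 = T + 1 := by omega
  nlinarith

lemma ev_poly (A : ℕ) : ∀ᶠ p : ℕ in atTop, A * (p + 1) ^ 2 < 2 ^ p := by
  have h := (tendsto_pow_const_div_const_pow_of_one_lt 2 (r := 2) (by norm_num)).eventually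
    (gt_mem_nhds (show (0 : ℝ) < 1 / (4 * A + 1) by positivity))
  filter_upwards [h, eventually_ge_atTop 1] with p hp h1
  rw [div_lt_div_iff₀ (by positivity) (by positivity)] at hp
  have h2 : p ^ 2 * (4 * A + 1) < 1 * 2 ^ p := by exact_mod_cast hp
  have h3 : (p + 1) ^ 2 ≤ 4 * p ^ 2 := by nlinarith
  nlinarith [Nat.mul_le_mul_left A h3]

lemma count4' {ε : ℝ} (hε : 0 < ε) {lam p : ℕ} (hlam : 4 ≤ lam)
    (hp : 160 * (lam + 4) ^ 2 * (28 * lam + 84) * (p + 1) ^ 2 < 2 ^ p) (W : Finset ℕ)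
    (k l r : ℕ → ℕ)
    (hW : ∀ i ∈ W, i ≤ 2 * 4 ^ p ∧ Data ε lam i (k i) (l i) (r i) ∧ 2 ≤ k i ∧ 4 ≤ l i) :
    4 * W.card ≤ 4 ^ p := by
  have h4 : 4 ^ p = 2 ^ p * 2 ^ p := by rw [← mul_pow]; norm_num
  have hP : p + 1 ≤ 2 ^ p := Nat.lt_two_pow_self
  have hL : lam + 1 ≤ 2 ^ lam := Nat.lt_two_pow_self
  have := count4 hε (lam := lam) (Y := lam * (2 * 4 ^ p)) (z := 2 * p + lam + 2)
    (t := 4 * lam * 2 ^ p + 2) W k l r
    (fun i hi => ⟨Nat.mul_le_mul_left _ (hW i hi).1, (hW i hi).2⟩) (by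
      rw [pow_add, pow_add, pow_mul]
      have : 0 < 4 ^ p := by positivity
      norm_num
      nlinarith) (by omega) (by nlinarith) (choose_three_ge (by rw [h4]; nlinarith))
  set z := 2 * p + lam + 2 with hz
  have z1 : z ≤ (lam + 4) * (p + 1) := by rw [hz]; nlinarith
  have z2 : 8 * z + 12 ≤ 20 * ((lam + 4) * (p + 1)) := by nlinarith
  have z3 : 2 * (4 * lam * 2 ^ p + 2) + 8 * z + 12 ≤ (28 * lam + 84) * 2 ^ p := by
    have : (lam + 4) * (p + 1) ≤ (lam + 4) * 2 ^ p := Nat.mul_le_mul_left _ hP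
    nlinarith
  calc 4 * W.card ≤ 4 * (2 * ((lam + 4) * (p + 1)) *
        (20 * ((lam + 4) * (p + 1)) * ((28 * lam + 84) * 2 ^ p))) := by
        refine Nat.mul_le_mul_left _ (this.trans ?_)
        gcongr
    _ = (160 * (lam + 4) ^ 2 * (28 * lam + 84) * (p + 1) ^ 2) * 2 ^ p := by ring
    _ ≤ 4 ^ p := by rw [h4]; exact Nat.mul_le_mul_right _ hp.le

lemma colours_ge {ε : ℝ} (hε : 0 < ε) {lam i I : ℕ} (hlam : 4 ≤ lam) (hI : 0 < I) (h1 : I ≤ i)
    (h2 : i ≤ 2 * I) (n : ℕ) (hn : n = 2 ^ 2 ^ (lam * i)) :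
    100 / ε * 2 ^ (lam * i) / I ≤ 200 * lam / ε * Real.log n / Real.log (Real.log n) := by
  have hl2 : (0 : ℝ) < Real.log 2 := Real.log_pos (by norm_num)
  have hl2' : Real.log 2 < 1 := by have := Real.log_two_lt_d9; linarith
  have hl3 : (1 : ℝ) / 2 < Real.log 2 := by have := Real.log_two_gt_d9; linarith
  have hlog : Real.log n = 2 ^ (lam * i) * Real.log 2 := by
    rw [hn]; push_cast; rw [Real.log_pow]; push_cast; rfl
  have hx : (4 : ℝ) ≤ 2 ^ (lam * i) := by
    have : 2 ≤ lam * i := by nlinarith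
    calc (4 : ℝ) = 2 ^ 2 := by norm_num
      _ ≤ _ := pow_le_pow_right₀ (by norm_num) this
  have hpos : 0 < Real.log (Real.log n) := Real.log_pos (by rw [hlog]; nlinarith)
  have hup : Real.log (Real.log n) ≤ 2 * lam * I * Real.log 2 := by
    calc Real.log (Real.log n) ≤ Real.log (2 ^ (lam * i)) := by
          apply Real.log_le_log (by rw [hlog]; positivity)
          rw [hlog]; nlinarith
      _ = lam * i * Real.log 2 := by rw [Real.log_pow]; push_cast; ring
      _ ≤ _ := by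
          have : (i : ℝ) ≤ 2 * I := by exact_mod_cast h2
          have : (lam : ℝ) * i ≤ 2 * lam * I := by nlinarith [Nat.cast_nonneg (α := ℝ) lam]
          gcongr
  have hIR : (0 : ℝ) < I := by exact_mod_cast hI
  have hlR : (0 : ℝ) < lam := by exact_mod_cast (by omega : 0 < lam)
  calc 100 / ε * 2 ^ (lam * i) / I
      = 200 * lam / ε * Real.log n / (2 * lam * I * Real.log 2) := by
        rw [hlog]; field_simp; ring
    _ ≤ _ := by
        apply div_le_div_of_nonneg_left _ hpos hup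
        rw [hlog]; positivity

theorem main (ε : ℝ) (hε : 0 < ε) (hε2 : ε < 1 / 2) : ∃ C c : ℝ, 0 < c ∧
    ∀ K : Set ℕ, (∀ F : Finset ℕ, (F : Set ℕ) ⊆ K → ∑ a ∈ F, 1 / (a : ℝ) ≤ c) →
      ∀ k l : ℕ → ℕ, (∀ n, 2 ≤ k n) → (∀ n, 2 ≤ l n) →
        (∀ᶠ n : ℕ in atTop, (l n : ℝ) ≤ (n : ℝ) ^ ε) → Complete ε k l →
          ∃ᶠ n : ℕ in atTop,
            (l n = 2 ∧ (k n : ℝ) < C * Real.log n / Real.log (Real.log n)) ∨
              (l n = 3 ∧ k n ∉ K) := by
  classical
  obtain ⟨lam₀, hlam₀⟩ := pow_unbounded_of_one_lt (4 / ε) (y := (2 : ℝ)) (by norm_num)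
  set lam := lam₀ + 4 with hlamdef
  have hlam4 : 4 ≤ lam := by omega
  have hlam : 4 / ε ≤ 2 ^ lam := hlam₀.le.trans (pow_le_pow_right₀ (by norm_num) (by omega))
  have hlR : (4 : ℝ) ≤ lam := by exact_mod_cast hlam4
  refine ⟨200 * lam / ε, 1 / (300 * lam), by positivity, fun K hK k l hk hl2 hl hC => ?_⟩
  by_contra hfreq
  rw [not_frequently] at hfreq
  obtain ⟨n₀, hn₀⟩ := eventually_atTop.1 ((hC.eventually hk).and (hl.and hfreq))
  obtain ⟨p, hp, hp0, hp1⟩ := ((ev_poly (160 * (lam + 4) ^ 2 * (28 * lam + 84))).and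
    ((eventually_ge_atTop n₀).and (eventually_ge_atTop 1))).exists
  set I := 4 ^ p with hI
  have hIp : p ≤ I := (Nat.lt_pow_self (by norm_num)).le
  have hI4 : 4 ≤ I := by
    calc 4 = 4 ^ 1 := by norm_num
      _ ≤ _ := Nat.pow_le_pow_right (by norm_num) hp1
  let N : ℕ → ℕ := fun i => 2 ^ 2 ^ (lam * i)
  have hN : ∀ i, I ≤ i → n₀ ≤ N i := by
    intro i hi
    have a1 : i ≤ lam * i := Nat.le_mul_of_pos_left _ (by omega)
    have a2 : lam * i < 2 ^ (lam * i) := Nat.lt_two_pow_self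
    have a3 : 2 ^ (lam * i) < 2 ^ 2 ^ (lam * i) := Nat.lt_two_pow_self
    simp only [N]; omega
  have hex : ∀ i, ∃ r, I ≤ i → Data ε lam i (k (N i)) (l (N i)) r := by
    intro i
    by_cases hi : I ≤ i
    · obtain ⟨⟨r, h1, h2⟩, h3, -⟩ := hn₀ (N i) (hN i hi)
      exact ⟨r, fun _ => data_of hε hε2 hlam hlam4 (by omega) (N i) rfl h3 h1 h2⟩
    · exact ⟨0, fun h => absurd h hi⟩
  choose r hr using hex
  have c4 := count4' hε hlam4 hp ((Ico I (2 * I)).filter fun i => 4 ≤ l (N i))
    (fun i => k (N i)) (fun i => l (N i)) r (fun i hi => by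
      simp only [mem_filter, mem_Ico] at hi
      exact ⟨by omega, hr i hi.1.1, hk _, hi.2⟩)
  have c3 := count3 hε (c := 1 / (300 * lam)) (by
      rw [div_lt_div_iff₀ (by positivity) (by norm_num)]; linarith) (lam := lam)
    (Y := lam * (2 * I)) K hK ((Ico I (2 * I)).filter fun i => l (N i) = 3)
    (fun i => k (N i)) r (fun i hi => by
      simp only [mem_filter, mem_Ico] at hi
      refine ⟨Nat.mul_le_mul_left _ (by omega), hi.2 ▸ hr i hi.1.1, hk _, ?_⟩
      by_contra hn
      exact (hn₀ (N i) (hN i hi.1.1)).2.2 (Or.inr ⟨hi.2, hn⟩))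
  have c2 := count2 hε hε2 hlam (I := I) (by omega)
    ((Ico I (2 * I)).filter fun i => l (N i) = 2) (fun i => k (N i)) r (fun i hi => by
      simp only [mem_filter, mem_Ico] at hi
      refine ⟨hi.1.1, hi.2 ▸ hr i hi.1.1, hk _, ?_⟩
      refine (colours_ge hε hlam4 (by omega) hi.1.1 (by omega) (N i) rfl).trans ?_
      by_contra hn
      exact (hn₀ (N i) (hN i hi.1.1)).2.2 (Or.inl ⟨hi.2, not_le.1 hn⟩))
  have hsub : Ico I (2 * I) ⊆ ((Ico I (2 * I)).filter fun i => 4 ≤ l (N i)) ∪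
      (((Ico I (2 * I)).filter fun i => l (N i) = 3) ∪
        ((Ico I (2 * I)).filter fun i => l (N i) = 2)) := by
    intro i hi
    have := hl2 (N i)
    simp only [mem_union, mem_filter, hi, true_and]
    omega
  have h1 := (card_le_card hsub).trans ((card_union_le _ _).trans
    (Nat.add_le_add_left (card_union_le _ _) _))
  rw [Nat.card_Ico] at h1
  have h2 : 2 * I - I = I := by omega
  rw [h2] at h1
  have e3 : (35 : ℝ) * ((lam * (2 * I) : ℕ) : ℝ) * (1 / (300 * lam)) = 7 / 30 * I := by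
    push_cast; field_simp; ring
  rw [e3] at c3
  have c4R : (4 : ℝ) * ((Ico I (2 * I)).filter fun i => 4 ≤ l (N i)).card ≤ I := by
    exact_mod_cast c4
  have h1R : (I : ℝ) ≤ ((Ico I (2 * I)).filter fun i => 4 ≤ l (N i)).card +
      (((Ico I (2 * I)).filter fun i => l (N i) = 3).card +
        ((Ico I (2 * I)).filter fun i => l (N i) = 2).card) := by exact_mod_cast h1
  have hIR : (4 : ℝ) ≤ I := by exact_mod_cast hI4
  linarith

end Pool.Agent.MP_251804_lc

end
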