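import Pool.Agent.MP_251804_lc.Defs

section

namespace Pool.Agent.MP_251804_lc
open Finset

def MonoN (l : ℕ) (c : Finset ℕ → ℕ) (S : Finset ℕ) : Prop :=
  ∀ T₁ T₂ : Finset ℕ, T₁ ⊆ S → T₂ ⊆ S → T₁.card = l → T₂.card = l → c T₁ = c T₂

def Good (N k l r : ℕ) : Prop :=
  ∃ c : Finset ℕ → ℕ, (∀ T, c T < k) ∧
    ∀ S : Finset ℕ, S ⊆ range N → S.card = r → ¬ MonoN l c S

lemma MonoN.subset {l : ℕ} {c : Finset ℕ → ℕ} {S S' : Finset ℕ} (h : MonoN l c S)
    (hs : S' ⊆ S) : MonoN l c S' :=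
  fun T₁ T₂ h1 h2 => h T₁ T₂ (h1.trans hs) (h2.trans hs)

lemma Good.mono {N N' k k' l r r' : ℕ} (h : Good N k l r) (hN : N' ≤ N) (hk : k ≤ k')
    (hr : r ≤ r') : Good N' k' l r' := by
  obtain ⟨c, hc, h⟩ := h
  refine ⟨c, fun T => (hc T).trans_le hk, fun S hS hcard hm => ?_⟩
  obtain ⟨S', hS', hc'⟩ := Finset.exists_subset_card_eq (s := S) (n := r) (by omega)
  exact h S' (hS'.trans (hS.trans (range_subset_range.2 hN))) hc' (hm.subset hS')

lemma Good.lt_of_le {N k l r : ℕ} (h : Good N k l r) (hl : l ≤ N) : l < r := by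
  by_contra hr
  push Not at hr
  obtain ⟨c, -, h⟩ := h
  refine h (range r) (range_subset_range.2 (by omega)) (card_range r) ?_
  intro T₁ T₂ h1 h2 c1 c2
  have e1 : T₁ = range r := Finset.eq_of_subset_of_card_le h1 (by rw [card_range]; omega)
  have e2 : T₂ = range r := Finset.eq_of_subset_of_card_le h2 (by rw [card_range]; omega)
  rw [e1, e2]

lemma good_of_lt {N k l r : ℕ} (hk : 0 < k) (h : N < r) : Good N k l r := by
  refine ⟨fun _ => 0, fun _ => hk, fun S hS hc _ => ?_⟩
  have := card_le_card hS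
  rw [card_range] at this
  omega

def Inc (r : ℕ) (x : ℕ → ℕ) : Prop := ∀ i j, i < j → j < r → x i < x j

def Loc (l : ℕ) (c : (ℕ → ℕ) → ℕ) : Prop := ∀ f g : ℕ → ℕ, (∀ i < l, f i = g i) → c f = c g

noncomputable def enum (T : Finset ℕ) (i : ℕ) : ℕ :=
  if h : i < T.card then T.orderEmbOfFin rfl ⟨i, h⟩ else 0

lemma enum_mem {T : Finset ℕ} {i : ℕ} (h : i < T.card) : enum T i ∈ T := by
  simp [enum, h]

lemma enum_inc (T : Finset ℕ) : Inc T.card (enum T) := by
  intro i j hij hj
  have hi : i < T.card := by omega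
  simp only [enum, hi, hj, dif_pos]
  exact (T.orderEmbOfFin rfl).strictMono (by exact hij)

lemma Inc.injOn {r : ℕ} {x : ℕ → ℕ} (h : Inc r x) : Set.InjOn x (range r : Finset ℕ) := by
  intro i hi j hj hij
  simp only [coe_range, Set.mem_Iio] at hi hj
  rcases lt_trichotomy i j with h1 | h1 | h1
  · have := h i j h1 hj; omega
  · exact h1
  · have := h j i h1 hi; omega

lemma Inc.card_image {r : ℕ} {x : ℕ → ℕ} (h : Inc r x) : (image x (range r)).card = r := by
  rw [card_image_of_injOn h.injOn, card_range]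

lemma enum_image {l : ℕ} {f : ℕ → ℕ} (hf : Inc l f) (i : ℕ) (hi : i < l) :
    enum (image f (range l)) i = f i := by
  have hc := hf.card_image
  have h1 : (fun j : Fin l => f j) = (image f (range l)).orderEmbOfFin hc := by
    apply Finset.orderEmbOfFin_unique
    · intro j; exact mem_image_of_mem _ (mem_range.2 j.2)
    · intro a b hab; exact hf a b hab b.2
  have h2 : i < (image f (range l)).card := by omega
  simp only [enum, h2, dif_pos]
  have h3 := congrFun h1 ⟨i, hi⟩
  simp only at h3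
  rw [h3]
  exact Finset.orderEmbOfFin_eq_orderEmbOfFin_iff.2 rfl

lemma image_enum (T : Finset ℕ) : image (enum T) (range T.card) = T := by
  apply Finset.eq_of_subset_of_card_le
  · intro a ha
    obtain ⟨i, hi, rfl⟩ := mem_image.1 ha
    exact enum_mem (mem_range.1 hi)
  · rw [(enum_inc T).card_image]

lemma Inc.comp {r l : ℕ} {x e : ℕ → ℕ} (hx : Inc r x) (he : Inc l e) (hb : ∀ i < l, e i < r) :
    Inc l (x ∘ e) := fun i j hij hj => hx _ _ (he i j hij hj) (hb j hj)

lemma good_of_seq {N k l r : ℕ} (c : (ℕ → ℕ) → ℕ) (hloc : Loc l c) (hk : ∀ f, c f < k)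
    (h : ∀ x, Inc r x → (∀ i < r, x i < N) →
      (∀ e₁ e₂, Inc l e₁ → Inc l e₂ → (∀ i < l, e₁ i < r) → (∀ i < l, e₂ i < r) →
        c (x ∘ e₁) = c (x ∘ e₂)) → False) : Good N k l r := by
  refine ⟨fun T => c (enum T), fun T => hk _, fun S hS hc hm => ?_⟩
  have hx : Inc r (enum S) := hc ▸ enum_inc S
  have hmem : ∀ i < r, enum S i ∈ S := fun i hi => enum_mem (by omega)
  refine h (enum S) hx (fun i hi => mem_range.1 (hS (hmem i hi))) ?_
  have key : ∀ e, Inc l e → (∀ i < l, e i < r) →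
      image (enum S ∘ e) (range l) ⊆ S ∧ (image (enum S ∘ e) (range l)).card = l ∧
        c (enum (image (enum S ∘ e) (range l))) = c (enum S ∘ e) := by
    intro e he hb
    refine ⟨?_, (hx.comp he hb).card_image, hloc _ _ (enum_image (hx.comp he hb))⟩
    intro a ha
    obtain ⟨i, hi, rfl⟩ := mem_image.1 ha
    exact hmem _ (hb i (mem_range.1 hi))
  intro e₁ e₂ h1 h2 b1 b2
  obtain ⟨s1, c1, q1⟩ := key e₁ h1 b1
  obtain ⟨s2, c2, q2⟩ := key e₂ h2 b2
  rw [← q1, ← q2]
  exact hm _ _ s1 s2 c1 c2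

lemma not_seq {N l r : ℕ} {c : Finset ℕ → ℕ}
    (h : ∀ S : Finset ℕ, S ⊆ range N → S.card = r → ¬ MonoN l c S)
    (y : ℕ → ℕ) (hy : Set.InjOn y (range r : Finset ℕ)) (hb : ∀ i < r, y i < N) (v : ℕ)
    (hv : ∀ e, Inc l e → (∀ i < l, e i < r) → c (image (y ∘ e) (range l)) = v) : False := by
  refine h (image y (range r)) ?_ (by rw [card_image_of_injOn hy, card_range]) ?_
  · intro a ha
    obtain ⟨i, hi, rfl⟩ := mem_image.1 ha
    exact mem_range.2 (hb i (mem_range.1 hi))
  have key : ∀ T ⊆ image y (range r), T.card = l → c T = v := by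
    intro T hT hc
    obtain ⟨U, hU, rfl⟩ := subset_image_iff.1 hT
    rw [card_image_of_injOn (hy.mono (by exact_mod_cast hU))] at hc
    have := hv (enum U) (hc ▸ enum_inc U)
      (fun i hi => mem_range.1 (hU (enum_mem (by omega))))
    rw [← image_image, ← hc, image_enum] at this
    exact this
  intro T₁ T₂ h1 h2 c1 c2
  rw [key T₁ h1 c1, key T₂ h2 c2]

lemma Good.seq2 {N k r : ℕ} (h : Good N k 2 r) : ∃ c : ℕ → ℕ → ℕ, (∀ a b, c a b < k) ∧
    ∀ y : ℕ → ℕ, Set.InjOn y (range r : Finset ℕ) → (∀ i < r, y i < N) → ∀ v,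
      (∀ i j, i < j → j < r → c (y i) (y j) = v) → False := by
  obtain ⟨c, hc, h⟩ := h
  refine ⟨fun a b => c {a, b}, fun a b => hc _, fun y hy hb v hv => ?_⟩
  refine not_seq h y hy hb v (fun e he hb' => ?_)
  have := hv (e 0) (e 1) (he 0 1 (by omega) (by omega)) (hb' 1 (by omega))
  rw [← this]
  congr 1
  ext a
  simp [range_add_one, or_comm]

lemma Good.seq3 {N k r : ℕ} (h : Good N k 3 r) : ∃ c : ℕ → ℕ → ℕ → ℕ, (∀ a b d, c a b d < k) ∧
    ∀ y : ℕ → ℕ, Set.InjOn y (range r : Finset ℕ) → (∀ i < r, y i < N) → ∀ v,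
      (∀ i j t, i < j → j < t → t < r → c (y i) (y j) (y t) = v) → False := by
  obtain ⟨c, hc, h⟩ := h
  refine ⟨fun a b d => c {a, b, d}, fun a b d => hc _, fun y hy hb v hv => ?_⟩
  refine not_seq h y hy hb v (fun e he hb' => ?_)
  have := hv (e 0) (e 1) (e 2) (he 0 1 (by omega) (by omega)) (he 1 2 (by omega) (by omega))
    (hb' 2 (by omega))
  rw [← this]
  congr 1
  ext a
  simp only [range_add_one, range_zero, image_insert, Function.comp_apply, mem_insert,
    mem_singleton, insert_empty_eq, image_singleton]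
  tauto

def tup (a b c d : ℕ) (i : ℕ) : ℕ := if i = 0 then a else if i = 1 then b else if i = 2 then c else d

lemma good2_of {N k r : ℕ} (c : ℕ → ℕ → ℕ) (hk : ∀ a b, c a b < k)
    (h : ∀ x, Inc r x → (∀ i < r, x i < N) → ∀ v,
      (∀ i j, i < j → j < r → c (x i) (x j) = v) → False) : Good N k 2 r := by
  refine good_of_seq (fun f => c (f 0) (f 1)) ?_ (fun f => hk _ _) ?_
  · intro f g hfg
    simp only [hfg 0 (by omega), hfg 1 (by omega)]
  intro x hx hb hm
  refine h x hx hb (c (x 0) (x 1)) (fun i j hij hj => ?_)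
  have := hm (tup i j 0 0) id ?_ (fun a b h _ => h) ?_ (fun a ha => by simp; omega)
  · simpa [tup] using this
  · intro a b hab hb
    obtain rfl : a = 0 := by omega
    obtain rfl : b = 1 := by omega
    simpa [tup] using hij
  · intro a ha
    interval_cases a <;> simp [tup] <;> omega

lemma good3_of {N k r : ℕ} (c : ℕ → ℕ → ℕ → ℕ) (hk : ∀ a b d, c a b d < k)
    (h : ∀ x, Inc r x → (∀ i < r, x i < N) → ∀ v,
      (∀ i j t, i < j → j < t → t < r → c (x i) (x j) (x t) = v) → False) : Good N k 3 r := by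
  refine good_of_seq (fun f => c (f 0) (f 1) (f 2)) ?_ (fun f => hk _ _ _) ?_
  · intro f g hfg
    simp only [hfg 0 (by omega), hfg 1 (by omega), hfg 2 (by omega)]
  intro x hx hb hm
  refine h x hx hb (c (x 0) (x 1) (x 2)) (fun i j t hij hjt ht => ?_)
  have := hm (tup i j t 0) id ?_ (fun a b h _ => h) ?_ (fun a ha => by simp; omega)
  · simpa [tup] using this
  · intro a b hab hb
    interval_cases b <;> interval_cases a <;> simp [tup] <;> omega
  · intro a ha
    interval_cases a <;> simp [tup] <;> omega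

lemma good4_of {N k r : ℕ} (c : ℕ → ℕ → ℕ → ℕ → ℕ) (hk : ∀ a b d e, c a b d e < k)
    (h : ∀ x, Inc r x → (∀ i < r, x i < N) → ∀ v,
      (∀ i j t u, i < j → j < t → t < u → u < r → c (x i) (x j) (x t) (x u) = v) → False) :
    Good N k 4 r := by
  refine good_of_seq (fun f => c (f 0) (f 1) (f 2) (f 3)) ?_ (fun f => hk _ _ _ _) ?_
  · intro f g hfg
    simp only [hfg 0 (by omega), hfg 1 (by omega), hfg 2 (by omega), hfg 3 (by omega)]
  intro x hx hb hm
  refine h x hx hb (c (x 0) (x 1) (x 2) (x 3)) (fun i j t u hij hjt htu hu => ?_)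
  have := hm (tup i j t u) id ?_ (fun a b h _ => h) ?_ (fun a ha => by simp; omega)
  · simpa [tup] using this
  · intro a b hab hb
    interval_cases b <;> interval_cases a <;> simp [tup] <;> omega
  · intro a ha
    interval_cases a <;> simp [tup] <;> omega

end Pool.Agent.MP_251804_lc

end

section

namespace Pool.Agent.MP_251804_lc
open Finset

/-- Counting. -/
lemma good_count {N l r : ℕ} (h : N.choose r * 2 < 2 ^ (r.choose l)) : Good N 2 l r := by
  classical
  set U := powersetCard l (range N) with hU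
  have hbad : ((powersetCard r (range N)).biUnion (fun S =>
      Icc (powersetCard l S) U ∪ powerset (U \ powersetCard l S))).card < (powerset U).card := by
    rcases lt_or_ge N r with hN | hN
    · rw [powersetCard_eq_empty.2 (by rw [card_range]; exact hN)]
      simp
    have hle : r.choose l ≤ U.card := by
      rw [hU, card_powersetCard, card_range]
      exact Nat.choose_le_choose l hN
    refine lt_of_le_of_lt card_biUnion_le ?_
    have : ∀ S ∈ powersetCard r (range N),
        (Icc (powersetCard l S) U ∪ powerset (U \ powersetCard l S)).card ≤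
          2 * 2 ^ (U.card - r.choose l) := by
      intro S hS
      obtain ⟨h1, h2⟩ := mem_powersetCard.1 hS
      have hsub : powersetCard l S ⊆ U := powersetCard_mono h1
      refine (card_union_le _ _).trans ?_
      rw [card_Icc_finset hsub, card_powerset, card_sdiff_of_subset hsub, card_powersetCard l S,
        h2]
      omega
    refine lt_of_le_of_lt (sum_le_card_nsmul _ _ _ this) ?_
    rw [card_powersetCard, card_range, card_powerset, smul_eq_mul]
    obtain ⟨q, hq⟩ := Nat.exists_eq_add_of_le hle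
    rw [hq, Nat.add_sub_cancel_left, pow_add, ← mul_assoc]
    exact Nat.mul_lt_mul_of_pos_right h (by positivity)
  obtain ⟨F, hF, hnot⟩ := exists_mem_notMem_of_card_lt_card hbad
  refine ⟨fun T => if T ∈ F then 1 else 0, fun T => by beta_reduce; split_ifs <;> omega, ?_⟩
  intro S hS hc hm
  apply hnot
  refine mem_biUnion.2 ⟨S, mem_powersetCard.2 ⟨hS, hc⟩, ?_⟩
  rw [mem_powerset] at hF
  by_cases hex : ∃ T ∈ powersetCard l S, T ∈ F
  · obtain ⟨T, hT, hTF⟩ := hex
    refine mem_union_left _ (mem_Icc.2 ⟨fun T' hT' => ?_, hF⟩)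
    obtain ⟨a1, a2⟩ := mem_powersetCard.1 hT
    obtain ⟨b1, b2⟩ := mem_powersetCard.1 hT'
    have := hm T T' a1 b1 a2 b2
    simp only [hTF, if_true] at this
    by_contra hn
    simp [hn] at this
  · push Not at hex
    refine mem_union_right _ (mem_powerset.2 fun T hT => mem_sdiff.2 ⟨hF hT, fun h' => ?_⟩)
    exact hex T h' hT

lemma good_pow {y l r : ℕ} (hr : 3 ≤ r) (h : y * r ≤ r.choose l) : Good (2 ^ y) 2 l r := by
  apply good_count
  have h1 : (2 ^ y).choose r * r.factorial ≤ (2 ^ y) ^ r := by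
    rw [mul_comm, ← Nat.descFactorial_eq_factorial_mul_choose]
    exact Nat.descFactorial_le_pow _ _
  have h2 : 6 ≤ r.factorial := by
    have := Nat.factorial_le hr
    simpa [Nat.factorial] using this
  have h3 : (2 ^ y) ^ r ≤ 2 ^ (r.choose l) := by
    rw [← pow_mul]; exact Nat.pow_le_pow_right (by norm_num) h
  have h4 : 0 < 2 ^ (r.choose l) := by positivity
  nlinarith

lemma good_erdos {t : ℕ} (ht : 3 ≤ t) : Good (2 ^ ((t - 1) / 2)) 2 2 t := by
  apply good_pow ht
  rw [Nat.choose_two_right, Nat.le_div_iff_mul_le (by norm_num)]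
  have : (t - 1) / 2 * 2 ≤ t - 1 := Nat.div_mul_le_self _ _
  nlinarith

/-- Lifting the uniformity. -/
lemma Good.lift {N k l r : ℕ} (h : Good N k l r) : Good N k (l + 1) (r + 1) := by
  classical
  obtain ⟨c, hc, h⟩ := h
  refine ⟨fun T => c (T.erase (T.sup id)), fun T => hc _, fun S hS hcard hm => ?_⟩
  have hne : S.Nonempty := card_pos.1 (by omega)
  obtain ⟨M, hM, hMe⟩ := exists_mem_eq_sup S hne id
  simp only [id] at hMe
  have hle : ∀ a ∈ S, a ≤ M := fun a ha => hMe ▸ le_sup (f := id) ha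
  refine h (S.erase M) ((erase_subset _ _).trans hS) (by rw [card_erase_of_mem hM]; omega) ?_
  have key : ∀ T ⊆ S.erase M, T.card = l → insert M T ⊆ S ∧ (insert M T).card = l + 1 ∧
      (insert M T).erase ((insert M T).sup id) = T := by
    intro T hT hc
    have hn : M ∉ T := fun h' => by simpa using hT h'
    have hsub : insert M T ⊆ S := insert_subset hM (hT.trans (erase_subset _ _))
    refine ⟨hsub, by rw [card_insert_of_notMem hn, hc], ?_⟩
    have : (insert M T).sup id = M := le_antisymm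
      (Finset.sup_le fun a ha => hle a (hsub ha)) (le_sup (f := id) (mem_insert_self _ _))
    rw [this, erase_insert hn]
  intro T₁ T₂ h1 h2 c1 c2
  obtain ⟨a1, a2, a3⟩ := key T₁ h1 c1
  obtain ⟨b1, b2, b3⟩ := key T₂ h2 c2
  have := hm _ _ a1 b1 a2 b2
  simp only [a3, b3] at this
  exact this

lemma Good.lift_add {N k l r : ℕ} (h : Good N k l r) (q : ℕ) : Good N k (l + q) (r + q) := by
  induction q with
  | zero => exact h
  | succ q ih => exact ih.lift

/-- Product of edge colourings. -/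
lemma Good.prod {N₁ N₂ k₁ k₂ r : ℕ} (h₁ : Good N₁ k₁ 2 r) (h₂ : Good N₂ k₂ 2 r) :
    Good (N₁ * N₂) (k₁ + k₂) 2 r := by
  obtain ⟨c₁, hc₁, h₁⟩ := h₁.seq2
  obtain ⟨c₂, hc₂, h₂⟩ := h₂.seq2
  refine good2_of (fun a b => if a / N₂ = b / N₂ then k₁ + c₂ (a % N₂) (b % N₂)
    else c₁ (a / N₂) (b / N₂)) ?_ ?_
  · intro a b
    have := hc₁ (a / N₂) (b / N₂)
    have := hc₂ (a % N₂) (b % N₂)
    split_ifs <;> omega
  intro x hx hb v hv
  beta_reduce at hv
  rcases Nat.eq_zero_or_pos r with hr | hr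
  · subst hr
    exact h₁ x (by simp) (by simp) 0 (by simp)
  have hN : 0 < N₂ := by
    have := hb 0 hr
    rcases Nat.eq_zero_or_pos N₂ with h0 | h0
    · simp [h0] at this
    · exact h0
  rcases lt_or_ge v k₁ with hvk | hvk
  · have hne : ∀ i j, i < j → j < r → x i / N₂ ≠ x j / N₂ := by
      intro i j h1 h2 h3
      have := hv i j h1 h2
      rw [if_pos h3] at this
      omega
    refine h₁ (fun i => x i / N₂) ?_ ?_ v ?_
    · intro i hi j hj hij
      simp only [coe_range, Set.mem_Iio] at hi hj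
      rcases lt_trichotomy i j with h1 | h1 | h1
      · exact absurd hij (hne i j h1 hj)
      · exact h1
      · exact absurd hij.symm (hne j i h1 hi)
    · intro i hi
      exact Nat.div_lt_of_lt_mul (by rw [mul_comm]; exact hb i hi)
    · intro i j h1 h2
      have := hv i j h1 h2
      rwa [if_neg (hne i j h1 h2)] at this
  · have heq : ∀ i j, i < j → j < r → x i / N₂ = x j / N₂ := by
      intro i j h1 h2
      by_contra h3
      have := hv i j h1 h2
      rw [if_neg h3] at this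
      have := hc₁ (x i / N₂) (x j / N₂)
      omega
    have hne : ∀ i j, i < j → j < r → x i % N₂ ≠ x j % N₂ := by
      intro i j h1 h2 h3
      have e1 := Nat.div_add_mod (x i) N₂
      have e2 := Nat.div_add_mod (x j) N₂
      rw [heq i j h1 h2, h3, e2] at e1
      have := hx i j h1 h2
      omega
    refine h₂ (fun i => x i % N₂) ?_ ?_ (v - k₁) ?_
    · intro i hi j hj hij
      simp only [coe_range, Set.mem_Iio] at hi hj
      rcases lt_trichotomy i j with h1 | h1 | h1
      · exact absurd hij (hne i j h1 hj)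
      · exact h1
      · exact absurd hij.symm (hne j i h1 hi)
    · intro i _
      exact Nat.mod_lt _ hN
    · intro i j h1 h2
      have := hv i j h1 h2
      rw [if_pos (heq i j h1 h2)] at this
      omega

lemma Good.pow {N k r : ℕ} (h : Good N k 2 r) (t : ℕ) :
    Good (N ^ (t + 1)) (k * (t + 1)) 2 r := by
  induction t with
  | zero => simpa using h
  | succ t ih =>
    have := ih.prod h
    rwa [← pow_succ, ← Nat.mul_succ] at this

lemma good_multi {a t : ℕ} (ha : 0 < a) (ht : 3 ≤ t) :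
    Good (2 ^ (a * ((t - 1) / 2))) (2 * a) 2 t := by
  obtain ⟨b, rfl⟩ : ∃ b, a = b + 1 := ⟨a - 1, by omega⟩
  have := (good_erdos ht).pow b
  rwa [← pow_mul, mul_comm] at this

end Pool.Agent.MP_251804_lc

end

section

namespace Pool.Agent.MP_251804_lc
open Finset

lemma arrows_ramseyR (m k l : ℕ) (hk : 0 < k) :
    Arrows (⊤ : SimpleGraph (Fin m)) k l (ramseyR (⊤ : SimpleGraph (Fin m)) k l) := by
  have hne : {r : ℕ | Arrows (⊤ : SimpleGraph (Fin m)) k l r}.Nonempty := by
    refine ⟨0, fun c => ⟨∅, by simp, le_rfl, fun T₁ T₂ h1 h2 => ?_⟩⟩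
    have : T₁ = T₂ := Subtype.ext (by rw [subset_empty.1 h1, subset_empty.1 h2])
    rw [this]
  have hbd : BddAbove {r : ℕ | Arrows (⊤ : SimpleGraph (Fin m)) k l r} := by
    refine ⟨m, fun r hr => ?_⟩
    obtain ⟨S, -, hS, -⟩ := hr (fun _ => ⟨0, hk⟩)
    have := card_le_univ S
    rw [Fintype.card_fin] at this
    omega
  exact Nat.sSup_mem hne hbd

lemma not_good_of_arrows {m k l r : ℕ} (h : Arrows (⊤ : SimpleGraph (Fin m)) k l r) :
    ¬ Good m k l r := by
  rintro ⟨c, hc, hg⟩
  obtain ⟨S, -, hS, hm⟩ := h (fun T => ⟨c (T.1.map Fin.valEmbedding), hc _⟩)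
  obtain ⟨S', hS', hc'⟩ := Finset.exists_subset_card_eq hS
  refine hg (S'.map Fin.valEmbedding) ?_ (by rw [card_map, hc']) ?_
  · intro a ha
    obtain ⟨i, -, rfl⟩ := mem_map.1 ha
    exact mem_range.2 i.2
  intro T₁ T₂ h1 h2 c1 c2
  obtain ⟨U₁, hU₁, rfl⟩ := subset_map_iff.1 h1
  obtain ⟨U₂, hU₂, rfl⟩ := subset_map_iff.1 h2
  rw [card_map] at c1 c2
  have q1 : (⊤ : SimpleGraph (Fin m)).IsNClique l U₁ :=
    ⟨fun a _ b _ hab => by simpa using hab, c1⟩
  have q2 : (⊤ : SimpleGraph (Fin m)).IsNClique l U₂ :=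
    ⟨fun a _ b _ hab => by simpa using hab, c2⟩
  have := hm ⟨U₁, q1⟩ ⟨U₂, q2⟩ (hU₁.trans hS') (hU₂.trans hS')
  exact congrArg Fin.val this

/-- The graph on `Fin n` given by a symmetric relation on naturals. -/
def relGraph (n : ℕ) (R : ℕ → ℕ → Prop) (hR : ∀ a b, R a b → R b a) : SimpleGraph (Fin n) where
  Adj u v := u ≠ v ∧ R u v
  symm := ⟨fun _ _ h => ⟨h.1.symm, hR _ _ h.2⟩⟩
  loopless := ⟨fun _ h => h.1 rfl⟩

lemma relGraph_cliqueNum {n w : ℕ} {R : ℕ → ℕ → Prop} (hR : ∀ a b, R a b → R b a)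
    (h : ∀ S : Finset ℕ, S ⊆ range n → S.card = w + 1 → ∃ a ∈ S, ∃ b ∈ S, a ≠ b ∧ ¬ R a b) :
    (relGraph n R hR).cliqueNum ≤ w := by
  obtain ⟨S, hS⟩ := (relGraph n R hR).exists_isNClique_cliqueNum
  by_contra hlt
  push Not at hlt
  obtain ⟨S', hS', hc'⟩ := Finset.exists_subset_card_eq (s := S) (n := w + 1)
    (by rw [hS.card_eq]; omega)
  obtain ⟨a, ha, b, hb, hab, hn⟩ := h (S'.map Fin.valEmbedding) (by
    intro a ha
    obtain ⟨i, -, rfl⟩ := mem_map.1 ha
    exact mem_range.2 i.2) (by rw [card_map, hc'])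
  obtain ⟨i, hi, rfl⟩ := mem_map.1 ha
  obtain ⟨j, hj, rfl⟩ := mem_map.1 hb
  have hij : i ≠ j := fun e => hab (by rw [e])
  exact hn (hS.isClique (hS' hi) (hS' hj) hij).2

lemma cert_nat {n k l r : ℕ} {R : ℕ → ℕ → Prop} (hR : ∀ a b, R a b → R b a) (hk : 0 < k)
    (c : {T : Finset (Fin n) // (relGraph n R hR).IsNClique l T} → Fin k)
    (hc : IsCert (relGraph n R hR) k l r c) :
    ∃ c' : Finset ℕ → ℕ, (∀ T, c' T < k) ∧ ∀ S : Finset ℕ, S ⊆ range n → S.card = r →
      (∀ a ∈ S, ∀ b ∈ S, a ≠ b → R a b) → ¬ MonoN l c' S := by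
  classical
  refine ⟨fun T => if h : (relGraph n R hR).IsNClique l (univ.filter (fun v : Fin n => v.1 ∈ T))
    then (c ⟨_, h⟩).1 else 0, ?_, ?_⟩
  · intro T
    beta_reduce
    split_ifs
    · exact Fin.is_lt _
    · exact hk
  intro S hS hcard hcl hm
  have hmap : (univ.filter (fun v : Fin n => v.1 ∈ S)).map Fin.valEmbedding = S := by
    ext a
    simp only [mem_map, mem_filter, mem_univ, true_and, Fin.valEmbedding_apply]
    constructor
    · rintro ⟨i, hi, rfl⟩; exact hi
    · intro ha; exact ⟨⟨a, mem_range.1 (hS ha)⟩, ha, rfl⟩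
  refine hc ⟨univ.filter (fun v : Fin n => v.1 ∈ S), ⟨?_, ?_⟩, ?_⟩
  · intro a ha b hb hab
    simp only [coe_filter, mem_univ, true_and, Set.mem_ofPred_eq] at ha hb
    exact ⟨hab, hcl _ ha _ hb (fun e => hab (Fin.ext e))⟩
  · rw [← hcard, ← hmap, card_map, hmap]
  · intro T₁ T₂ h1 h2
    have back : ∀ T : Finset (Fin n),
        univ.filter (fun v : Fin n => v.1 ∈ T.map Fin.valEmbedding) = T := by
      intro T
      ext v
      simp only [mem_filter, mem_univ, true_and, mem_map, Fin.valEmbedding_apply]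
      constructor
      · rintro ⟨i, hi, e⟩; rwa [← Fin.ext e]
      · intro hv; exact ⟨v, hv, rfl⟩
    have := hm (T₁.1.map Fin.valEmbedding) (T₂.1.map Fin.valEmbedding)
      (by rw [← hmap]; exact map_subset_map.2 h1) (by rw [← hmap]; exact map_subset_map.2 h2)
      (by rw [card_map, T₁.2.card_eq]) (by rw [card_map, T₂.2.card_eq])
    simp only [back] at this
    rw [dif_pos T₁.2, dif_pos T₂.2] at this
    exact Fin.ext this

/-- What completeness at one `n` gives, for graphs built from relations. -/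
def CertAt (n w k l r : ℕ) : Prop :=
  ∀ R : ℕ → ℕ → Prop, (∀ a b, R a b → R b a) →
    (∀ S : Finset ℕ, S ⊆ range n → S.card = w + 1 → ∃ a ∈ S, ∃ b ∈ S, a ≠ b ∧ ¬ R a b) →
    ∃ c' : Finset ℕ → ℕ, (∀ T, c' T < k) ∧ ∀ S : Finset ℕ, S ⊆ range n → S.card = r →
      (∀ a ∈ S, ∀ b ∈ S, a ≠ b → R a b) → ¬ MonoN l c' S

lemma CertAt.good {n w k l r : ℕ} (h : CertAt n w k l r) (hw : w ≤ n) (h0 : 0 < w) :
    Good w k l r := by
  obtain ⟨c, hc, hg⟩ := h (fun a b => a < w ∧ b < w) (fun a b h => ⟨h.2, h.1⟩) (by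
    intro S hS hc
    by_contra hn
    push Not at hn
    have : S ⊆ range w := by
      intro a ha
      obtain ⟨b, hb, hab⟩ := exists_mem_ne (s := S) (by omega) a
      exact mem_range.2 (hn b hb a ha hab).2
    have := card_le_card this
    rw [card_range] at this
    omega)
  exact ⟨c, hc, fun S hS hcard => hg S (hS.trans (range_subset_range.2 hw)) hcard
    (fun a ha b hb _ => ⟨mem_range.1 (hS ha), mem_range.1 (hS hb)⟩)⟩

lemma CertAt.good_cover {n w k r j : ℕ} (h : CertAt n w k 2 r) (hr : 3 ≤ r)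
    (H : ℕ → ℕ → ℕ → Prop) (hsym : ∀ t a b, H t a b → H t b a)
    (htri : ∀ t a b c, H t a b → H t b c → H t a c → False)
    (hcov : ∀ S : Finset ℕ, S ⊆ range n → S.card = w + 1 →
      ∃ a ∈ S, ∃ b ∈ S, a ≠ b ∧ ∃ t < j, H t a b) : Good n (k + j) 2 r := by
  classical
  obtain ⟨c, hc, hg⟩ := h (fun a b => ¬ ∃ t < j, H t a b)
    (fun a b h ⟨t, ht, h'⟩ => h ⟨t, ht, hsym _ _ _ h'⟩) (by
      intro S hS hc
      obtain ⟨a, ha, b, hb, hab, h'⟩ := hcov S hS hc
      exact ⟨a, ha, b, hb, hab, fun hn => hn h'⟩)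
  refine good2_of (fun a b => if h : ∃ t < j, H t a b then k + h.choose else c {a, b}) ?_ ?_
  · intro a b
    split_ifs with h1
    · have := h1.choose_spec.1; omega
    · have := hc {a, b}; omega
  intro x hx hb v hv
  beta_reduce at hv
  rcases lt_or_ge v k with hvk | hvk
  · have hno : ∀ i i', i < i' → i' < r → ¬ ∃ t < j, H t (x i) (x i') := by
      intro i i' h1 h2 h3
      have := hv i i' h1 h2
      rw [dif_pos h3] at this
      omega
    have hcl : ∀ a ∈ image x (range r), ∀ b ∈ image x (range r), a ≠ b →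
        ¬ ∃ t < j, H t a b := by
      intro a ha b hb hab
      obtain ⟨i, hi, rfl⟩ := mem_image.1 ha
      obtain ⟨i', hi', rfl⟩ := mem_image.1 hb
      rw [mem_range] at hi hi'
      rcases lt_trichotomy i i' with h1 | h1 | h1
      · exact hno i i' h1 hi'
      · exact absurd (by rw [h1]) hab
      · rintro ⟨t, ht, h'⟩
        exact hno i' i h1 hi ⟨t, ht, hsym _ _ _ h'⟩
    refine hg (image x (range r)) ?_ hx.card_image hcl ?_
    · intro a ha
      obtain ⟨i, hi, rfl⟩ := mem_image.1 ha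
      exact mem_range.2 (hb i (mem_range.1 hi))
    have key : ∀ T ⊆ image x (range r), T.card = 2 → c T = v := by
      intro T hT hc
      obtain ⟨a, b, hab, rfl⟩ := card_eq_two.1 hc
      obtain ⟨i, hi, rfl⟩ := mem_image.1 (hT (mem_insert_self _ _))
      obtain ⟨i', hi', rfl⟩ := mem_image.1 (hT (mem_insert_of_mem (mem_singleton_self _)))
      rw [mem_range] at hi hi'
      rcases lt_trichotomy i i' with h1 | h1 | h1
      · have := hv i i' h1 hi'
        rwa [dif_neg (hno i i' h1 hi')] at this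
      · exact absurd (by rw [h1]) hab
      · have := hv i' i h1 hi
        rwa [dif_neg (hno i' i h1 hi), pair_comm] at this
    intro T₁ T₂ h1 h2 c1 c2
    rw [key T₁ h1 c1, key T₂ h2 c2]
  · have hyes : ∀ i i', i < i' → i' < r → H (v - k) (x i) (x i') := by
      intro i i' h1 h2
      have := hv i i' h1 h2
      split_ifs at this with h3
      · have h4 := h3.choose_spec.2
        have : v - k = h3.choose := by omega
        rwa [this]
      · have := hc {x i, x i'}; omega
    exact htri _ _ _ _ (hyes 0 1 (by omega) (by omega)) (hyes 1 2 (by omega) (by omega))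
      (hyes 0 2 (by omega) (by omega))

lemma Complete.eventually {ε : ℝ} {k l : ℕ → ℕ} (h : Complete ε k l) (hk : ∀ n, 2 ≤ k n) :
    ∀ᶠ n : ℕ in Filter.atTop, ∃ r, ¬ Good ⌊(n : ℝ) ^ (1 - ε)⌋₊ (k n) (l n) r ∧
      CertAt n ⌊(n : ℝ) ^ ε⌋₊ (k n) (l n) r := by
  filter_upwards [h] with n hn
  have hk0 : 0 < k n := by have := hk n; omega
  refine ⟨_, not_good_of_arrows (arrows_ramseyR _ _ _ hk0), fun R hR hw => ?_⟩
  have h1 := relGraph_cliqueNum hR hw
  obtain ⟨c, hc⟩ := hn (relGraph n R hR) (by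
    refine le_trans ?_ (Nat.floor_le (a := (n : ℝ) ^ ε) (by positivity))
    exact_mod_cast h1)
  exact cert_nat hR hk0 c hc

end Pool.Agent.MP_251804_lc

end
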