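import Pool.Agent.Mg.F251804.Gc100ef

section

namespace Pool.Agent.MP_251804_lc
open Finset

/-- A pair in increasing order. -/
def srt (a b : ℕ) : ℕ × ℕ := (min a b, max a b)

lemma srt_comm (a b : ℕ) : srt a b = srt b a := by simp [srt, min_comm, max_comm]

/-- The edge set of a triangle. -/
def tri (a b c : ℕ) : Finset (ℕ × ℕ) := {srt a b, srt a c, srt b c}

lemma card_tri {a b c : ℕ} (h1 : a ≠ b) (h2 : a ≠ c) (h3 : b ≠ c) : (tri a b c).card = 3 := by
  refine card_eq_three.2 ⟨_, _, _, ?_, ?_, ?_, rfl⟩ <;> simp only [srt, ne_eq, Prod.mk.injEq] <;>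
    omega

/-- The triangles on `range N`. -/
def IsTri (N : ℕ) (T : Finset (ℕ × ℕ)) : Prop :=
  ∃ a b c, a < N ∧ b < N ∧ c < N ∧ a ≠ b ∧ a ≠ c ∧ b ≠ c ∧ T = tri a b c

lemma IsTri.card {N : ℕ} {T : Finset (ℕ × ℕ)} (h : IsTri N T) : T.card = 3 := by
  obtain ⟨a, b, c, -, -, -, h1, h2, h3, rfl⟩ := h
  exact card_tri h1 h2 h3

lemma IsTri.edge {N : ℕ} {T : Finset (ℕ × ℕ)} (h : IsTri N T) {e : ℕ × ℕ} (he : e ∈ T) :
    ∃ c < N, T = tri e.1 e.2 c := by
  obtain ⟨a, b, c, ha, hb, hc, -, -, -, rfl⟩ := h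
  have key : ∀ a b c : ℕ, tri (srt a b).1 (srt a b).2 c = tri a b c := by
    intro a b c
    rcases le_total a b with h | h
    · simp [srt, h]
    · simp only [srt, min_eq_right h, max_eq_left h, tri]
      ext x
      simp only [mem_insert, mem_singleton, min_eq_left h, max_eq_right h]
      tauto
  simp only [tri, mem_insert, mem_singleton] at he
  rcases he with rfl | rfl | rfl
  · exact ⟨c, hc, (key a b c).symm⟩
  · refine ⟨b, hb, ?_⟩
    rw [key]
    ext x
    simp only [tri, mem_insert, mem_singleton, srt_comm c b]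
    tauto
  · refine ⟨a, ha, ?_⟩
    rw [key]
    ext x
    simp only [tri, mem_insert, mem_singleton, srt_comm c a, srt_comm b a]
    tauto

lemma exists_packing (N : ℕ) (E : Finset (ℕ × ℕ)) : ∃ F : Finset (Finset (ℕ × ℕ)),
    (∀ T ∈ F, IsTri N T ∧ T ⊆ E) ∧ (F : Set (Finset (ℕ × ℕ))).PairwiseDisjoint id ∧
      ∀ T, IsTri N T → ¬ T ⊆ E \ F.biUnion id := by
  classical
  obtain ⟨F, hF, hmax⟩ := exists_max_image (E.powerset.powerset.filter fun F : Finset (Finset (ℕ × ℕ)) =>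
    (∀ T ∈ F, IsTri N T) ∧ (F : Set (Finset (ℕ × ℕ))).PairwiseDisjoint id) card
    ⟨∅, by simp⟩
  simp only [mem_filter, mem_powerset] at hF hmax
  refine ⟨F, fun T hT => ⟨hF.2.1 T hT, mem_powerset.1 (hF.1 hT)⟩, hF.2.2, fun T hT hsub => ?_⟩
  have hdis : ∀ U ∈ F, Disjoint T U := fun U hU => disjoint_left.2 fun e he he' =>
    (mem_sdiff.1 (hsub he)).2 (mem_biUnion.2 ⟨U, hU, he'⟩)
  have hTF : T ∉ F := fun h => by
    have := hT.card
    rw [disjoint_self.1 (hdis T h)] at this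
    simp at this
  have := hmax (insert T F) ⟨insert_subset (mem_powerset.2 (hsub.trans sdiff_subset)) hF.1,
    fun U hU => (mem_insert.1 hU).elim (fun h => h ▸ hT) (hF.2.1 U), by
      rw [coe_insert]
      exact hF.2.2.insert fun U hU _ => hdis U hU⟩
  rw [card_insert_of_notMem hTF] at this
  omega

theorem exists_trifree {N w : ℕ} {p : ℝ} (hN : 1 ≤ N) (h0 : 0 ≤ p) (h1 : p ≤ 1)
    (hw : 40 * Real.log (3 * N) ≤ p * w) (hp : 150 * (N * p ^ 2) ≤ 1) :
    ∃ H : ℕ → ℕ → Prop, (∀ x y, H x y → H y x) ∧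
      (∀ S ⊆ range N, S.card = w + 1 → ∃ x ∈ S, ∃ y ∈ S, x ≠ y ∧ H x y) ∧
      ∀ x y z, x < N → y < N → z < N → x ≠ y → x ≠ z → y ≠ z → H x y → H x z → H y z → False := by
  classical
  have hNR : (1 : ℝ) ≤ N := by exact_mod_cast hN
  set P := prs (range N) with hP
  set m : ℝ := p * ((w + 1).choose 2 : ℕ) with hm
  have hm2 : m = (w + 1) * (p * w) / 2 := by rw [hm, cast_choose_two]; push_cast; ring
  have hlog : 1 ≤ Real.log (3 * N) := by
    rw [Real.le_log_iff_exp_le (by positivity)]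
    linarith [Real.exp_one_lt_d9]
  have hm20 : 20 ≤ m := by
    have : (0 : ℝ) ≤ w := Nat.cast_nonneg _
    rw [hm2]; nlinarith
  set y := ⌈m / 20⌉₊ with hy
  have hy1 : m / 20 ≤ y := Nat.le_ceil _
  have hy2 : (y : ℝ) ≤ m / 20 + 1 := (Nat.ceil_lt_add_one (by positivity)).le
  let TS : Finset ℕ → Finset (Finset (ℕ × ℕ)) := fun S =>
    ((prs S ×ˢ range N).image fun q => tri q.1.1 q.1.2 q.2).filter fun T => T.card = 3 ∧ T ⊆ P
  let GS : Finset ℕ → Finset (Finset (Finset (ℕ × ℕ))) := fun S =>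
    (powersetCard y (TS S)).filter fun G => (G : Set (Finset (ℕ × ℕ))).PairwiseDisjoint id
  let Z : Finset ℕ → Finset (ℕ × ℕ) → ℝ := fun S E =>
    2 ^ (3 * y) * ∏ e ∈ prs S, (if e ∈ E then (1 / 2 : ℝ) else 1) +
      ∑ G ∈ GS S, ∏ e ∈ G.biUnion id, (if e ∈ E then (1 : ℝ) else 0)
  have hexp : Real.exp (-(m / 20)) ≤ (1 / (3 * N)) ^ (w + 1) := by
    rw [one_div, ← Real.exp_log (show (0 : ℝ) < 3 * N by positivity), ← Real.exp_neg,
      ← Real.exp_nat_mul]
    refine Real.exp_le_exp.2 ?_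
    have : (0 : ℝ) ≤ w := Nat.cast_nonneg _
    rw [hm2]
    push_cast
    nlinarith
  have e1 : ∀ S ∈ powersetCard (w + 1) (range N),
      ∑ E ∈ P.powerset, wgt p P E * Z S E ≤ 2 * (1 / (3 * N)) ^ (w + 1) := by
    intro S hS
    obtain ⟨hS1, hS2⟩ := mem_powersetCard.1 hS
    simp only [Z, mul_add, sum_add_distrib, mul_left_comm (wgt p P _), mul_sum]
    rw [← mul_sum, exp_prod p _ 1 (prs_mono hS1), card_prs, hS2, sum_comm, two_mul]
    refine add_le_add (le_trans ?_ hexp) (le_trans ?_ hexp)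
    · have a1 : (2 : ℝ) ^ (3 * y) ≤ Real.exp (3 * y) := by
        have : (2 : ℝ) ≤ Real.exp 1 := by linarith [Real.add_one_le_exp 1]
        refine (pow_le_pow_left₀ (by norm_num) this _).trans (le_of_eq ?_)
        rw [← Real.exp_nat_mul]; push_cast; ring_nf
      have a2 : (p * (1 / 2) + (1 - p) * 1) ^ (w + 1).choose 2 ≤ Real.exp (-(m / 2)) := by
        refine (pow_le_pow_left₀ (by linarith) (b := Real.exp (-(p / 2)))
          (by linarith [Real.add_one_le_exp (-(p / 2))]) _).trans (le_of_eq ?_)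
        rw [← Real.exp_nat_mul, hm]; ring_nf
      refine (mul_le_mul a1 a2 (pow_nonneg (by linarith) _) (by positivity)).trans ?_
      rw [← Real.exp_add]
      exact Real.exp_le_exp.2 (by linarith)
    · have a1 : ∀ G ∈ GS S, ∑ E ∈ P.powerset, wgt p P E *
          ∏ e ∈ G.biUnion id, (if e ∈ E then (1 : ℝ) else 0) ≤ (p ^ 3) ^ y := by
        intro G hG
        obtain ⟨hG1, hG2⟩ := mem_filter.1 hG
        obtain ⟨hG3, hG4⟩ := mem_powersetCard.1 hG1
        rw [exp_prod p 1 0 (A := G.biUnion id)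
          (biUnion_subset.2 fun T hT => (mem_filter.1 (hG3 hT)).2.2), card_biUnion hG2,
          sum_congr rfl (f := fun T => (id T : Finset (ℕ × ℕ)).card) (g := fun _ => 3)
            fun T hT => (mem_filter.1 (hG3 hT)).2.1, sum_const, hG4, ← pow_mul]
        simp [mul_comm]
      refine (sum_le_card_nsmul _ _ _ a1).trans ?_
      have a2 : (TS S).card ≤ (w + 1).choose 2 * N := by
        refine (card_filter_le _ _).trans (card_image_le.trans ?_)
        rw [card_product, card_prs, hS2, card_range]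
      have a3 : ((GS S).card : ℝ) ≤ (((w + 1).choose 2 * N : ℕ) : ℝ) ^ y / y.factorial := by
        refine le_trans ?_ (Nat.choose_le_pow_div y _)
        have := (card_filter_le _ _ : (GS S).card ≤ _)
        rw [card_powersetCard] at this
        exact_mod_cast this.trans (Nat.choose_le_choose _ a2)
      rw [nsmul_eq_mul]
      refine (mul_le_mul_of_nonneg_right a3 (by positivity)).trans ?_
      have a4 := Real.pow_div_factorial_le_exp (Real.exp 2 * (m * (N * p ^ 2)))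
        (by positivity) y
      have a5 : (((w + 1).choose 2 * N : ℕ) : ℝ) ^ y / y.factorial * (p ^ 3) ^ y =
          Real.exp (-(2 * y)) * ((Real.exp 2 * (m * (N * p ^ 2))) ^ y / y.factorial) := by
        rw [mul_pow (Real.exp 2), ← Real.exp_nat_mul, mul_div_assoc, ← mul_assoc, ← Real.exp_add,
          div_mul_eq_mul_div, ← mul_pow, hm]
        push_cast
        ring_nf
        simp
      rw [a5]
      refine (mul_le_mul_of_nonneg_left a4 (by positivity)).trans ?_
      rw [← Real.exp_add]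
      refine Real.exp_le_exp.2 ?_
      have a6 : Real.exp 2 ≤ 15 / 2 := by
        have : Real.exp 2 = Real.exp 1 * Real.exp 1 := by rw [← Real.exp_add]; norm_num
        have h2 := Real.exp_one_lt_d9
        have h3 := Real.exp_pos 1
        nlinarith
      have a7 : m * (N * p ^ 2) ≤ m / 150 := by nlinarith
      have a8 : 0 ≤ m * (N * p ^ 2) := by positivity
      nlinarith
  obtain ⟨E, hE, hZ⟩ := exists_lt_one h0 h1 P (fun E => ∑ S ∈ powersetCard (w + 1) (range N), Z S E)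
    (by
      simp only [mul_sum]
      rw [sum_comm]
      refine (sum_le_sum e1).trans_lt ?_
      rw [← mul_sum]
      have := sum_card_le (n := N) (s := w + 1) (x := 1 / (3 * N)) (by positivity)
        (fun _ => (1 / (3 * N)) ^ (w + 1)) fun _ _ => le_rfl
      have e : (N : ℝ) * (1 / (3 * N)) = 1 / 3 := by field_simp
      rw [e] at this
      have h2 : (1 / 3 : ℝ) ^ (w + 1) ≤ 1 / 3 :=
        pow_le_of_le_one (by norm_num) (by norm_num) (by omega)
      linarith)
  obtain ⟨F, hF1, hF2, hF3⟩ := exists_packing N E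
  have n1 : ∀ S, 0 ≤ 2 ^ (3 * y) * ∏ e ∈ prs S, (if e ∈ E then (1 / 2 : ℝ) else 1) :=
    fun S => mul_nonneg (by positivity) (prod_nonneg fun e _ => by split_ifs <;> norm_num)
  have n2 : ∀ G : Finset (Finset (ℕ × ℕ)),
      0 ≤ ∏ e ∈ G.biUnion id, (if e ∈ E then (1 : ℝ) else 0) :=
    fun S => prod_nonneg fun e _ => by split_ifs <;> norm_num
  refine ⟨fun a b => srt a b ∈ E \ F.biUnion id, fun a b h => by
    beta_reduce at h ⊢; rwa [srt_comm], ?_, ?_⟩
  · intro S hS hc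
    by_contra hno
    push Not at hno
    have h2 : Z S E < 1 := (single_le_sum (f := fun S => Z S E)
      (fun S _ => add_nonneg (n1 S) (sum_nonneg fun G _ => n2 G))
      (mem_powersetCard.2 ⟨hS, hc⟩)).trans_lt hZ
    set FS := F.filter fun T => ∃ e ∈ T, e ∈ prs S with hFS
    rcases le_total y FS.card with h3 | h3
    · obtain ⟨G, hG1, hG2⟩ := exists_subset_card_eq h3
      have hGF : G ⊆ F := hG1.trans (filter_subset _ _)
      have h4 : G ∈ GS S := by
        refine mem_filter.2 ⟨mem_powersetCard.2 ⟨fun T hT => ?_, hG2⟩, hF2.subset hGF⟩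
        obtain ⟨hT1, e, he1, he2⟩ := mem_filter.1 (hG1 hT)
        obtain ⟨c, hc, h5⟩ := (hF1 T hT1).1.edge he1
        exact mem_filter.2 ⟨mem_image.2 ⟨(e, c), mem_product.2 ⟨he2, mem_range.2 hc⟩, h5.symm⟩,
          (hF1 T hT1).1.card, (hF1 T hT1).2.trans hE⟩
      have h5 := single_le_sum (fun G _ => n2 G) h4
      rw [prod_eq_one (s := G.biUnion id) fun e he => if_pos
        (biUnion_subset.2 (fun T hT => (hF1 T (hGF hT)).2) he)] at h5
      have := n1 S
      simp only [Z] at h2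
      linarith
    · have h4 : (prs S ∩ E).card ≤ 3 * y := by
        refine le_trans (card_le_card (t := FS.biUnion id) fun e he => ?_) ?_
        · obtain ⟨he1, he2⟩ := mem_inter.1 he
          obtain ⟨a1, a2, a3⟩ := mem_prs.1 he1
          have h5 := hno _ a1 _ a2 a3.ne
          have h6 : srt e.1 e.2 = e := by simp [srt, a3.le]
          rw [h6, mem_sdiff, not_and, not_not] at h5
          obtain ⟨T, hT, h7⟩ := mem_biUnion.1 (h5 he2)
          exact mem_biUnion.2 ⟨T, mem_filter.2 ⟨hT, e, h7, he1⟩, h7⟩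
        · refine (card_biUnion_le_card_mul _ _ 3 fun T hT => ?_).trans (by omega)
          exact (hF1 T (mem_filter.1 hT).1).1.card.le
      have h5 : (1 : ℝ) ≤ 2 ^ (3 * y) * ∏ e ∈ prs S, (if e ∈ E then (1 / 2 : ℝ) else 1) := by
        rw [prod_ite_eq_pow, one_div, inv_pow, ← div_eq_mul_inv, one_le_div (by positivity)]
        exact pow_le_pow_right₀ (by norm_num) h4
      have := sum_nonneg (s := GS S) fun G _ => n2 G
      simp only [Z] at h2
      linarith
  · intro x y z hx hy hz a1 a2 a3 b1 b2 b3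
    refine hF3 (tri x y z) ⟨x, y, z, hx, hy, hz, a1, a2, a3, rfl⟩ ?_
    intro e he
    simp only [tri, mem_insert, mem_singleton] at he
    rcases he with rfl | rfl | rfl <;> assumption

end Pool.Agent.MP_251804_lc

end

section

namespace Pool.Agent.MP_251804_lc
open Finset Filter

/-- A certificate on the complement of `H` extends to a colouring of all triples. -/
lemma CertAt.fill {n N w k r : ℕ} (h : CertAt n w k 3 r) (hN : N ≤ n) (hw : 0 < w) (hk : 2 ≤ k)
    (hr : 2 ≤ r) (H : ℕ → ℕ → Prop) (hH : ∀ x y, H x y → H y x)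
    (h1 : ∀ S ⊆ range N, S.card = w + 1 → ∃ x ∈ S, ∃ y ∈ S, x ≠ y ∧ H x y)
    (h2 : ∀ S ⊆ range N, S.card = r + 1 → ∃ x ∈ S, ∃ y ∈ S, x ≠ y ∧ ¬ H x y)
    (htri : ∀ x y z, H x y → H x z → H y z → 2 < k) : Good N k 3 (r + 1) := by
  classical
  obtain ⟨c, hc, hg⟩ := h (fun a b => a < N ∧ b < N ∧ ¬ H a b)
    (fun a b h => ⟨h.2.1, h.1, fun h' => h.2.2 (hH _ _ h')⟩) (by
      intro S _ hcard
      by_cases hS : S ⊆ range N
      · obtain ⟨x, hx, y, hy, hxy, h⟩ := h1 S hS hcard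
        exact ⟨x, hx, y, hy, hxy, fun h' => h'.2.2 h⟩
      · obtain ⟨a, ha, haN⟩ := not_subset.1 hS
        obtain ⟨b, hb, hab⟩ := exists_mem_ne (s := S) (by omega) a
        exact ⟨a, ha, b, hb, hab.symm, fun h' => haN (mem_range.2 h'.1)⟩)
  refine good3_of (fun x y z => if H y z then (if H x y ∧ H x z then 2 else 0)
    else if H x y ∨ H x z then 1 else c {x, y, z}) ?_ ?_
  · intro x y z
    split_ifs with q1 q2 q3
    · exact htri _ _ _ q2.1 q2.2 q1
    · omega
    · omega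
    · exact hc _
  intro x hx hb v hv
  beta_reduce at hv
  have hcover : ∃ i₀ < r + 1, ∀ i j, i < j → j < r + 1 → i ≠ i₀ → j ≠ i₀ → ¬ H (x i) (x j) := by
    obtain rfl | rfl | hv2 : v = 0 ∨ v = 1 ∨ 2 ≤ v := by omega
    · have key : ∀ i j t, i < j → j < t → t < r + 1 → H (x i) (x j) ∨ H (x i) (x t) →
          H (x j) (x t) := by
        intro i j t a1 a2 a3 a4
        by_contra a5
        have := hv i j t a1 a2 a3
        rw [if_neg a5, if_pos a4] at this
        omega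
      have ntri : ∀ i j t, i < j → j < t → t < r + 1 → H (x i) (x j) → H (x i) (x t) → False := by
        intro i j t a1 a2 a3 a4 a5
        have := hv i j t a1 a2 a3
        rw [if_pos (key i j t a1 a2 a3 (Or.inl a4)), if_pos ⟨a4, a5⟩] at this
        omega
      have low : ∀ i j, i < j → j < r - 1 → ¬ H (x i) (x j) := fun i j a1 a2 a3 =>
        ntri j (r - 1) r a2 (by omega) (by omega)
          (key i j _ a1 a2 (by omega) (Or.inl a3)) (key i j _ a1 (by omega) (by omega) (Or.inl a3))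
      by_cases hA : ∃ i₀ < r - 1, H (x i₀) (x (r - 1))
      · obtain ⟨i₀, a1, a2⟩ := hA
        refine ⟨r - 1, by omega, fun i j b1 b2 b3 b4 b5 => ?_⟩
        rcases Nat.lt_or_ge j (r - 1) with b6 | b6
        · exact low i j b1 b6 b5
        obtain rfl : j = r := by omega
        rcases lt_trichotomy i i₀ with b7 | b7 | b7
        · exact ntri i₀ (j - 1) j a1 (by omega) b2 a2
            (key i i₀ j b7 (by omega) b2 (Or.inr b5))
        · exact ntri i₀ (j - 1) j a1 (by omega) b2 a2 (b7 ▸ b5)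
        · exact ntri i (j - 1) j (by omega) (by omega) b2
            (key i₀ i _ b7 (by omega) (by omega) (Or.inr a2)) b5
      · refine ⟨r, by omega, fun i j b1 b2 _ b4 b5 => ?_⟩
        rcases Nat.lt_or_ge j (r - 1) with b6 | b6
        · exact low i j b1 b6 b5
        obtain rfl : j = r - 1 := by omega
        exact hA ⟨i, b1, b5⟩
    · refine ⟨0, by omega, fun i j b1 b2 b3 _ b5 => ?_⟩
      have := hv 0 i j (by omega) b1 b2
      rw [if_pos b5] at this
      split_ifs at this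
      omega
    · have all : ∀ i j t, i < j → j < t → t < r + 1 →
          H (x i) (x j) ∨ H (x i) (x t) ∨ H (x j) (x t) →
          H (x i) (x j) ∧ H (x i) (x t) ∧ H (x j) (x t) := by
        intro i j t a1 a2 a3 a4
        have := hv i j t a1 a2 a3
        split_ifs at this with q1 q2 q3
        · exact ⟨q2.1, q2.2, q1⟩
        · omega
        · omega
        · tauto
      have all' : ∀ i j t, i < r + 1 → j < r + 1 → t < r + 1 → i ≠ j → i ≠ t → j ≠ t →
          H (x i) (x j) → H (x i) (x t) := by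
        intro i j t a1 a2 a3 a4 a5 a6 a7
        have a8 := hH _ _ a7
        rcases lt_or_gt_of_ne a4 with b1 | b1 <;> rcases lt_or_gt_of_ne a5 with b2 | b2 <;>
          rcases lt_or_gt_of_ne a6 with b3 | b3
        · exact (all i j t b1 b3 a3 (Or.inl a7)).2.1
        · exact (all i t j b2 b3 a2 (Or.inr (Or.inl a7))).1
        · omega
        · exact hH _ _ (all t i j b2 b1 a2 (Or.inr (Or.inr a7))).1
        · exact (all j i t b1 b2 a3 (Or.inl a8)).2.2
        · omega
        · exact hH _ _ (all j t i b3 b2 a1 (Or.inr (Or.inl a8))).2.2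
        · exact hH _ _ (all t j i b3 b1 a1 (Or.inr (Or.inr a8))).2.1
      refine ⟨0, by omega, fun i j b1 b2 _ _ b5 => ?_⟩
      have star : ∀ t, t < r + 1 → t ≠ i → H (x i) (x t) := by
        intro t a1 a2
        by_cases a3 : t = j
        · exact a3 ▸ b5
        · exact all' i j t (by omega) b2 a1 b1.ne a2.symm (Ne.symm a3) b5
      obtain ⟨a, ha, b, hb', hab, hn⟩ := h2 (image x (range (r + 1))) (by
        intro a ha
        obtain ⟨s, hs, rfl⟩ := mem_image.1 ha
        exact mem_range.2 (hb s (mem_range.1 hs))) hx.card_image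
      obtain ⟨s, hs, rfl⟩ := mem_image.1 ha
      obtain ⟨t, ht, rfl⟩ := mem_image.1 hb'
      rw [mem_range] at hs ht
      have hst : s ≠ t := fun e => hab (by rw [e])
      by_cases a1 : s = i
      · exact hn (a1 ▸ star t ht (by omega))
      by_cases a2 : t = i
      · exact hn (hH _ _ (a2 ▸ star s hs a1))
      exact hn (all' s i t hs (by omega) ht a1 hst (Ne.symm a2) (hH _ _ (star s hs a1)))
  obtain ⟨i₀, hi₀, hno⟩ := hcover
  have hinj : Set.InjOn x ((range (r + 1)).erase i₀ : Finset ℕ) :=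
    hx.injOn.mono (by exact_mod_cast erase_subset _ _)
  have hmem : ∀ i ∈ (range (r + 1)).erase i₀, i ≠ i₀ ∧ i < r + 1 := fun i hi => by simpa using hi
  refine hg (image x ((range (r + 1)).erase i₀)) ?_ ?_ ?_ ?_
  · intro a ha
    obtain ⟨i, hi, rfl⟩ := mem_image.1 ha
    exact mem_range.2 ((hb i (hmem i hi).2).trans_le hN)
  · rw [card_image_of_injOn hinj, card_erase_of_mem (mem_range.2 hi₀), card_range]
    omega
  · intro a ha b hb' hab
    obtain ⟨i, hi, rfl⟩ := mem_image.1 ha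
    obtain ⟨j, hj, rfl⟩ := mem_image.1 hb'
    refine ⟨hb i (hmem i hi).2, hb j (hmem j hj).2, ?_⟩
    rcases lt_trichotomy i j with q | q | q
    · exact hno i j q (hmem j hj).2 (hmem i hi).1 (hmem j hj).1
    · exact absurd (by rw [q]) hab
    · exact fun h' => hno j i q (hmem i hi).2 (hmem j hj).1 (hmem i hi).1 (hH _ _ h')
  have key : ∀ T ⊆ image x ((range (r + 1)).erase i₀), T.card = 3 → c T = v := by
    intro T hT hcT
    obtain ⟨U, hU, rfl⟩ := subset_image_iff.1 hT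
    rw [card_image_of_injOn (hinj.mono (by exact_mod_cast hU))] at hcT
    have e0 := hmem _ (hU (enum_mem (T := U) (i := 0) (by omega)))
    have e1 := hmem _ (hU (enum_mem (T := U) (i := 1) (by omega)))
    have e2 := hmem _ (hU (enum_mem (T := U) (i := 2) (by omega)))
    have l01 := enum_inc U 0 1 (by omega) (by omega)
    have l12 := enum_inc U 1 2 (by omega) (by omega)
    have := hv _ _ _ l01 l12 e2.2
    rw [if_neg (hno _ _ l12 e2.2 e1.1 e2.1), if_neg (not_or.2 ⟨hno _ _ l01 e1.2 e0.1 e1.1,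
      hno _ _ (l01.trans l12) e2.2 e0.1 e2.1⟩)] at this
    rw [← this]
    congr 1
    conv_lhs => rw [← image_enum U, hcT]
    ext a
    simp only [range_add_one, range_zero, image_insert, mem_insert, mem_singleton,
      insert_empty_eq, image_singleton]
    tauto
  intro T₁ T₂ q1 q2 c1 c2
  rw [key T₁ q1 c1, key T₂ q2 c2]

lemma succ_rpow_le {n : ℕ} (hn : 1 ≤ n) {ε : ℝ} (hε : 0 < ε) (hε1 : ε ≤ 1) :
    (⌊((n + 1 : ℕ) : ℝ) ^ (1 - ε)⌋₊ : ℝ) ≤ 2 * (n : ℝ) ^ (1 - ε) := by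
  have hnR : (1 : ℝ) ≤ n := by exact_mod_cast hn
  refine (Nat.floor_le (by positivity)).trans ?_
  have h1 : ((n + 1 : ℕ) : ℝ) ^ (1 - ε) ≤ (2 * n : ℝ) ^ (1 - ε) :=
    Real.rpow_le_rpow (by positivity) (by push_cast; linarith) (by linarith)
  rw [Real.mul_rpow (by norm_num) (by positivity)] at h1
  have h2 : (2 : ℝ) ^ (1 - ε) ≤ 2 := by
    simpa using Real.rpow_le_rpow_of_exponent_le (x := 2) (by norm_num) (show 1 - ε ≤ 1 by linarith)
  exact h1.trans (mul_le_mul_of_nonneg_right h2 (by positivity))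

lemma ev_fill {ε : ℝ} (hε : 0 < ε) (hε2 : ε < 1 / 2) : ∃ r₀ : ℕ, ∀ᶠ n : ℕ in atTop, ∀ k r : ℕ,
    2 ≤ k → (3 ≤ k ∨ 1 / 3 < ε) → r₀ ≤ r → CertAt n ⌊(n : ℝ) ^ ε⌋₊ k 3 r →
      Good ⌊((n + 1 : ℕ) : ℝ) ^ (1 - ε)⌋₊ k 3 (r + 1) := by
  have hev : ∀ᶠ n : ℕ in atTop, 1 / 3 < ε → 400 * (4 * Real.log (3 * n) + 2 * Real.log (4 * n) + 1)
      ≤ (n : ℝ) ^ ((3 * ε - 1) / 2) := by
    by_cases h : 1 / 3 < ε
    · exact (ev_log (by linarith) (by norm_num)).mono fun n hn _ => hn
    · exact Eventually.of_forall fun n hn => absurd hn h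
  refine ⟨2 * ⌈4 / ε⌉₊ + 2, ?_⟩
  filter_upwards [hev, ev_log (half_pos hε) (C := 2) (by norm_num), ev_rpow hε 2,
    eventually_ge_atTop 3] with n h1 h2 h3 hn k r hk hcase hr hc
  have n3 : (3 : ℝ) ≤ n := by exact_mod_cast hn
  have n0 : (0 : ℝ) < n := by linarith
  have hw := half_le_floor (show 1 ≤ (n : ℝ) ^ ε by linarith)
  set w := ⌊(n : ℝ) ^ ε⌋₊
  set N := ⌊((n + 1 : ℕ) : ℝ) ^ (1 - ε)⌋₊ with hNdef
  have w0 : (0 : ℝ) < w := by linarith
  have l3 : 0 ≤ Real.log (3 * n) := Real.log_nonneg (by linarith)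
  have l4 : 0 ≤ Real.log (4 * n) := Real.log_nonneg (by linarith)
  have hN2 : (N : ℝ) ≤ 2 * (n : ℝ) ^ (1 - ε) := succ_rpow_le (by omega) hε (by linarith)
  have e1 : (n : ℝ) ^ (1 - ε) * (n : ℝ) ^ ε = n := by rw [← Real.rpow_add n0]; simp
  have p1 : 0 < (n : ℝ) ^ (1 - ε) := by positivity
  have hNn : N ≤ n := by
    have : (N : ℝ) ≤ n := by nlinarith
    exact_mod_cast this
  rcases hcase with hk3 | hε3
  · have q0 : 0 < (n : ℝ) ^ (ε / 2) := by positivity
    have q1 : (n : ℝ) ^ ε = (n : ℝ) ^ (ε / 2) * (n : ℝ) ^ (ε / 2) := by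
      rw [← Real.rpow_add n0, add_halves]
    have hp : 2 * Real.log (3 * n) / w ≤ (n : ℝ) ^ (-(ε / 2)) := by
      rw [Real.rpow_neg n0.le, div_le_iff₀ w0, ← div_eq_inv_mul, le_div_iff₀ q0]
      nlinarith
    have hp1 : (n : ℝ) ^ (-(ε / 2)) ≤ 1 :=
      Real.rpow_le_one_of_one_le_of_nonpos (by linarith) (by linarith)
    obtain ⟨H, hH, a1, a2, -⟩ := exists_rand (n := n) (w := w) (a := ⌈4 / ε⌉₊)
      (p := 2 * Real.log (3 * n) / w) (by omega) (by positivity) (hp.trans hp1)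
      (by rw [div_mul_cancel₀ _ w0.ne']) (by
        have b1 := pow_le_pow_left₀ (by positivity) hp ⌈4 / ε⌉₊
        rw [← Real.rpow_natCast ((n : ℝ) ^ (-(ε / 2))), ← Real.rpow_mul n0.le] at b1
        have b2 : 4 / ε ≤ (⌈4 / ε⌉₊ : ℝ) := Nat.le_ceil _
        rw [div_le_iff₀ hε] at b2
        have b3 : (n : ℝ) ^ (-(ε / 2) * (⌈4 / ε⌉₊ : ℝ)) ≤ (n : ℝ) ^ (-2 : ℝ) :=
          Real.rpow_le_rpow_of_exponent_le (by linarith) (by linarith)
        have b4 : (n : ℝ) ^ (-2 : ℝ) = 1 / (n * n) := by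
          rw [Real.rpow_neg n0.le, Real.rpow_two, one_div, sq]
        calc _ ≤ 3 * n * (1 / (n * n) : ℝ) :=
              mul_le_mul_of_nonneg_left (b1.trans (b3.trans b4.le)) (by positivity)
          _ = 3 / n := by field_simp
          _ ≤ 1 := by rw [div_le_one n0]; exact n3)
    refine (hc.fill le_rfl (by exact_mod_cast w0) hk (by omega) H hH a1 ?_
      (fun _ _ _ _ _ _ => by omega)).mono hNn le_rfl le_rfl
    intro S hS hcard
    obtain ⟨S', b1, b2⟩ := exists_subset_card_eq (s := S) (n := 2 * ⌈4 / ε⌉₊ + 1) (by omega)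
    obtain ⟨x, hx, y, hy, b3⟩ := a2 S' (b1.trans hS) b2
    exact ⟨x, b1 hx, y, b1 hy, b3⟩
  · have h4 := h1 hε3
    have hN1 : 1 ≤ N := (Nat.one_le_floor_iff _).2
      (Real.one_le_rpow (by push_cast; linarith) (by linarith))
    have N1 : (1 : ℝ) ≤ N := by exact_mod_cast hN1
    have Nn : (N : ℝ) ≤ n := by exact_mod_cast hNn
    have q0 : 0 < (n : ℝ) ^ ε := by positivity
    have hp : 150 * (N * (40 * Real.log (3 * n) / w) ^ 2) ≤ 1 := by
      have b1 : 1600 * Real.log (3 * n) ≤ (n : ℝ) ^ ((3 * ε - 1) / 2) := by linarith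
      have b2 := mul_self_le_mul_self (by positivity) b1
      have b3 : (n : ℝ) ^ ((3 * ε - 1) / 2) * (n : ℝ) ^ ((3 * ε - 1) / 2) * (n : ℝ) ^ (1 - ε) =
          (n : ℝ) ^ ε * (n : ℝ) ^ ε := by
        simp only [← Real.rpow_add n0]; congr 1; ring
      have b4 := mul_self_le_mul_self (by positivity) hw
      have b5 := mul_le_mul_of_nonneg_right b2 p1.le
      have b6 := mul_le_mul_of_nonneg_right hN2 (mul_self_nonneg (Real.log (3 * n)))
      rw [div_pow, ← mul_div_assoc, ← mul_div_assoc, div_le_one (by positivity)]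
      nlinarith
    have hp1 : 40 * Real.log (3 * n) / w ≤ 1 := by
      by_contra hlt
      push Not at hlt
      nlinarith
    obtain ⟨H, hH, a1, a2⟩ := exists_trifree (N := N) (w := w) (p := 40 * Real.log (3 * n) / w)
      hN1 (by positivity) hp1 (by
        rw [div_mul_cancel₀ _ w0.ne']
        have := Real.log_le_log (x := 3 * N) (y := 3 * n) (by positivity) (by linarith)
        linarith) hp
    refine hc.fill hNn (by exact_mod_cast w0) hk (by omega)
      (fun a b => H a b ∧ a < N ∧ b < N ∧ a ≠ b)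
      (fun a b h => ⟨hH _ _ h.1, h.2.2.1, h.2.1, h.2.2.2.symm⟩) ?_ ?_ ?_
    · intro S hS hcard
      obtain ⟨x, hx, y, hy, b1, b2⟩ := a1 S hS hcard
      exact ⟨x, hx, y, hy, b1, b2, mem_range.1 (hS hx), mem_range.1 (hS hy), b1⟩
    · intro S hS hcard
      by_contra hno
      push Not at hno
      obtain ⟨x, hx, y, hy, z, hz, b1, b2, b3⟩ := two_lt_card.1 (show 2 < S.card by omega)
      exact a2 x y z (mem_range.1 (hS hx)) (mem_range.1 (hS hy)) (mem_range.1 (hS hz)) b1 b2 b3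
        (hno x hx y hy b1).1 (hno x hx z hz b2).1 (hno y hy z hz b3).1
    · intro x y z b1 b2 b3
      exact (a2 x y z b1.2.1 b1.2.2.1 b2.2.2.1 b1.2.2.2 b2.2.2.2 b3.2.2.2 b1.1 b2.1 b3.1).elim

theorem mainB {ε : ℝ} (hε : 0 < ε) (hε2 : ε < 1 / 2) : ∃ Λ : ℕ, ∀ k l : ℕ → ℕ,
    (∀ n, 2 ≤ k n) → (∃ᶠ n : ℕ in atTop, (3 ≤ k n ∨ 1 / 3 < ε) ∧
      ∀ n' ∈ Set.Icc n (n ^ Λ), k n' = k n ∧ l n' = 3) → ¬ Complete ε k l := by
  obtain ⟨r₀, hfill⟩ := ev_fill hε hε2
  set g := ⌈1 / ε⌉₊ with hg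
  have g1 : 1 ≤ ε * g := by
    have : 1 / ε ≤ (g : ℝ) := Nat.le_ceil _
    rwa [div_le_iff₀' hε] at this
  have g0 : 0 < g := Nat.ceil_pos.2 (by positivity)
  refine ⟨g ^ (r₀ + 1), fun k l hk hfreq hcomp => ?_⟩
  obtain ⟨N, hN⟩ := eventually_atTop.1
    ((hcomp.eventually hk).and (hfill.and (eventually_ge_atTop 1)))
  choose! r hr using fun n hn => (hN n hn).1
  obtain ⟨n, ⟨hcase, hwin⟩, hn⟩ := (hfreq.and_eventually (eventually_ge_atTop N)).exists
  have n1 : 1 ≤ n := (hN n hn).2.2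
  have hr' : ∀ x, n ≤ x → x ≤ n ^ g ^ (r₀ + 1) → ¬ Good ⌊(x : ℝ) ^ (1 - ε)⌋₊ (k n) 3 (r x) ∧
      CertAt x ⌊(x : ℝ) ^ ε⌋₊ (k n) 3 (r x) := by
    intro x a1 a2
    have := hr x (hn.trans a1)
    rwa [(hwin x ⟨a1, a2⟩).1, (hwin x ⟨a1, a2⟩).2] at this
  have c1 : ∀ x y, n ≤ x → x ^ g ≤ y → y ≤ n ^ g ^ (r₀ + 1) → r x < r y := by
    intro x y a1 a2 a3
    have x1 : 1 ≤ x := n1.trans a1
    have a4 : x ≤ y := (Nat.le_self_pow g0.ne' x).trans a2
    have xR : (1 : ℝ) ≤ x := by exact_mod_cast x1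
    have a5 : x ≤ ⌊(y : ℝ) ^ ε⌋₊ := by
      refine Nat.le_floor ?_
      have b1 : ((x : ℝ) ^ g) ^ ε ≤ (y : ℝ) ^ ε :=
        Real.rpow_le_rpow (by positivity) (by exact_mod_cast a2) hε.le
      rw [← Real.rpow_natCast, ← Real.rpow_mul (by positivity)] at b1
      refine le_trans ?_ b1
      simpa using Real.rpow_le_rpow_of_exponent_le xR (show 1 ≤ (g : ℝ) * ε by linarith)
    by_contra hlt
    exact (hr' x a1 (a4.trans a3)).1 (((hr' y (a1.trans a4) a3).2.good
      (floor_rpow_le (x1.trans a4) (by linarith)) (by omega)).mono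
      ((floor_rpow_le x1 (by linarith)).trans a5) le_rfl (by omega))
  have c0 : ∀ j, n ≤ n ^ g ^ j := fun j => Nat.le_self_pow (by positivity) n
  have c2 : ∀ j y, n ^ g ^ j ≤ y → y ≤ n ^ g ^ (r₀ + 1) → j ≤ r y := by
    intro j
    induction j with
    | zero => intros; omega
    | succ j ih =>
      intro y a1 a2
      rw [pow_succ, pow_mul] at a1
      have a3 := c1 _ y (c0 j) a1 a2
      have a4 := ih _ le_rfl ((Nat.le_self_pow g0.ne' _).trans (a1.trans a2))
      omega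
  have c3 : ∀ t, n ^ g ^ r₀ + t ≤ n ^ g ^ (r₀ + 1) → r (n ^ g ^ r₀ + t) ≤ r (n ^ g ^ r₀) := by
    intro t
    induction t with
    | zero => intro _; rfl
    | succ t ih =>
      intro a1
      have a2 : n ≤ n ^ g ^ r₀ + t := (c0 r₀).trans (Nat.le_add_right _ _)
      have a3 := (hN _ (hn.trans a2)).2.1 (k n) _ (hk n) hcase
        (c2 r₀ _ (Nat.le_add_right _ t) (by omega)) (hr' _ a2 (by omega)).2
      have a4 := (hr' (n ^ g ^ r₀ + t + 1) (by omega) a1).1
      have a5 := ih (by omega)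
      by_contra hlt
      exact a4 (a3.mono le_rfl le_rfl (by rw [add_assoc]; omega))
  have c4 : (n ^ g ^ r₀) ^ g = n ^ g ^ (r₀ + 1) := by rw [pow_succ, pow_mul]
  have c5 := c1 _ _ (c0 r₀) c4.le le_rfl
  obtain ⟨t, ht⟩ := Nat.exists_eq_add_of_le ((Nat.le_self_pow g0.ne' _).trans c4.le)
  have c6 := c3 t ht.ge
  rw [← ht] at c6
  omega

end Pool.Agent.MP_251804_lc

end
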