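import Pool.Agent.Mg.F251804.G50215f
import Mathlib

section

namespace Pool.Agent.MP_251804_lc
open Finset

/-- `X` contains an `a`-set all of whose pairs are related by `E`. -/
def Has (E : ℕ → ℕ → Prop) (a : ℕ) (X : Finset ℕ) : Prop :=
  ∃ S ⊆ X, S.card = a ∧ ∀ x ∈ S, ∀ y ∈ S, x ≠ y → E x y

lemma Has.zero (E : ℕ → ℕ → Prop) (X : Finset ℕ) : Has E 0 X := ⟨∅, by simp, rfl, by simp⟩

lemma Has.sub {E : ℕ → ℕ → Prop} {a : ℕ} {X Y : Finset ℕ} (h : Has E a X) (hXY : X ⊆ Y) :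
    Has E a Y := by
  obtain ⟨S, h1, h2, h3⟩ := h
  exact ⟨S, h1.trans hXY, h2, h3⟩

lemma Has.le {E : ℕ → ℕ → Prop} {a b : ℕ} {X : Finset ℕ} (h : Has E a X) (hb : b ≤ a) :
    Has E b X := by
  obtain ⟨S, h1, h2, h3⟩ := h
  obtain ⟨S', h4, h5⟩ := exists_subset_card_eq (s := S) (n := b) (by omega)
  exact ⟨S', h4.trans h1, h5, fun x hx y hy => h3 x (h4 hx) y (h4 hy)⟩

lemma Has.ins {E : ℕ → ℕ → Prop} (hE : ∀ x y, E x y → E y x) {a v : ℕ} {X Y : Finset ℕ}
    (h : Has E a Y) (hv : v ∈ X) (hY : Y ⊆ X) (hvY : v ∉ Y) (hadj : ∀ u ∈ Y, E v u) :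
    Has E (a + 1) X := by
  obtain ⟨S, h1, h2, h3⟩ := h
  have hvS : v ∉ S := fun h => hvY (h1 h)
  refine ⟨insert v S, insert_subset hv (h1.trans hY), by rw [card_insert_of_notMem hvS, h2], ?_⟩
  intro x hx y hy hxy
  rcases mem_insert.1 hx with rfl | hx' <;> rcases mem_insert.1 hy with rfl | hy'
  · exact absurd rfl hxy
  · exact hadj y (h1 hy')
  · exact hE _ _ (hadj x (h1 hx'))
  · exact h3 x hx' y hy' hxy

/-- Every large subset has a vertex joined in one of the two colours to almost all others. -/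
def Step (E F : ℕ → ℕ → Prop) (V : Finset ℕ) (B : ℕ) : Prop :=
  ∀ X ⊆ V, B ≤ X.card → ∃ v ∈ X, ∃ Y ⊆ X, ∃ Z ⊆ X, v ∉ Y ∧ v ∉ Z ∧ (∀ u ∈ Y, E v u) ∧
    (∀ u ∈ Z, F v u) ∧ 131 * X.card ≤ 132 * (Y.card + Z.card)

lemma Step.symm {E F : ℕ → ℕ → Prop} {V : Finset ℕ} {B : ℕ} (h : Step E F V B) : Step F E V B := by
  intro X hX hB
  obtain ⟨v, hv, Y, hY, Z, hZ, h1, h2, h3, h4, h5⟩ := h X hX hB
  exact ⟨v, hv, Z, hZ, Y, hY, h2, h1, h4, h3, by omega⟩

lemma walk1 {E F : ℕ → ℕ → Prop} (hE : ∀ x y, E x y → E y x) (hF : ∀ x y, F x y → F y x)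
    {V : Finset ℕ} {B ρ : ℕ} (hs : Step E F V B)
    (hb : ∀ X ⊆ V, B ≤ X.card → Has E ρ X ∨ Has F ρ X) :
    ∀ t a b, a + b = t → a ≤ ρ → ∀ X ⊆ V, (B : ℝ) * ((11 / 10) ^ a * 12 ^ b) ≤ X.card →
      Has E a X ∨ Has F (ρ + b) X := by
  intro t
  induction t with
  | zero =>
    intro a b hab _ X _ _
    obtain rfl : a = 0 := by omega
    exact Or.inl (Has.zero _ _)
  | succ t ih =>
    intro a b hab ha X hX hc
    have hB : B ≤ X.card := by
      have h1 : (1 : ℝ) ≤ (11 / 10) ^ a * 12 ^ b :=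
        one_le_mul_of_one_le_of_one_le (one_le_pow₀ (by norm_num)) (one_le_pow₀ (by norm_num))
      have h2 : (B : ℝ) ≤ X.card := le_trans (le_mul_of_one_le_right (by positivity) h1) hc
      exact_mod_cast h2
    rcases a with _ | a
    · exact Or.inl (Has.zero _ _)
    rcases b with _ | b
    · exact (hb X hX hB).imp (fun h => h.le ha) id
    obtain ⟨v, hv, Y, hY, Z, hZ, h1, h2, h3, h4, h5⟩ := hs X hX hB
    have h6 : (131 : ℝ) * X.card ≤ 132 * (Y.card + Z.card) := by exact_mod_cast h5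
    have h7 : (B : ℝ) * ((11 / 10) ^ a * 12 ^ (b + 1)) ≤ Y.card ∨
        (B : ℝ) * ((11 / 10) ^ (a + 1) * 12 ^ b) ≤ Z.card := by
      by_contra hn
      push Not at hn
      obtain ⟨q1, q2⟩ := hn
      simp only [pow_succ] at q1 q2 hc
      nlinarith
    rcases h7 with h7 | h7
    · rcases ih a (b + 1) (by omega) (by omega) Y (hY.trans hX) h7 with h | h
      · exact Or.inl (h.ins hE hv hY h1 h3)
      · exact Or.inr (h.sub hY)
    · rcases ih (a + 1) b (by omega) ha Z (hZ.trans hX) h7 with h | h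
      · exact Or.inl (h.sub hZ)
      · exact Or.inr (h.ins hF hv hZ h2 h4)

lemma walk2 {E F : ℕ → ℕ → Prop} (hE : ∀ x y, E x y → E y x) (hF : ∀ x y, F x y → F y x)
    {V : Finset ℕ} {B ρ : ℕ} (hs : Step E F V B)
    (hb : ∀ X ⊆ V, B ≤ X.card → Has E ρ X ∨ Has F ρ X) :
    ∀ t a b, a + b = t → ∀ X ⊆ V,
      (B : ℝ) * ((11 / 10) ^ (ρ + a) * 12 ^ b + (11 / 10) ^ (ρ + b) * 12 ^ a) ≤ X.card →
      Has E (ρ + a) X ∨ Has F (ρ + b) X := by
  have c1 : ∀ b, ∀ X ⊆ V,
      (B : ℝ) * ((11 / 10) ^ (ρ + 0) * 12 ^ b + (11 / 10) ^ (ρ + b) * 12 ^ 0) ≤ X.card →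
      Has E (ρ + 0) X ∨ Has F (ρ + b) X := by
    intro b X hX hc
    refine walk1 hE hF hs hb _ ρ b rfl le_rfl X hX (le_trans ?_ hc)
    refine mul_le_mul_of_nonneg_left ?_ (by positivity)
    rw [add_zero]
    exact le_add_of_nonneg_right (by positivity)
  have c2 : ∀ a, ∀ X ⊆ V,
      (B : ℝ) * ((11 / 10) ^ (ρ + a) * 12 ^ 0 + (11 / 10) ^ (ρ + 0) * 12 ^ a) ≤ X.card →
      Has E (ρ + a) X ∨ Has F (ρ + 0) X := by
    intro a X hX hc
    refine (walk1 hF hE hs.symm (fun X h1 h2 => (hb X h1 h2).symm) _ ρ a rfl le_rfl X hX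
      (le_trans ?_ hc)).symm
    refine mul_le_mul_of_nonneg_left ?_ (by positivity)
    rw [add_zero]
    exact le_add_of_nonneg_left (by positivity)
  intro t
  induction t with
  | zero =>
    intro a b hab X hX hc
    obtain rfl : a = 0 := by omega
    exact c1 b X hX hc
  | succ t ih =>
    intro a b hab X hX hc
    rcases a with _ | a
    · exact c1 b X hX hc
    rcases b with _ | b
    · exact c2 _ X hX hc
    have hB : B ≤ X.card := by
      have h1 : (1 : ℝ) ≤ (11 / 10) ^ (ρ + (a + 1)) * 12 ^ (b + 1) :=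
        one_le_mul_of_one_le_of_one_le (one_le_pow₀ (by norm_num)) (one_le_pow₀ (by norm_num))
      have h3 : (0 : ℝ) ≤ (11 / 10) ^ (ρ + (b + 1)) * 12 ^ (a + 1) := by positivity
      have h2 : (B : ℝ) ≤ X.card :=
        le_trans (le_mul_of_one_le_right (by positivity) (by linarith)) hc
      exact_mod_cast h2
    obtain ⟨v, hv, Y, hY, Z, hZ, h1, h2, h3, h4, h5⟩ := hs X hX hB
    have h6 : (131 : ℝ) * X.card ≤ 132 * (Y.card + Z.card) := by exact_mod_cast h5
    have h7 : (B : ℝ) * ((11 / 10) ^ (ρ + a) * 12 ^ (b + 1) +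
          (11 / 10) ^ (ρ + (b + 1)) * 12 ^ a) ≤ Y.card ∨
        (B : ℝ) * ((11 / 10) ^ (ρ + (a + 1)) * 12 ^ b +
          (11 / 10) ^ (ρ + b) * 12 ^ (a + 1)) ≤ Z.card := by
      by_contra hn
      push Not at hn
      obtain ⟨q1, q2⟩ := hn
      simp only [← add_assoc, pow_succ] at q1 q2 hc
      nlinarith
    rcases h7 with h7 | h7
    · rcases ih a (b + 1) (by omega) Y (hY.trans hX) h7 with h | h
      · exact Or.inl (h.ins hE hv hY h1 h3)
      · exact Or.inr (h.sub hY)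
    · rcases ih (a + 1) b (by omega) Z (hZ.trans hX) h7 with h | h
      · exact Or.inl (h.sub hZ)
      · exact Or.inr (h.ins hF hv hZ h2 h4)

/-- Greedy choice of an independent set. -/
lemma greedy {H : ℕ → ℕ → Prop} (hH : ∀ x y, H x y → H y x) {V : Finset ℕ} {D : ℝ}
    (hD : ∀ X ⊆ V, X.Nonempty → ∃ v ∈ X, ∀ Y ⊆ X, (∀ u ∈ Y, H v u) → (Y.card : ℝ) + 1 ≤ D) :
    ∀ s : ℕ, ∀ X ⊆ V, s * D ≤ X.card → 1 ≤ D → Has (fun x y => ¬ H x y) s X := by
  classical
  intro s
  induction s with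
  | zero => intro X _ _ _; exact Has.zero _ _
  | succ s ih =>
    intro X hX hc h1
    have hne : X.Nonempty := by
      rw [← card_pos]
      have : (0 : ℝ) < X.card := by
        push_cast at hc
        nlinarith [(Nat.cast_nonneg s : (0 : ℝ) ≤ s)]
      exact_mod_cast this
    obtain ⟨v, hv, hd⟩ := hD X hX hne
    have h2 := hd (X.filter (H v)) (filter_subset _ _) (fun u hu => (mem_filter.1 hu).2)
    have h3 := card_filter_add_card_filter_not (s := X) (H v)
    have h4 : (X.filter (fun u => ¬ H v u)).card ≤ ((X.filter (fun u => ¬ H v u)).erase v).card + 1 :=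
      by have := pred_card_le_card_erase (s := X.filter (fun u => ¬ H v u)) (a := v); omega
    have h5 : (X.card : ℝ) ≤ (X.filter (H v)).card +
        (((X.filter (fun u => ¬ H v u)).erase v).card + 1) := by
      exact_mod_cast (by omega)
    have hsub : (X.filter (fun u => ¬ H v u)).erase v ⊆ X :=
      (erase_subset _ _).trans (filter_subset _ _)
    refine (ih _ (hsub.trans hX) ?_ h1).ins (fun x y h h' => h (hH _ _ h')) hv hsub
      (notMem_erase _ _) (fun u hu => (mem_filter.1 (mem_of_mem_erase hu)).2)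
    push_cast at hc
    linarith

/-- A set of `s` vertices contains a one-coloured `ρ`-set when `K_s` has no good colouring. -/
lemma has_of_not_good {s ρ : ℕ} (h : ¬ Good s 2 2 ρ) (c : Finset ℕ → ℕ) (hc : ∀ T, c T < 2)
    (I : Finset ℕ) (hI : I.card = s) :
    Has (fun x y => c {x, y} = 0) ρ I ∨ Has (fun x y => c {x, y} = 1) ρ I := by
  by_contra hn
  push Not at hn
  refine h (good2_of (fun a b => c {enum I a, enum I b}) (fun a b => hc _) ?_)
  intro x hx hb v hv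
  have hinc : Inc ρ (enum I ∘ x) := (enum_inc I).comp hx (fun i hi => hI ▸ hb i hi)
  have key : Has (fun x y => c {x, y} = v) ρ I := by
    refine ⟨image (enum I ∘ x) (range ρ), ?_, hinc.card_image, ?_⟩
    · intro a ha
      obtain ⟨i, hi, rfl⟩ := mem_image.1 ha
      exact enum_mem (hI ▸ hb i (mem_range.1 hi))
    · intro a ha b hb' hab
      obtain ⟨i, hi, rfl⟩ := mem_image.1 ha
      obtain ⟨j, hj, rfl⟩ := mem_image.1 hb'
      rw [mem_range] at hi hj
      rcases lt_trichotomy i j with h1 | h1 | h1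
      · exact hv i j h1 hj
      · exact absurd (by rw [h1]) hab
      · rw [pair_comm]; exact hv j i h1 hi
  rcases Nat.lt_or_ge ρ 2 with h2 | h2
  · obtain ⟨S, h3, h4, -⟩ := key
    refine hn.1 ⟨S, h3, h4, fun a ha b hb' hab => ?_⟩
    have := one_lt_card.2 ⟨a, ha, b, hb', hab⟩
    omega
  · have h3 := hv 0 1 (by omega) (by omega)
    have h4 := hc {enum I (x 0), enum I (x 1)}
    obtain rfl | rfl : v = 0 ∨ v = 1 := by omega
    · exact hn.1 key
    · exact hn.2 key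

lemma monoN_of {c : Finset ℕ → ℕ} {S : Finset ℕ} {v : ℕ}
    (h : ∀ x ∈ S, ∀ y ∈ S, x ≠ y → c {x, y} = v) : MonoN 2 c S := by
  have key : ∀ T ⊆ S, T.card = 2 → c T = v := by
    intro T hT hc
    obtain ⟨a, b, hab, rfl⟩ := card_eq_two.1 hc
    exact h a (hT (by simp)) b (hT (by simp)) hab
  intro T₁ T₂ h1 h2 c1 c2
  rw [key T₁ h1 c1, key T₂ h2 c2]

/-- The walk in the complement of a sparse graph `H`. -/
lemma walk_main {H : ℕ → ℕ → Prop} (hH : ∀ x y, H x y → H y x) {V : Finset ℕ} {B ρ j : ℕ}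
    (hdeg : ∀ X ⊆ V, B ≤ X.card → ∃ v ∈ X, ∀ Y ⊆ X, (∀ u ∈ Y, H v u) →
      132 * (Y.card + 1) ≤ X.card)
    (c : Finset ℕ → ℕ) (hc : ∀ T, c T < 2)
    (hb : ∀ X ⊆ V, B ≤ X.card → Has (fun x y => ¬ H x y ∧ c {x, y} = 0) ρ X ∨
      Has (fun x y => ¬ H x y ∧ c {x, y} = 1) ρ X)
    (hV : (B : ℝ) * (2 * ((11 / 10) ^ (ρ + j) * 12 ^ j)) ≤ V.card) :
    ∃ S ⊆ V, S.card = ρ + j ∧ (∀ a ∈ S, ∀ b ∈ S, a ≠ b → ¬ H a b) ∧ MonoN 2 c S := by
  classical
  have hsym : ∀ v, ∀ x y, (¬ H x y ∧ c {x, y} = v) → (¬ H y x ∧ c {y, x} = v) :=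
    fun v x y h => ⟨fun h' => h.1 (hH _ _ h'), by rw [pair_comm]; exact h.2⟩
  have hs : Step (fun x y => ¬ H x y ∧ c {x, y} = 0) (fun x y => ¬ H x y ∧ c {x, y} = 1) V B := by
    intro X hX hB
    obtain ⟨v, hv, hd⟩ := hdeg X hX hB
    have h2 := hd (X.filter (H v)) (filter_subset _ _) (fun u hu => (mem_filter.1 hu).2)
    have h3 := card_filter_add_card_filter_not (s := X) (H v)
    set W := (X.filter (fun u => ¬ H v u)).erase v with hW
    have h4 : (X.filter (fun u => ¬ H v u)).card ≤ W.card + 1 := by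
      have := pred_card_le_card_erase (s := X.filter (fun u => ¬ H v u)) (a := v)
      rw [← hW] at this
      omega
    have h5 := card_filter_add_card_filter_not (s := W) (fun u => c {v, u} = 0)
    have hsub : W ⊆ X := (erase_subset _ _).trans (filter_subset _ _)
    have hWn : ∀ u ∈ W, ¬ H v u := fun u hu => (mem_filter.1 (mem_of_mem_erase hu)).2
    refine ⟨v, hv, W.filter (fun u => c {v, u} = 0), (filter_subset _ _).trans hsub,
      W.filter (fun u => ¬ c {v, u} = 0), (filter_subset _ _).trans hsub,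
      fun h => notMem_erase _ _ (mem_filter.1 h).1, fun h => notMem_erase _ _ (mem_filter.1 h).1,
      fun u hu => ⟨hWn u (mem_filter.1 hu).1, (mem_filter.1 hu).2⟩,
      fun u hu => ⟨hWn u (mem_filter.1 hu).1, ?_⟩, by omega⟩
    have := (mem_filter.1 hu).2
    have := hc {v, u}
    omega
  rcases walk2 (hsym 0) (hsym 1) hs hb _ j j rfl V Subset.rfl (by rw [← two_mul]; exact hV) with
    ⟨S, h1, h2, h3⟩ | ⟨S, h1, h2, h3⟩
  · exact ⟨S, h1, h2, fun a ha b hb hab => (h3 a ha b hb hab).1,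
      monoN_of fun a ha b hb hab => (h3 a ha b hb hab).2⟩
  · exact ⟨S, h1, h2, fun a ha b hb hab => (h3 a ha b hb hab).1,
      monoN_of fun a ha b hb hab => (h3 a ha b hb hab).2⟩

/-- A crude Ramsey upper bound. -/
lemma not_good_pow (j : ℕ) : ¬ Good (264 * 14 ^ j) 2 2 j := by
  rintro ⟨c, hc, hg⟩
  obtain ⟨S, h1, h2, -, h4⟩ := walk_main (H := fun _ _ => False) (fun _ _ h => h)
    (V := range (264 * 14 ^ j)) (B := 132) (ρ := 0) (j := j) (by
      intro X _ hB
      obtain ⟨v, hv⟩ : X.Nonempty := card_pos.1 (by omega)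
      refine ⟨v, hv, fun Y _ hY => ?_⟩
      have : Y = ∅ := eq_empty_of_forall_notMem hY
      rw [this, card_empty]
      omega) c hc (fun X _ _ => Or.inl (Has.zero _ _)) (by
      rw [card_range, zero_add, ← mul_pow]
      push_cast
      have : ((11 : ℝ) / 10 * 12) ^ j ≤ 14 ^ j := pow_le_pow_left₀ (by norm_num) (by norm_num) j
      linarith)
  exact hg S h1 (by omega) h4

end Pool.Agent.MP_251804_lc

end

section

namespace Pool.Agent.MP_251804_lc
open Finset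

section Infra
variable {α : Type} [DecidableEq α]

/-- The weight of a subset under independent sampling with probability `p`. -/
noncomputable def wgt (p : ℝ) (P E : Finset α) : ℝ := (∏ _e ∈ E, p) * ∏ _e ∈ P \ E, (1 - p)

lemma wgt_nonneg {p : ℝ} (h0 : 0 ≤ p) (h1 : p ≤ 1) (P E : Finset α) : 0 ≤ wgt p P E :=
  mul_nonneg (prod_nonneg fun _ _ => h0) (prod_nonneg fun _ _ => by linarith)

lemma exp_prod (p a b : ℝ) {P A : Finset α} (hA : A ⊆ P) :
    ∑ E ∈ P.powerset, wgt p P E * ∏ e ∈ A, (if e ∈ E then a else b) =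
      (p * a + (1 - p) * b) ^ A.card := by
  have h1 := prod_add (fun e => p * if e ∈ A then a else 1)
    (fun e => (1 - p) * if e ∈ A then b else 1) P
  have h2 : ∏ e ∈ P, ((p * if e ∈ A then a else 1) + (1 - p) * if e ∈ A then b else 1) =
      (p * a + (1 - p) * b) ^ A.card := by
    rw [← prod_const, ← prod_subset hA]
    · exact prod_congr rfl fun e he => by simp [he]
    · intro e _ he; simp [he]
  rw [← h2, h1]
  refine sum_congr rfl fun E hE => ?_
  have hE' := mem_powerset.1 hE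
  rw [prod_mul_distrib, prod_mul_distrib, wgt, prod_ite_mem, prod_ite_mem, prod_ite,
    filter_mem_eq_inter, inter_comm A E]
  have : (A.filter fun x => x ∉ E) = (P \ E) ∩ A := by
    ext x
    simp only [mem_filter, mem_inter, mem_sdiff]
    exact ⟨fun h => ⟨⟨hA h.1, h.2⟩, h.1⟩, fun h => ⟨h.2, h.1.2⟩⟩
  rw [this]
  ring

lemma exists_lt_one {p : ℝ} (h0 : 0 ≤ p) (h1 : p ≤ 1) (P : Finset α) (Z : Finset α → ℝ)
    (h : ∑ E ∈ P.powerset, wgt p P E * Z E < 1) : ∃ E ⊆ P, Z E < 1 := by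
  by_contra hc
  push Not at hc
  have h2 := exp_prod p 1 1 (empty_subset P)
  simp only [prod_empty, card_empty, pow_zero] at h2
  have := sum_le_sum fun E (hE : E ∈ P.powerset) =>
    mul_le_mul_of_nonneg_left (hc E (mem_powerset.1 hE)) (wgt_nonneg h0 h1 P E)
  linarith

lemma prod_ite_eq_pow (x : ℝ) (A E : Finset α) :
    ∏ e ∈ A, (if e ∈ E then x else 1) = x ^ (A ∩ E).card := by
  rw [prod_ite_mem, prod_const]

end Infra

/-- The increasing pairs of a set. -/
def prs (S : Finset ℕ) : Finset (ℕ × ℕ) := (S ×ˢ S).filter fun e => e.1 < e.2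

lemma card_prs (S : Finset ℕ) : (prs S).card = S.card.choose 2 := card_product_filter_lt

lemma prs_mono {S T : Finset ℕ} (h : S ⊆ T) : prs S ⊆ prs T :=
  filter_subset_filter _ (product_subset_product h h)

lemma mem_prs {S : Finset ℕ} {e : ℕ × ℕ} : e ∈ prs S ↔ e.1 ∈ S ∧ e.2 ∈ S ∧ e.1 < e.2 := by
  simp [prs, and_assoc]

lemma sum_card_le {n s : ℕ} {x : ℝ} (hx : 0 ≤ x) (F : Finset ℕ → ℝ)
    (h : ∀ S ∈ powersetCard s (range n), F S ≤ x ^ s) :
    ∑ S ∈ powersetCard s (range n), F S ≤ (n * x) ^ s := by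
  refine (sum_le_card_nsmul _ _ _ h).trans ?_
  rw [card_powersetCard, card_range, nsmul_eq_mul, mul_pow]
  have : ((n.choose s : ℕ) : ℝ) ≤ (n : ℝ) ^ s := by exact_mod_cast Nat.choose_le_pow n s
  gcongr

lemma cast_choose_two (x : ℕ) : ((x.choose 2 : ℕ) : ℝ) = x * (x - 1) / 2 := Nat.cast_choose_two ℝ x

theorem exists_rand {n w a : ℕ} {p : ℝ} (hn : 1 ≤ n) (h0 : 0 ≤ p) (h1 : p ≤ 1)
    (hw : 2 * Real.log (3 * n) ≤ p * w) (ha : 3 * n * p ^ a ≤ 1) :
    ∃ H : ℕ → ℕ → Prop, (∀ x y, H x y → H y x) ∧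
      (∀ S ⊆ range n, S.card = w + 1 → ∃ x ∈ S, ∃ y ∈ S, x ≠ y ∧ H x y) ∧
      (∀ S ⊆ range n, S.card = 2 * a + 1 → ∃ x ∈ S, ∃ y ∈ S, x ≠ y ∧ ¬ H x y) ∧
      ∀ X ⊆ range n, X.Nonempty → ∃ v ∈ X, ∀ Y ⊆ X, (∀ u ∈ Y, H v u) →
        (Y.card : ℝ) ≤ 2 * p * X.card + 2 * Real.log (4 * n) := by
  classical
  have hnR : (1 : ℝ) ≤ n := by exact_mod_cast hn
  set P := prs (range n) with hP
  set L := Real.log (4 * n) with hL
  let Z₁ : Finset (ℕ × ℕ) → ℝ := fun E => ∑ S ∈ powersetCard (w + 1) (range n),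
    ∏ e ∈ prs S, (if e ∈ E then (0 : ℝ) else 1)
  let Z₂ : Finset (ℕ × ℕ) → ℝ := fun E => ∑ S ∈ powersetCard (2 * a + 1) (range n),
    ∏ e ∈ prs S, (if e ∈ E then (1 : ℝ) else 0)
  let Z₃ : Finset (ℕ × ℕ) → ℝ := fun E => ∑ X ∈ (range n).powerset.erase ∅,
    Real.exp (-(p * X.card ^ 2 + L * X.card)) * ∏ e ∈ prs X, (if e ∈ E then Real.exp 1 else 1)
  have e1 : ∑ E ∈ P.powerset, wgt p P E * Z₁ E ≤ 1 / 3 := by
    simp only [Z₁, mul_sum]
    rw [sum_comm]
    refine (sum_card_le (x := 1 / (3 * n)) (by positivity) _ fun S hS => ?_).trans ?_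
    · obtain ⟨hS1, hS2⟩ := mem_powersetCard.1 hS
      rw [exp_prod p 0 1 (prs_mono hS1), card_prs, hS2, mul_zero, zero_add, mul_one]
      calc _ ≤ Real.exp (-p) ^ (w + 1).choose 2 :=
            pow_le_pow_left₀ (by linarith) (by linarith [Real.add_one_le_exp (-p)]) _
        _ = Real.exp (-(p * w / 2)) ^ (w + 1) := by
            rw [← Real.exp_nat_mul, ← Real.exp_nat_mul, cast_choose_two]
            congr 1
            push_cast
            ring
        _ ≤ _ := by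
            refine pow_le_pow_left₀ (by positivity) ?_ _
            rw [one_div, ← Real.exp_log (show (0 : ℝ) < 3 * n by positivity), ← Real.exp_neg]
            exact Real.exp_le_exp.2 (by linarith)
    · have : (n : ℝ) * (1 / (3 * n)) = 1 / 3 := by field_simp
      rw [this]
      exact pow_le_of_le_one (by norm_num) (by norm_num) (by omega)
  have e2 : ∑ E ∈ P.powerset, wgt p P E * Z₂ E ≤ 1 / 3 := by
    simp only [Z₂, mul_sum]
    rw [sum_comm]
    refine (sum_card_le (x := p ^ a) (by positivity) _ fun S hS => ?_).trans ?_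
    · obtain ⟨hS1, hS2⟩ := mem_powersetCard.1 hS
      rw [exp_prod p 1 0 (prs_mono hS1), card_prs, hS2, mul_zero, add_zero, mul_one, ← pow_mul,
        Nat.choose_two_right]
      refine le_of_eq (congrArg _ ?_)
      rw [Nat.add_sub_cancel, mul_comm 2 a, ← mul_assoc, Nat.mul_div_cancel _ (by norm_num),
        mul_comm]
    · exact (pow_le_of_le_one (by positivity) (by linarith) (by omega)).trans (by linarith)
  have e3 : ∑ E ∈ P.powerset, wgt p P E * Z₃ E < 1 / 3 := by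
    simp only [Z₃, mul_sum]
    rw [sum_comm]
    have hx : Real.exp (-L) = 1 / (4 * n) := by
      rw [Real.exp_neg, hL, Real.exp_log (by positivity), one_div]
    have h3 : ∀ X ∈ (range n).powerset.erase ∅, ∑ E ∈ P.powerset, wgt p P E *
        (Real.exp (-(p * X.card ^ 2 + L * X.card)) *
          ∏ e ∈ prs X, (if e ∈ E then Real.exp 1 else 1)) ≤ (1 / (4 * n)) ^ X.card := by
      intro X hX
      have hX1 := mem_powerset.1 (mem_erase.1 hX).2
      simp only [mul_left_comm (wgt p P _)]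
      rw [← mul_sum, exp_prod p _ 1 (prs_mono hX1), card_prs, ← hx]
      have h4 : p * Real.exp 1 + (1 - p) * 1 ≤ Real.exp (2 * p) := by
        have := Real.exp_one_lt_d9
        nlinarith [Real.add_one_le_exp (2 * p)]
      have h5 : 0 ≤ p * Real.exp 1 + (1 - p) * 1 := by
        have := Real.exp_pos 1
        nlinarith
      refine (mul_le_mul_of_nonneg_left (pow_le_pow_left₀ h5 h4 _) (by positivity)).trans ?_
      rw [← Real.exp_nat_mul, ← Real.exp_nat_mul, ← Real.exp_add, cast_choose_two]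
      refine Real.exp_le_exp.2 ?_
      have : (0 : ℝ) ≤ X.card := Nat.cast_nonneg _
      nlinarith [mul_nonneg h0 this]
    refine (sum_le_sum h3).trans_lt ?_
    have h4 := sum_pow_mul_eq_add_pow (1 / (4 * n) : ℝ) 1 (range n)
    simp only [one_pow, mul_one, card_range] at h4
    rw [sum_erase_eq_sub (empty_mem_powerset _), h4, card_empty, pow_zero]
    have h5 : (1 / (4 * n) + 1 : ℝ) ^ n ≤ Real.exp (1 / 4) := by
      refine (pow_le_pow_left₀ (by positivity) (Real.add_one_le_exp _) _).trans (le_of_eq ?_)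
      rw [← Real.exp_nat_mul]
      congr 1
      field_simp
    have h6 : Real.exp (1 / 4) < 4 / 3 := by
      have := Real.exp_bound_div_one_sub_of_interval' (x := 1 / 4) (by norm_num) (by norm_num)
      norm_num at this ⊢
      exact this
    linarith
  obtain ⟨E, hE, hZ⟩ := exists_lt_one h0 h1 P (fun E => Z₁ E + Z₂ E + Z₃ E) (by
    simp only [mul_add, sum_add_distrib]; linarith)
  have n1 : ∀ S ∈ powersetCard (w + 1) (range n),
      0 ≤ ∏ e ∈ prs S, (if e ∈ E then (0 : ℝ) else 1) :=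
    fun S _ => prod_nonneg fun e _ => by split_ifs <;> norm_num
  have n2 : ∀ S ∈ powersetCard (2 * a + 1) (range n),
      0 ≤ ∏ e ∈ prs S, (if e ∈ E then (1 : ℝ) else 0) :=
    fun S _ => prod_nonneg fun e _ => by split_ifs <;> norm_num
  have n3 : ∀ X ∈ (range n).powerset.erase ∅, 0 ≤ Real.exp (-(p * X.card ^ 2 + L * X.card)) *
      ∏ e ∈ prs X, (if e ∈ E then Real.exp 1 else 1) :=
    fun S _ => mul_nonneg (Real.exp_pos _).le
      (prod_nonneg fun e _ => by split_ifs <;> positivity)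
  have z1 : 0 ≤ Z₁ E := sum_nonneg n1
  have z2 : 0 ≤ Z₂ E := sum_nonneg n2
  have z3 : 0 ≤ Z₃ E := sum_nonneg n3
  refine ⟨fun x y => (x, y) ∈ E ∨ (y, x) ∈ E, fun x y h => h.symm, ?_, ?_, ?_⟩
  · intro S hS hc
    by_contra hno
    push Not at hno
    have h2 := single_le_sum n1 (mem_powersetCard.2 ⟨hS, hc⟩)
    rw [prod_eq_one fun e he => by
      obtain ⟨a1, a2, a3⟩ := mem_prs.1 he
      exact if_neg (hno _ a1 _ a2 a3.ne).1] at h2
    have : 1 ≤ Z₁ E := h2
    linarith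
  · intro S hS hc
    by_contra hno
    push Not at hno
    have h2 := single_le_sum n2 (mem_powersetCard.2 ⟨hS, hc⟩)
    rw [prod_eq_one fun e he => by
      obtain ⟨a1, a2, a3⟩ := mem_prs.1 he
      by_contra hc
      have h3 : e ∉ E := fun h => hc (if_pos h)
      have := (mem_prs.1 (hE ((hno _ a1 _ a2 a3.ne).resolve_left h3))).2.2
      simp only at this
      omega] at h2
    have : 1 ≤ Z₂ E := h2
    linarith
  · intro X hX hne
    have h2 := single_le_sum n3 (mem_erase.2 ⟨hne.ne_empty, mem_powerset.2 hX⟩)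
    have h3 : Real.exp (-(p * X.card ^ 2 + L * X.card)) *
      ∏ e ∈ prs X, (if e ∈ E then Real.exp 1 else 1) < 1 := by
      have : _ ≤ Z₃ E := h2
      linarith
    rw [prod_ite_eq_pow, ← Real.exp_nat_mul, ← Real.exp_add, Real.exp_lt_one_iff] at h3
    have h4 : ∑ v ∈ X, (X.filter fun u => (v, u) ∈ E ∨ (u, v) ∈ E).card ≤
        2 * (prs X ∩ E).card := by
      rw [← card_sigma, two_mul]
      refine le_trans (card_le_card_of_injOn (t := (prs X ∩ E) ∪ (prs X ∩ E).image Prod.swap)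
        (fun q => (q.1, q.2)) ?_ ?_) ((card_union_le _ _).trans (Nat.add_le_add_left card_image_le _))
      · rintro ⟨v, u⟩ hq
        simp only [coe_sigma, Set.mem_sigma_iff, mem_coe, mem_filter] at hq
        obtain ⟨hv, hu, h | h⟩ := hq
        · exact mem_coe.2 (mem_union_left _ (mem_inter.2
            ⟨mem_prs.2 ⟨hv, hu, (mem_prs.1 (hE h)).2.2⟩, h⟩))
        · exact mem_coe.2 (mem_union_right _ (mem_image.2 ⟨(u, v), mem_inter.2
            ⟨mem_prs.2 ⟨hu, hv, (mem_prs.1 (hE h)).2.2⟩, h⟩, rfl⟩))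
      · rintro ⟨v, u⟩ _ ⟨v', u'⟩ _ h
        obtain ⟨rfl, rfl⟩ := Prod.mk.inj h
        rfl
    obtain ⟨v, hv, h5⟩ := exists_le_of_sum_le (s := X) hne
      (f := fun v => ((X.filter fun u => (v, u) ∈ E ∨ (u, v) ∈ E).card : ℝ))
      (g := fun _ => 2 * p * X.card + 2 * L) (by
        rw [sum_const, nsmul_eq_mul]
        have : ((∑ v ∈ X, (X.filter fun u => (v, u) ∈ E ∨ (u, v) ∈ E).card : ℕ) : ℝ) ≤
          ((2 * (prs X ∩ E).card : ℕ) : ℝ) := by exact_mod_cast h4
        push_cast at this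
        nlinarith)
    refine ⟨v, hv, fun Y hY hYH => le_trans ?_ h5⟩
    exact_mod_cast card_le_card fun u hu => mem_filter.2 ⟨hY hu, hYH u hu⟩

end Pool.Agent.MP_251804_lc

end

section

namespace Pool.Agent.MP_251804_lc
open Finset Filter

lemma cost_le {m r : ℕ} (hm : ¬ Good m 2 2 r) (hr : 4000 ≤ r) :
    2 * ((11 / 10 : ℝ) ^ r * 12 ^ (r / 10)) ≤ m := by
  set j := r / 10 with hj
  have h1 : 2 ^ ((r - 1) / 2) < m := by
    by_contra h
    exact hm ((good_erdos (by omega)).mono (by omega) le_rfl le_rfl)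
  have h2 : 2 ^ (5 * j) ≤ 2 * m := by
    calc 2 ^ (5 * j) ≤ 2 ^ ((r - 1) / 2 + 1) := Nat.pow_le_pow_right (by norm_num) (by omega)
      _ ≤ 2 * m := by rw [pow_succ]; omega
  have h3 : (32 : ℝ) ^ j ≤ 2 * m := by
    have : ((2 ^ (5 * j) : ℕ) : ℝ) ≤ (2 * m : ℕ) := by exact_mod_cast h2
    push_cast at this
    rwa [pow_mul, show (2 : ℝ) ^ 5 = 32 by norm_num] at this
  have h4 : (11 / 10 : ℝ) ^ r ≤ ((11 / 10) ^ 10) ^ j * (11 / 10) ^ 9 := by
    rw [← pow_mul, ← pow_add]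
    exact pow_le_pow_right₀ (by norm_num) (by omega)
  have h5 : (1 : ℝ) + j * (1 / 36) ≤ (1 + 1 / 36) ^ j := one_add_mul_le_pow (by norm_num) j
  have h6 : (400 : ℝ) ≤ j := by exact_mod_cast (by omega : 400 ≤ j)
  have h7 : ((11 / 10 : ℝ) ^ 10) ^ j * 12 ^ j * (1 + 1 / 36) ^ j ≤ 32 ^ j := by
    rw [← mul_pow, ← mul_pow]
    exact pow_le_pow_left₀ (by norm_num) (by norm_num) j
  have h8 : (0 : ℝ) < ((11 / 10 : ℝ) ^ 10) ^ j * 12 ^ j := by positivity
  have h9 : ((11 / 10 : ℝ) ^ 10) ^ j * 12 ^ j * 12 ≤ 32 ^ j :=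
    le_trans (mul_le_mul_of_nonneg_left (by linarith) h8.le) h7
  have h10 : (11 / 10 : ℝ) ^ r * 12 ^ j ≤ ((11 / 10) ^ 10) ^ j * (11 / 10) ^ 9 * 12 ^ j :=
    mul_le_mul_of_nonneg_right h4 (by positivity)
  have h11 : ((11 / 10 : ℝ)) ^ 9 ≤ 3 := by norm_num
  nlinarith

lemma stepA {n w m s ρ r : ℕ} (hn : 1 ≤ n) (hmw : m * w ≤ n)
    (hs : s * (4 * Real.log (3 * n) + 2 * Real.log (4 * n) + 1) ≤ w)
    (h264 : 264 * (4 * Real.log (3 * n) + 2 * Real.log (4 * n) + 1) ≤ w)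
    (hρ : ¬ Good s 2 2 ρ) (hm : ¬ Good m 2 2 r) (hr : 4000 ≤ r) (hc : CertAt n w 2 2 r) :
    10 * ρ < 9 * r := by
  by_contra hlt
  have hnR : (1 : ℝ) ≤ n := by exact_mod_cast hn
  have l3 : 0 ≤ Real.log (3 * n) := Real.log_nonneg (by linarith)
  have l4 : 0 ≤ Real.log (4 * n) := Real.log_nonneg (by linarith)
  have hw : (0 : ℝ) < w := by linarith
  set p : ℝ := 2 * Real.log (3 * n) / w with hp
  have hpw : p * w = 2 * Real.log (3 * n) := by rw [hp]; field_simp
  have hp0 : 0 ≤ p := by positivity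
  have hp1 : p ≤ 1 / 528 := by rw [hp, div_le_iff₀ hw]; linarith
  obtain ⟨a, ha⟩ := exists_pow_lt_of_lt_one (show (0 : ℝ) < 1 / (3 * n) by positivity)
    (show p < 1 by linarith)
  obtain ⟨H, hH, h1, -, h3⟩ := exists_rand (w := w) (a := a) hn hp0 (by linarith) hpw.ge (by
    rw [lt_div_iff₀ (by positivity)] at ha
    linarith)
  obtain ⟨c, hc2, hg⟩ := hc (fun x y => ¬ H x y) (fun x y h h' => h (hH _ _ h')) (by
    intro S hS hcard
    obtain ⟨x, hx, y, hy, hxy, h⟩ := h1 S hS hcard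
    exact ⟨x, hx, y, hy, hxy, fun h' => h' h⟩)
  have hρ' : ¬ Good s 2 2 (r - r / 10) := fun h => hρ (h.mono le_rfl le_rfl (by omega))
  have e : r - r / 10 + r / 10 = r := by omega
  obtain ⟨S, q1, q2, q3, q4⟩ := walk_main hH (V := range n) (B := w) (ρ := r - r / 10)
    (j := r / 10) (by
      intro X hX hB
      have hB' : (w : ℝ) ≤ X.card := by exact_mod_cast hB
      obtain ⟨v, hv, hd⟩ := h3 X hX (card_pos.1 (by exact_mod_cast hw.trans_le hB'))
      refine ⟨v, hv, fun Y hY hY' => ?_⟩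
      have h4 := hd Y hY hY'
      have h5 : p * X.card ≤ 1 / 528 * X.card := mul_le_mul_of_nonneg_right hp1 (by positivity)
      have : (132 : ℝ) * (Y.card + 1) ≤ X.card := by linarith
      exact_mod_cast this) c hc2 (by
      intro X hX hB
      obtain ⟨X₀, hX₀, hc₀⟩ := exists_subset_card_eq hB
      obtain ⟨I, hI, hIc, hind⟩ := greedy hH (V := X₀)
        (D := 4 * Real.log (3 * n) + 2 * Real.log (4 * n) + 1) (by
          intro Z hZ hne
          obtain ⟨v, hv, hd⟩ := h3 Z (hZ.trans (hX₀.trans hX)) hne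
          refine ⟨v, hv, fun Y hY hY' => ?_⟩
          have h4 := hd Y hY hY'
          have h5 : (Z.card : ℝ) ≤ w := by exact_mod_cast hc₀ ▸ card_le_card hZ
          have h6 : p * Z.card ≤ p * w := mul_le_mul_of_nonneg_left h5 hp0
          linarith) s X₀ Subset.rfl (by rw [hc₀]; exact hs) (by linarith)
      refine (has_of_not_good hρ' c hc2 I hIc).imp ?_ ?_ <;>
      · rintro ⟨S, h4, h5, h6⟩
        exact ⟨S, h4.trans (hI.trans hX₀), h5, fun x hx y hy hxy =>
          ⟨hind x (h4 hx) y (h4 hy) hxy, h6 x hx y hy hxy⟩⟩) (by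
      rw [e, card_range]
      have h4 := cost_le hm hr
      have h5 : (m : ℝ) * w ≤ n := by exact_mod_cast hmw
      nlinarith)
  exact hg S q1 (by omega) q3 q4

lemma ev_rpow {η : ℝ} (hη : 0 < η) (K : ℝ) : ∀ᶠ n : ℕ in atTop, K ≤ (n : ℝ) ^ η :=
  ((tendsto_rpow_atTop hη).comp tendsto_natCast_atTop_atTop).eventually_ge_atTop K

lemma ev_logge (K : ℝ) : ∀ᶠ n : ℕ in atTop, K ≤ Real.log n :=
  (Real.tendsto_log_atTop.comp tendsto_natCast_atTop_atTop).eventually_ge_atTop K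

lemma ev_log {η : ℝ} (hη : 0 < η) {C : ℝ} (hC : 0 ≤ C) : ∀ᶠ n : ℕ in atTop,
    C * (4 * Real.log (3 * n) + 2 * Real.log (4 * n) + 1) ≤ (n : ℝ) ^ η := by
  filter_upwards [ev_rpow (half_pos hη) (C * (12 / η + 19)), eventually_ge_atTop 1] with n h1 hn
  have hnR : (1 : ℝ) ≤ n := by exact_mod_cast hn
  have h2 : Real.log n ≤ (n : ℝ) ^ (η / 2) / (η / 2) :=
    Real.log_le_rpow_div (by positivity) (half_pos hη)
  have h3 : (1 : ℝ) ≤ (n : ℝ) ^ (η / 2) := Real.one_le_rpow hnR (half_pos hη).le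
  have h4 : Real.log 3 ≤ 3 := (Real.log_le_sub_one_of_pos (by norm_num)).trans (by norm_num)
  have h5 : Real.log 4 ≤ 3 := (Real.log_le_sub_one_of_pos (by norm_num)).trans (by norm_num)
  rw [Real.log_mul (by norm_num) (by positivity), Real.log_mul (by norm_num) (by positivity)]
  have h6 : 4 * (Real.log 3 + Real.log n) + 2 * (Real.log 4 + Real.log n) + 1 ≤
      (12 / η + 19) * (n : ℝ) ^ (η / 2) := by
    have : (n : ℝ) ^ (η / 2) / (η / 2) * 6 = 12 / η * (n : ℝ) ^ (η / 2) := by field_simp; ring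
    nlinarith
  have h7 : (n : ℝ) ^ η = (n : ℝ) ^ (η / 2) * (n : ℝ) ^ (η / 2) := by
    rw [← Real.rpow_add (by positivity), add_halves]
  calc _ ≤ C * ((12 / η + 19) * (n : ℝ) ^ (η / 2)) := mul_le_mul_of_nonneg_left h6 hC
    _ = C * (12 / η + 19) * (n : ℝ) ^ (η / 2) := by ring
    _ ≤ _ := by rw [h7]; exact mul_le_mul_of_nonneg_right h1 (by positivity)

lemma half_le_floor {x : ℝ} (hx : 1 ≤ x) : x / 2 ≤ ⌊x⌋₊ := by
  have h1 := Nat.lt_floor_add_one x
  have h2 : (1 : ℝ) ≤ ⌊x⌋₊ := by exact_mod_cast (Nat.one_le_floor_iff x).2 hx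
  linarith

lemma floor_rpow_le {n : ℕ} (hn : 1 ≤ n) {a : ℝ} (ha : a ≤ 1) : ⌊(n : ℝ) ^ a⌋₊ ≤ n := by
  have hnR : (1 : ℝ) ≤ n := by exact_mod_cast hn
  refine Nat.floor_le_of_le ?_
  simpa using Real.rpow_le_rpow_of_exponent_le hnR ha

lemma r_lower {n r : ℕ} {ε : ℝ} (hn : 1 ≤ n) (h : Good ⌊(n : ℝ) ^ ε⌋₊ 2 2 r) :
    ε * Real.log n ≤ 9 + 3 * r := by
  have hnR : (1 : ℝ) ≤ n := by exact_mod_cast hn
  have h1 : ⌊(n : ℝ) ^ ε⌋₊ < 264 * 14 ^ r := by
    by_contra hc
    exact not_good_pow r (h.mono (by omega) le_rfl le_rfl)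
  have h2 : (n : ℝ) ^ ε ≤ 264 * 14 ^ r := by
    have h3 := Nat.lt_floor_add_one ((n : ℝ) ^ ε)
    have h4 : ((⌊(n : ℝ) ^ ε⌋₊ + 1 : ℕ) : ℝ) ≤ (264 * 14 ^ r : ℕ) := by exact_mod_cast h1
    push_cast at h4
    linarith
  have h3 := Real.log_le_log (by positivity) h2
  rw [Real.log_rpow (by positivity), Real.log_mul (by norm_num) (by positivity),
    Real.log_pow] at h3
  have h4 := Real.log_two_lt_d9
  have h5 : Real.log 264 ≤ 9 * Real.log 2 := by
    have := Real.log_le_log (x := 264) (y := 2 ^ 9) (by norm_num) (by norm_num)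
    rwa [Real.log_pow] at this
  have h6 : Real.log 14 ≤ 4 * Real.log 2 := by
    have := Real.log_le_log (x := 14) (y := 2 ^ 4) (by norm_num) (by norm_num)
    rwa [Real.log_pow] at this
  have h7 : (r : ℝ) * Real.log 14 ≤ r * 3 :=
    mul_le_mul_of_nonneg_left (by linarith) (by positivity)
  linarith

lemma r_upper {m n r : ℕ} (hmn : m ≤ n) (hr : 3 ≤ r) (h : ¬ Good m 2 2 r) :
    (r : ℝ) ≤ 3 * Real.log n + 2 := by
  have h1 : 2 ^ ((r - 1) / 2) < m := by
    by_contra hc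
    exact h ((good_erdos hr).mono (by omega) le_rfl le_rfl)
  have h2 : (2 : ℝ) ^ ((r - 1) / 2) ≤ n := by exact_mod_cast (by omega : 2 ^ ((r - 1) / 2) ≤ n)
  have h3 := Real.log_le_log (by positivity) h2
  rw [Real.log_pow] at h3
  have h4 := Real.log_two_gt_d9
  have h5 : (r : ℝ) ≤ 2 * ((r - 1) / 2 : ℕ) + 2 := by exact_mod_cast (by omega)
  have h6 : (0 : ℝ) ≤ ((r - 1) / 2 : ℕ) := by positivity
  nlinarith

theorem mainA {ε : ℝ} (h1 : 9 / 19 < ε) (h2 : ε < 1 / 2) : ∃ Λ : ℕ, ∀ k l : ℕ → ℕ,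
    (∀ n, 2 ≤ k n) → (∃ᶠ n : ℕ in atTop, ∀ n' ∈ Set.Icc n (n ^ Λ), k n' = 2 ∧ l n' = 2) →
      ¬ Complete ε k l := by
  have hε : 0 < ε := by linarith
  have h3 : (1 - ε) / ε < 10 / 9 := by rw [div_lt_iff₀ hε]; linarith
  have h4 : 1 < (1 - ε) / ε := by rw [lt_div_iff₀ hε]; linarith
  obtain ⟨γ, g1, g2⟩ := exists_between h3
  obtain ⟨γ', g3, g4⟩ := exists_between g2
  have γ1 : 1 < γ := by linarith
  have γ0 : 0 < γ := by linarith
  have γ'0 : 0 < γ' := by linarith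
  set η := ε - (1 - ε) / γ with hη
  have η0 : 0 < η := by
    rw [hη, sub_pos, div_lt_iff₀ γ0]
    rw [div_lt_iff₀ hε] at g1
    linarith
  have η1 : η ≤ ε := by
    have : 0 ≤ (1 - ε) / γ := div_nonneg (by linarith) γ0.le
    linarith
  obtain ⟨J, hJ⟩ := pow_unbounded_of_one_lt (20 / ε) (show 1 < 10 / 9 / γ' by
    rw [lt_div_iff₀ γ'0]; linarith)
  refine ⟨⌈γ' ^ J⌉₊, fun k l hk hfreq hcomp => ?_⟩
  have hev := (hcomp.eventually hk).and ((ev_log η0 (C := 528) (by norm_num)).and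
    ((ev_logge (20000 / ε)).and ((ev_rpow (sub_pos.2 g3) 2).and (eventually_ge_atTop 1))))
  obtain ⟨N, hN⟩ := eventually_atTop.1 hev
  choose! r hr using fun n hn => (hN n hn).1
  obtain ⟨n, hwin, hn⟩ := (hfreq.and_eventually (eventually_ge_atTop N)).exists
  have hlog : ∀ x, N ≤ x → 20000 ≤ ε * Real.log x := fun x hx => by
    have := (hN x hx).2.2.1
    rwa [div_le_iff₀' hε] at this
  have hone : ∀ x, N ≤ x → (1 : ℝ) ≤ x := fun x hx => by exact_mod_cast (hN x hx).2.2.2.2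
  have hlow : ∀ x, N ≤ x → k x = 2 ∧ l x = 2 → ε * Real.log x ≤ 9 + 3 * r x := by
    intro x hx hkl
    have q := (hr x hx).2
    rw [hkl.1, hkl.2] at q
    have q1 := (hN x hx).2.2.2.2
    refine r_lower q1 (q.good (floor_rpow_le q1 (by linarith)) ?_)
    exact (Nat.one_le_floor_iff _).2 (Real.one_le_rpow (hone x hx) hε.le)
  have hbig : ∀ x, N ≤ x → k x = 2 ∧ l x = 2 → 4000 ≤ r x := by
    intro x hx hkl
    have := hlow x hx hkl
    have := hlog x hx
    exact_mod_cast (by linarith : (4000 : ℝ) ≤ r x)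
  have hstep : ∀ x y, N ≤ x → N ≤ y → (x : ℝ) ^ γ ≤ y → k x = 2 ∧ l x = 2 → k y = 2 ∧ l y = 2 →
      10 * r x < 9 * r y := by
    intro x y hx hy hxy kx ky
    have qx := (hr x hx).1
    have qy := hr y hy
    rw [kx.1, kx.2] at qx
    rw [ky.1, ky.2] at qy
    have y1 := hone y hy
    have y0 : (0 : ℝ) < y := by linarith
    have hD := (hN y hy).2.1
    have hw := half_le_floor (Real.one_le_rpow y1 hε.le)
    have l3 : 0 ≤ Real.log (3 * y) := Real.log_nonneg (by linarith)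
    have l4 : 0 ≤ Real.log (4 * y) := Real.log_nonneg (by linarith)
    have e1 : (y : ℝ) ^ ε = (y : ℝ) ^ ((1 - ε) / γ) * (y : ℝ) ^ η := by
      rw [← Real.rpow_add y0, hη]; congr 1; ring
    have e2 : (⌊(x : ℝ) ^ (1 - ε)⌋₊ : ℝ) ≤ (y : ℝ) ^ ((1 - ε) / γ) := by
      refine (Nat.floor_le (by positivity)).trans ?_
      have := Real.rpow_le_rpow (by positivity) hxy (div_nonneg (by linarith : 0 ≤ 1 - ε) γ0.le)
      rwa [← Real.rpow_mul (by positivity), mul_div_cancel₀ _ γ0.ne'] at this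
    have e3 : (y : ℝ) ^ η ≤ (y : ℝ) ^ ε := Real.rpow_le_rpow_of_exponent_le y1 η1
    refine stepA (hN y hy).2.2.2.2 ?_ ?_ (by linarith) qx qy.1 (hbig y hy ky) qy.2
    · have : (⌊(y : ℝ) ^ (1 - ε)⌋₊ : ℝ) * ⌊(y : ℝ) ^ ε⌋₊ ≤ y := by
        calc _ ≤ (y : ℝ) ^ (1 - ε) * (y : ℝ) ^ ε :=
              mul_le_mul (Nat.floor_le (by positivity)) (Nat.floor_le (by positivity))
                (by positivity) (by positivity)
          _ = y := by rw [← Real.rpow_add y0]; simp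
      exact_mod_cast this
    · calc _ ≤ (y : ℝ) ^ ((1 - ε) / γ) * ((y : ℝ) ^ η / 2) :=
            mul_le_mul e2 (by linarith) (by positivity) (by positivity)
        _ ≤ _ := by linarith
  let f : ℕ → ℕ := fun x => ⌈(x : ℝ) ^ γ⌉₊
  have n1 := hone n hn
  have ln0 : 1 ≤ Real.log n := by
    have := hlog n hn
    by_contra hc
    nlinarith
  have hchain : ∀ j, n ≤ f^[j] n ∧ Real.log (f^[j] n : ℕ) ≤ γ' ^ j * Real.log n := by
    intro j
    induction j with
    | zero => simp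
    | succ j ih =>
      rw [Function.iterate_succ_apply']
      set x := f^[j] n
      have hx : N ≤ x := hn.trans ih.1
      have x1 := hone x hx
      have x0 : (0 : ℝ) < x := by linarith
      have q1 : (x : ℝ) ≤ (x : ℝ) ^ γ := by
        simpa using Real.rpow_le_rpow_of_exponent_le x1 γ1.le
      have q2 : (x : ℝ) ^ γ ≤ f x := Nat.le_ceil _
      have q3 : (f x : ℝ) < (x : ℝ) ^ γ + 1 := Nat.ceil_lt_add_one (by positivity)
      have q4 : (x : ℝ) ^ γ' = (x : ℝ) ^ (γ' - γ) * (x : ℝ) ^ γ := by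
        rw [← Real.rpow_add x0]; congr 1; ring
      have q5 := (hN x hx).2.2.2.1
      have q6 : (f x : ℝ) ≤ (x : ℝ) ^ γ' := by nlinarith
      refine ⟨ih.1.trans (by exact_mod_cast q1.trans q2), ?_⟩
      have q7 := Real.log_le_log (by linarith) q6
      rw [Real.log_rpow x0] at q7
      rw [pow_succ']
      nlinarith [ih.2]
  have hkl : ∀ j ≤ J, k (f^[j] n) = 2 ∧ l (f^[j] n) = 2 := by
    intro j hj
    refine hwin _ ⟨(hchain j).1, ?_⟩
    have q1 : γ' ^ j ≤ (⌈γ' ^ J⌉₊ : ℝ) :=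
      (pow_le_pow_right₀ (by linarith) hj).trans (Nat.le_ceil _)
    have q2 : Real.log (f^[j] n : ℕ) ≤ Real.log ((n : ℝ) ^ ⌈γ' ^ J⌉₊) := by
      rw [Real.log_pow]
      exact (hchain j).2.trans (mul_le_mul_of_nonneg_right q1 (by linarith))
    have q3 := hone _ (hn.trans (hchain j).1)
    rw [Real.log_le_log_iff (by linarith) (by positivity)] at q2
    exact_mod_cast q2
  have hgrow : ∀ j ≤ J, (10 / 9 : ℝ) ^ j * r n ≤ r (f^[j] n) := by
    intro j
    induction j with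
    | zero => simp
    | succ j ih =>
      intro hj
      have q1 := hstep (f^[j] n) (f^[j + 1] n) (hn.trans (hchain j).1) (hn.trans (hchain _).1)
        (by rw [Function.iterate_succ_apply']; exact Nat.le_ceil _) (hkl j (by omega)) (hkl _ hj)
      have q2 : (10 : ℝ) * r (f^[j] n) ≤ 9 * r (f^[j + 1] n) := by exact_mod_cast q1.le
      have q3 := ih (by omega)
      rw [pow_succ]
      linarith
  have hJN := hn.trans (hchain J).1
  have q1 := (hr _ hJN).1
  rw [(hkl J le_rfl).1, (hkl J le_rfl).2] at q1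
  have q2 := r_upper (floor_rpow_le (hN _ hJN).2.2.2.2 (by linarith))
    (by have := hbig _ hJN (hkl J le_rfl); omega) q1
  have q3 := hlow n hn (hkl 0 (by omega))
  have q4 := hlog n hn
  have q5 := hgrow J le_rfl
  have q6 := (hchain J).2
  have q7 : (1 : ℝ) ≤ γ' ^ J := one_le_pow₀ (by linarith)
  rw [div_pow, div_lt_div_iff₀ hε (by positivity)] at hJ
  have q8 : ε * Real.log n / 4 ≤ r n := by linarith
  have q9 : (10 / 9 : ℝ) ^ J * (ε * Real.log n / 4) ≤ (10 / 9) ^ J * r n :=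
    mul_le_mul_of_nonneg_left q8 (by positivity)
  have q10 : 20 * γ' ^ J * Real.log n < (10 / 9) ^ J * ε * Real.log n :=
    mul_lt_mul_of_pos_right hJ (by linarith)
  nlinarith

end Pool.Agent.MP_251804_lc

end
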